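import Pool.Agent.H69.BD.CL
import Pool.Agent.H72.BE.Fin
import Pool.Agent.H4.RR.BogCyc

/-!
# THEOREM VR+ (MP_187c26_nt): Frobenius and product formula, with the content

`cl_fieldC`, `clC`: the lemmas of `H69/BD/CL.lean` with an ideal `𝔠` prime to `q` which contains the `u'_i`. `scaleV`: a finite family
of elements of `A` has a multiple which is integral with content prime to `q`. `clA`: the lemma for `u_i = ∑ V_ik X_k`,
`u'_i = ∑ τ(V_ik) X'_k`, with the content of `V` on the right side.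
-/

set_option autoImplicit false

open NumberField

namespace Pool.Agent.H69.BE

open Pool.Agent.H4.RR Pool.Agent.H69.BD

theorem cl_fieldC (E : Type) [Field E] [NumberField E] (α : E) (d q f : ℕ) (hq : q.Prime)
    (u u' w : Fin (d + 1) → 𝓞 E) (s : ℤ) (𝔠 : Ideal (𝓞 E))
    (hcop : IsCoprime (Ideal.span {(q : 𝓞 E)}) 𝔠) (hc : ∀ i, u' i ∈ 𝔠)
    (hrel : ∀ i, u' i = s * u i ^ (q ^ f) + q * w i)
    (h0 : ∑ i, (u i : E) * α ^ (i : ℕ) = 0)
    (hne : ∑ i, (u' i : E) * α ^ (q ^ f * (i : ℕ)) ≠ 0) :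
    (q : ℝ) ^ Module.finrank ℚ E * Ideal.absNorm 𝔠 ≤ Height.mulHeight₁ α ^ (q ^ f * d) *
      ∏ σ : E →+* ℂ, ∑ i, ‖σ (u' i : E)‖ := by
  classical
  obtain ⟨V, U, hU, rfl⟩ := IsFractionRing.div_surjective (A := 𝓞 E) α
  have hU0 : U ≠ 0 := nonZeroDivisors.ne_zero hU
  have hUE : (U : E) ≠ 0 := by exact_mod_cast hU0
  set Q : ℕ := q ^ f with hQ
  set I : Ideal (𝓞 E) := Ideal.span {U, V} with hI
  have hUI : U ∈ I := Ideal.subset_span (by simp)
  have hVI : V ∈ I := Ideal.subset_span (by simp)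
  have hI0 : I ≠ ⊥ := by
    intro h
    rw [h] at hUI
    exact hU0 (by simpa using hUI)
  set y : Fin (d + 1) → 𝓞 E := fun i => u i * (V ^ (i : ℕ) * U ^ (d - (i : ℕ))) with hy
  have hmem : ∀ (n : ℕ) (i : Fin (d + 1)), V ^ (n * (i : ℕ)) * U ^ (n * (d - (i : ℕ))) ∈
      I ^ (n * d) := by
    intro n i
    have h1 : I ^ (n * d) = I ^ (n * (i : ℕ)) * I ^ (n * (d - (i : ℕ))) := by
      rw [← pow_add, ← mul_add]
      congr 2
      have := i.2
      omega
    rw [h1]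
    exact Ideal.mul_mem_mul (Ideal.pow_mem_pow hVI _) (Ideal.pow_mem_pow hUI _)
  have hyI : ∀ i ∈ (Finset.univ : Finset (Fin (d + 1))), y i ∈ I ^ d := by
    intro i _
    have := hmem 1 i
    rw [one_mul, one_mul, one_mul] at this
    exact Ideal.mul_mem_left _ _ this
  have key : ∀ (n : ℕ) (c : Fin (d + 1) → 𝓞 E),
      ((∑ i, c i * (V ^ (n * (i : ℕ)) * U ^ (n * (d - (i : ℕ)))) : 𝓞 E) : E) =
        (U : E) ^ (n * d) * ∑ i, (c i : E) * ((V : E) / (U : E)) ^ (n * (i : ℕ)) := by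
    intro n c
    rw [Finset.mul_sum]
    push_cast
    refine Finset.sum_congr rfl fun i _ => ?_
    have h1 : (U : E) ^ (n * d) = (U : E) ^ (n * (i : ℕ)) * (U : E) ^ (n * (d - (i : ℕ))) := by
      rw [← pow_add, ← mul_add]
      congr 2
      have := i.2
      omega
    rw [h1, div_pow]
    have h2 : (U : E) ^ (n * (i : ℕ)) ≠ 0 := pow_ne_zero _ hUE
    field_simp
  have hsum0 : ∑ i, y i = 0 := by
    have h1 := key 1 u
    simp only [one_mul] at h1
    have h2 : ((∑ i, y i : 𝓞 E) : E) = 0 := by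
      rw [hy, h1]
      rw [show ∑ i, (u i : E) * ((V : E) / (U : E)) ^ (i : ℕ) = 0 from h0, mul_zero]
    exact_mod_cast h2
  set Y : 𝓞 E := ∑ i, u' i * (V ^ (Q * (i : ℕ)) * U ^ (Q * (d - (i : ℕ)))) with hY
  have hYe : (Y : E) = (U : E) ^ (Q * d) *
      ∑ i, (u' i : E) * ((V : E) / (U : E)) ^ (Q * (i : ℕ)) := key Q u'
  have hY0 : Y ≠ 0 := by
    intro h
    have h1 : (Y : E) = 0 := by rw [h]; rfl
    rw [hYe] at h1
    exact (mul_ne_zero (pow_ne_zero _ hUE) hne) h1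
  have hYmem : Y ∈ Ideal.span {(q : 𝓞 E)} * I ^ (Q * d) := by
    have e1 : Y = -((s : 𝓞 E) * ((∑ i, y i) ^ Q - ∑ i, y i ^ Q)) +
        (q : 𝓞 E) * ∑ i, w i * (V ^ (Q * (i : ℕ)) * U ^ (Q * (d - (i : ℕ)))) := by
      rw [hsum0, zero_pow (by rw [hQ]; exact (pow_pos hq.pos f).ne'), zero_sub, mul_neg, neg_neg,
        Finset.mul_sum, Finset.mul_sum, ← Finset.sum_add_distrib, hY]
      refine Finset.sum_congr rfl fun i _ => ?_
      rw [hrel i, hy]
      simp only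
      rw [mul_pow, mul_pow, ← pow_mul, ← pow_mul, mul_comm (i : ℕ) Q, mul_comm (d - (i : ℕ)) Q]
      ring
    rw [e1]
    have h1 := frob_sum q hq (I ^ d) Finset.univ y hyI f
    rw [← hQ, ← pow_mul, mul_comm d Q] at h1
    refine Ideal.add_mem _ (neg_mem (Ideal.mul_mem_left _ _ h1)) ?_
    refine Ideal.mul_mem_mul (Ideal.mem_span_singleton_self _) ?_
    exact Ideal.sum_mem _ fun i _ => Ideal.mul_mem_left _ _ (hmem Q i)
  have hYmem2 : Y ∈ 𝔠 * I ^ (Q * d) := by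
    rw [hY]
    exact Ideal.sum_mem _ fun i _ => Ideal.mul_mem_mul (hc i) (hmem Q i)
  have hYmem3 : Y ∈ Ideal.span {(q : 𝓞 E)} * 𝔠 * I ^ (Q * d) := by
    obtain ⟨a, ha, c, hc', hac⟩ := Ideal.isCoprime_iff_exists.1 hcop
    have e1 : Y = a * Y + c * Y := by rw [← add_mul, hac, one_mul]
    rw [e1]
    refine Ideal.add_mem _ ?_ ?_
    · rw [mul_assoc]
      exact Ideal.mul_mem_mul ha hYmem2
    · rw [mul_comm (Ideal.span {(q : 𝓞 E)}) 𝔠, mul_assoc]
      exact Ideal.mul_mem_mul hc' hYmem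
  have hlow := absNorm_le_prod E _ Y hYmem3 hY0
  have hNq : Ideal.absNorm (Ideal.span {(q : 𝓞 E)}) = q ^ Module.finrank ℚ E := by
    rw [Ideal.absNorm_span_natCast, RingOfIntegers.rank]
  rw [map_mul, map_mul, map_pow, hNq] at hlow
  push_cast at hlow
  have hH : Height.mulHeight₁ ((V : E) / (U : E)) * (Ideal.absNorm I : ℝ) =
      ∏ σ : E →+* ℂ, max ‖σ (U : E)‖ ‖σ (V : E)‖ := height_mul_absNorm E U V hU0
  have hup : ∏ σ : E →+* ℂ, ‖σ (Y : E)‖ ≤
      ∏ σ : E →+* ℂ, ((∑ i, ‖σ (u' i : E)‖) * (max ‖σ (U : E)‖ ‖σ (V : E)‖) ^ (Q * d)) := by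
    refine Finset.prod_le_prod (fun σ _ => norm_nonneg _) fun σ _ => ?_
    rw [hY, Finset.sum_mul]
    push_cast
    rw [map_sum]
    refine (norm_sum_le _ _).trans (Finset.sum_le_sum fun i _ => ?_)
    rw [map_mul, map_mul, map_pow, map_pow, norm_mul, norm_mul, norm_pow, norm_pow]
    refine mul_le_mul_of_nonneg_left ?_ (norm_nonneg _)
    have h1 : (max ‖σ (U : E)‖ ‖σ (V : E)‖) ^ (Q * d) =
        (max ‖σ (U : E)‖ ‖σ (V : E)‖) ^ (Q * (i : ℕ)) *
          (max ‖σ (U : E)‖ ‖σ (V : E)‖) ^ (Q * (d - (i : ℕ))) := by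
      rw [← pow_add, ← mul_add]
      congr 2
      have := i.2
      omega
    rw [h1]
    exact mul_le_mul (pow_le_pow_left₀ (norm_nonneg _) (le_max_right _ _) _)
      (pow_le_pow_left₀ (norm_nonneg _) (le_max_left _ _) _) (by positivity) (by positivity)
  rw [Finset.prod_mul_distrib, Finset.prod_pow, ← hH, mul_pow] at hup
  have hNI : (0 : ℝ) < (Ideal.absNorm I : ℝ) ^ (Q * d) := by
    apply pow_pos
    exact_mod_cast Nat.pos_of_ne_zero (fun h => hI0 (Ideal.absNorm_eq_zero_iff.1 h))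
  have hfin := hlow.trans hup
  have e2 : (∏ σ : E →+* ℂ, ∑ i, ‖σ (u' i : E)‖) *
      (Height.mulHeight₁ ((V : E) / (U : E)) ^ (Q * d) * (Ideal.absNorm I : ℝ) ^ (Q * d)) =
      (Height.mulHeight₁ ((V : E) / (U : E)) ^ (Q * d) *
        ∏ σ : E →+* ℂ, ∑ i, ‖σ (u' i : E)‖) * (Ideal.absNorm I : ℝ) ^ (Q * d) := by ring
  rw [e2] at hfin
  exact le_of_mul_le_mul_right hfin hNI

theorem clC {F Ω : Type} [Field F] [NumberField F] [Field Ω] [CharZero Ω] [Algebra F Ω] (α : Ω)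
    (hα : IsIntegral ℚ α) (d q f : ℕ) (hq : q.Prime) (u u' w : Fin (d + 1) → F) (s : ℤ)
    (𝔠 : Ideal (𝓞 F)) (hcop : IsCoprime (Ideal.span {(q : 𝓞 F)}) 𝔠)
    (hu : ∀ i, IsIntegral ℤ (u i)) (hu' : ∀ i, ∃ z ∈ 𝔠, (z : F) = u' i)
    (hw : ∀ i, IsIntegral ℤ (w i)) (hrel : ∀ i, u' i = s * u i ^ (q ^ f) + q * w i)
    (h0 : ∑ i, algebraMap F Ω (u i) * α ^ (i : ℕ) = 0)
    (hne : ∑ i, algebraMap F Ω (u' i) * α ^ (q ^ f * (i : ℕ)) ≠ 0) :
    (q : ℝ) ^ Module.finrank ℚ F * Ideal.absNorm 𝔠 ≤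
      Real.exp (Module.finrank ℚ F * (q : ℝ) ^ f * d * absLogHeight₁ α) *
        ∏ φ : F →+* ℂ, ∑ i, ‖φ (u' i)‖ := by
  classical
  have hintF : IsIntegral F α := hα.tower_top
  set E := IntermediateField.adjoin F {α} with hE
  have hfd : FiniteDimensional F E := IntermediateField.adjoin.finiteDimensional hintF
  have hfdQ : FiniteDimensional ℚ E := FiniteDimensional.trans ℚ F E
  have hnf : NumberField E := {}
  let α' : E := IntermediateField.AdjoinSimple.gen F α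
  have hα' : ((α' : E) : Ω) = α := rfl
  let lift : ∀ z : F, IsIntegral ℤ z → 𝓞 E := fun z hz =>
    ⟨algebraMap F E z, (hz.map (algebraMap F E).toIntAlgHom)⟩
  have hl : ∀ z hz, ((lift z hz : 𝓞 E) : E) = algebraMap F E z := fun z hz => rfl
  have hui' : ∀ i, IsIntegral ℤ (u' i) := fun i => by
    obtain ⟨z, -, hz⟩ := hu' i
    rw [← hz]
    exact RingOfIntegers.isIntegral_coe z
  have h1 := cl_fieldC E α' d q f hq (fun i => lift (u i) (hu i)) (fun i => lift (u' i) (hui' i))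
    (fun i => lift (w i) (hw i)) s (𝔠.map (algebraMap (𝓞 F) (𝓞 E)))
    (by
      have h3 := hcop.map (Ideal.mapHom (algebraMap (𝓞 F) (𝓞 E)))
      simp only [Ideal.mapHom_apply] at h3
      rwa [Ideal.map_span, Set.image_singleton, map_natCast] at h3)
    (by
      intro i
      obtain ⟨z, hz, hzu⟩ := hu' i
      have h3 : lift (u' i) (hui' i) = algebraMap (𝓞 F) (𝓞 E) z := by
        apply RingOfIntegers.ext
        have h4 := hl (u' i) (hui' i)
        rw [h4, ← hzu]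
        rfl
      rw [h3]
      exact Ideal.mem_map_of_mem _ hz)
    (by
      intro i
      apply RingOfIntegers.ext
      calc ((lift (u' i) (hui' i) : 𝓞 E) : E) = algebraMap F E (u' i) := rfl
        _ = algebraMap F E (s * u i ^ (q ^ f) + q * w i) := by rw [hrel i]
        _ = (s : E) * (algebraMap F E (u i)) ^ (q ^ f) + q * algebraMap F E (w i) := by
          rw [map_add, map_mul, map_mul, map_pow, map_intCast, map_natCast]
        _ = _ := by
          push_cast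
          rfl)
    (by
      apply Subtype.val_injective
      simp only [hl]
      push_cast
      exact h0)
    (by
      intro h
      apply hne
      have h2 := congrArg (fun z : E => (z : Ω)) h
      simp only [hl] at h2
      push_cast at h2
      exact h2)
  set e := Module.finrank F E with he
  have hepos : e ≠ 0 := (Module.finrank_pos (R := F) (M := E)).ne'
  have hdeg : Module.finrank ℚ F * e = Module.finrank ℚ E := Module.finrank_mul_finrank ℚ F E
  have h2 : ∏ σ : E →+* ℂ, ∑ i, ‖σ ((lift (u' i) (hui' i) : 𝓞 E) : E)‖ =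
      (∏ φ : F →+* ℂ, ∑ i, ‖φ (u' i)‖) ^ e :=
    prod_comp_embeddings F E (fun φ => ∑ i, ‖φ (u' i)‖)
  have hH : Height.mulHeight₁ α' = Real.exp (Module.finrank ℚ E * absLogHeight₁ α) := by
    have h3 := absLogHeight_eq E Ω (algebraMap E Ω) α'
    have h4 : (algebraMap E Ω) α' = α := rfl
    rw [h4] at h3
    have hE0 : (Module.finrank ℚ E : ℝ) ≠ 0 := by
      exact_mod_cast (Module.finrank_pos (R := ℚ) (M := E)).ne'
    rw [h3, mul_div_cancel₀ _ hE0, Height.logHeight₁_eq_log_mulHeight₁,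
      Real.exp_log (Height.mulHeight₁_pos _)]
  have hN : (Ideal.absNorm (𝔠.map (algebraMap (𝓞 F) (𝓞 E))) : ℝ) =
      (Ideal.absNorm 𝔠 : ℝ) ^ e := by
    rw [Ideal.absNorm_algebraMap]
    push_cast
    rw [he, ← IsFractionRing.finrank_eq (𝓞 F) F (𝓞 E) E]
  rw [h2, hH, hN, ← hdeg, pow_mul, ← Real.exp_nat_mul] at h1
  have h5 : Real.exp (((q ^ f * d : ℕ) : ℝ) *
      (((Module.finrank ℚ F * e : ℕ) : ℝ) * absLogHeight₁ α)) =
      (Real.exp (Module.finrank ℚ F * (q : ℝ) ^ f * d * absLogHeight₁ α)) ^ e := by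
    rw [← Real.exp_nat_mul]
    congr 1
    push_cast
    ring
  rw [h5, ← mul_pow, ← mul_pow] at h1
  refine le_of_pow_le_pow_left₀ hepos ?_ h1
  refine mul_nonneg (Real.exp_pos _).le (Finset.prod_nonneg fun φ _ => Finset.sum_nonneg fun i _ =>
    norm_nonneg _)

/-- A finite family of elements of `A`, not all zero, has an integral multiple with content prime to `q`. -/
theorem scaleV {A : Type} [Field A] [NumberField A] {κ : Type} [Fintype κ] (V : κ → A)
    (hV : ∃ p, V p ≠ 0) (q : ℕ) (hq : q.Prime) :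
    ∃ (lam : A) (V' : κ → 𝓞 A), lam ≠ 0 ∧ (∀ p, (V' p : A) = lam * V p) ∧
      IsCoprime (Ideal.span {(q : 𝓞 A)}) (Ideal.span (Set.range V')) := by
  classical
  -- integral multiple
  obtain ⟨N, hN⟩ := IsLocalization.exist_integer_multiples_of_finset (nonZeroDivisors (𝓞 A))
    (Finset.univ.image V)
  have hN' : ∀ p, ∃ z : 𝓞 A, (z : A) = (N : 𝓞 A) * V p := by
    intro p
    obtain ⟨z, hz⟩ := hN (V p) (Finset.mem_image_of_mem _ (Finset.mem_univ p))
    exact ⟨z, hz.trans (Algebra.smul_def _ _)⟩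
  choose W hW using hN'
  have hN0 : ((N : 𝓞 A) : A) ≠ 0 := by
    have := nonZeroDivisors.ne_zero N.2
    exact_mod_cast this
  set 𝔞 : Ideal (𝓞 A) := Ideal.span (Set.range W) with h𝔞
  have h𝔞0 : 𝔞 ≠ ⊥ := by
    obtain ⟨p, hp⟩ := hV
    intro h
    have h1 : W p ∈ 𝔞 := Ideal.subset_span ⟨p, rfl⟩
    rw [h, Ideal.mem_bot] at h1
    have h2 := hW p
    rw [h1] at h2
    have h3 : ((N : 𝓞 A) : A) * V p = 0 := by
      rw [← h2]
      simp
    exact (mul_ne_zero hN0 hp) h3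
  have hqne : (Ideal.span {(q : 𝓞 A)}) ≠ ⊥ := by
    rw [Ne, Ideal.span_singleton_eq_bot]
    exact_mod_cast hq.ne_zero
  -- `(a) = 𝔞 𝔟`
  obtain ⟨a, ha⟩ := IsDedekindDomain.exists_sup_span_eq (I := Ideal.span {(q : 𝓞 A)} * 𝔞) (J := 𝔞)
    Ideal.mul_le_right (mul_ne_zero hqne h𝔞0)
  have ha𝔞 : Ideal.span {a} ≤ 𝔞 := by
    rw [← ha]
    exact le_sup_right
  obtain ⟨𝔟, h𝔟⟩ := Ideal.dvd_iff_le.2 ha𝔞
  have hcop : IsCoprime (Ideal.span {(q : 𝓞 A)}) 𝔟 := by
    rw [Ideal.isCoprime_iff_sup_eq]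
    have h1 : 𝔞 * (Ideal.span {(q : 𝓞 A)} ⊔ 𝔟) = 𝔞 * ⊤ := by
      rw [Ideal.mul_sup, ← h𝔟, Ideal.mul_top, mul_comm 𝔞]
      exact ha
    exact mul_left_cancel₀ h𝔞0 h1
  have ha0 : a ≠ 0 := by
    intro h
    rw [h, Ideal.span_singleton_zero, sup_bot_eq] at ha
    have h1 : Ideal.span {(q : 𝓞 A)} * 𝔞 = 1 * 𝔞 := by rw [ha, one_mul]
    have h2 := mul_right_cancel₀ h𝔞0 h1
    have h3 : Ideal.absNorm (Ideal.span {(q : 𝓞 A)}) = 1 := by rw [h2, map_one]
    rw [Ideal.absNorm_span_natCast] at h3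
    have h4 : 0 < Module.finrank ℤ (𝓞 A) := by
      rw [RingOfIntegers.rank]
      exact Module.finrank_pos
    exact (Nat.one_lt_pow h4.ne' hq.one_lt).ne' h3
  -- `b ∈ 𝔟`, prime to `q`
  obtain ⟨x, hx, b, hb, hxb⟩ := Ideal.isCoprime_iff_exists.1 hcop
  have hbq : IsCoprime (Ideal.span {(q : 𝓞 A)}) (Ideal.span {b}) :=
    Ideal.isCoprime_iff_exists.2 ⟨x, hx, b, Ideal.mem_span_singleton_self b, hxb⟩
  have hb0 : b ≠ 0 := by
    rintro rfl
    rw [add_zero] at hxb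
    rw [hxb] at hx
    have h2 : Ideal.span {(q : 𝓞 A)} = 1 := by
      rw [Ideal.one_eq_top, Ideal.eq_top_iff_one]
      exact hx
    have h3 : Ideal.absNorm (Ideal.span {(q : 𝓞 A)}) = 1 := by rw [h2, map_one]
    rw [Ideal.absNorm_span_natCast] at h3
    have h4 : 0 < Module.finrank ℤ (𝓞 A) := by
      rw [RingOfIntegers.rank]
      exact Module.finrank_pos
    exact (Nat.one_lt_pow h4.ne' hq.one_lt).ne' h3
  -- `W p b / a` is integral
  have hdiv : ∀ p, ∃ z : 𝓞 A, a * z = b * W p := by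
    intro p
    have h1 : b * W p ∈ Ideal.span {a} := by
      rw [h𝔟, mul_comm b, ]
      exact Ideal.mul_mem_mul (Ideal.subset_span ⟨p, rfl⟩) hb
    obtain ⟨z, hz⟩ := Ideal.mem_span_singleton.1 h1
    exact ⟨z, hz.symm⟩
  choose V' hV' using hdiv
  have haA : ((a : 𝓞 A) : A) ≠ 0 := by exact_mod_cast ha0
  have hbA : ((b : 𝓞 A) : A) ≠ 0 := by exact_mod_cast hb0
  refine ⟨(b : A) / a * (N : 𝓞 A), V', mul_ne_zero (div_ne_zero hbA haA) hN0, fun p => ?_, ?_⟩
  · have h1 : ((a : 𝓞 A) : A) * V' p = b * W p := by exact_mod_cast congrArg (fun z : 𝓞 A => (z : A)) (hV' p)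
    rw [hW p] at h1
    field_simp
    linear_combination h1
  · -- `(a) 𝔠 = (b) 𝔞`, so `𝔟 𝔠 = (b)`
    set 𝔠 : Ideal (𝓞 A) := Ideal.span (Set.range V') with h𝔠
    have h1 : Ideal.span {a} * 𝔠 = Ideal.span {b} * 𝔞 := by
      rw [h𝔠, h𝔞, Ideal.span_mul_span', Ideal.span_mul_span']
      congr 1
      ext z
      simp only [Set.singleton_mul, Set.mem_image, Set.mem_range, exists_exists_eq_and]
      constructor
      · rintro ⟨p, rfl⟩
        exact ⟨p, (hV' p).symm⟩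
      · rintro ⟨p, rfl⟩
        exact ⟨p, hV' p⟩
    have h2 : 𝔟 * 𝔠 = Ideal.span {b} := by
      rw [h𝔟, mul_assoc, mul_comm (Ideal.span {b})] at h1
      exact mul_left_cancel₀ h𝔞0 h1
    rw [← h2] at hbq
    exact hbq.of_mul_right_right

theorem sup_support {A : Type} [Field A] [NumberField A] {ι : Type*} [Finite ι] (x : ι → A)
    (i0 : ι) (h0 : x i0 ≠ 0) :
    (Function.mulSupport fun v : FinitePlace A => ⨆ i, v (x i)).Finite := by
  have h1 : (⋃ i : {i // x i ≠ 0}, Function.mulSupport fun v : FinitePlace A => v (x i.1)).Finite :=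
    Set.finite_iUnion fun i => FinitePlace.hasFiniteMulSupport i.2
  refine h1.subset fun v hv => ?_
  by_contra hn
  apply hv
  rw [Set.mem_iUnion, not_exists] at hn
  have h2 : ∀ i, x i ≠ 0 → v (x i) = 1 := fun i hi => by
    by_contra h3
    exact hn ⟨i, hi⟩ h3
  have : Nonempty ι := ⟨i0⟩
  refine le_antisymm (ciSup_le fun i => ?_) ?_
  · by_cases hi : x i = 0
    · rw [hi, map_zero]
      exact zero_le_one
    · exact (h2 i hi).le
  · calc (1 : ℝ) = v (x i0) := (h2 i0 h0).symm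
      _ ≤ ⨆ i, v (x i) := le_ciSup (f := fun i => v (x i)) (Set.finite_range fun i => v (x i)).bddAbove i0

/-- The product of the absolute values of a multiple. -/
theorem content_scale {A : Type} [Field A] [NumberField A] {κ : Type} [Fintype κ] (V : κ → A)
    (hV : ∃ p, V p ≠ 0) (lam : A) (hl : lam ≠ 0) :
    (∏ t : A →+* ℂ, ‖t lam‖) * ∏ᶠ v : FinitePlace A, ⨆ p, v (lam * V p) =
      ∏ᶠ v : FinitePlace A, ⨆ p, v (V p) := by
  obtain ⟨p0, hp0⟩ := hV
  have h1 : ∀ v : FinitePlace A, (⨆ p, v (lam * V p)) = v lam * ⨆ p, v (V p) := by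
    intro v
    simp only [map_mul]
    rw [Real.mul_iSup_of_nonneg (apply_nonneg v lam)]
  simp only [h1]
  rw [finprod_mul_distrib (FinitePlace.hasFiniteMulSupport hl) (sup_support V p0 hp0), ← mul_assoc,
    Pool.Agent.H72.BE.prod_formula lam hl, one_mul]

theorem relA {R S : Type} [CommRing R] [CommRing S] (ι : R →+* S) (τ : R →+* R) (q f : ℕ)
    (hq : q.Prime) {κ : Type} [Fintype κ] (V : κ → R) (X X' : κ → S) (s : ℤ)
    (hV : ∀ k, ∃ c : R, τ (V k) = V k ^ (q ^ f) + q * c)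
    (hX : ∀ k, ∃ c : S, X' k = s * X k ^ (q ^ f) + q * c) :
    ∃ w : S, ∑ k, ι (τ (V k)) * X' k = s * (∑ k, ι (V k) * X k) ^ (q ^ f) + q * w := by
  have h1 := frob_sum q hq (⊤ : Ideal S) Finset.univ
    (fun k => ι (V k) * X k) (fun _ _ => Submodule.mem_top) f
  have h2 : (∑ k, ι (V k) * X k) ^ (q ^ f) - ∑ k, (ι (V k) * X k) ^ (q ^ f) ∈
      Ideal.span {(q : S)} := Ideal.mul_le_left h1
  obtain ⟨g, hg⟩ := Ideal.mem_span_singleton.1 h2
  have h3 : ∀ k, ∃ c : S, ι (τ (V k)) * X' k =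
      s * (ι (V k) * X k) ^ (q ^ f) + q * c := by
    intro k
    obtain ⟨c₁, hc₁⟩ := hX k
    obtain ⟨c₂, hc₂⟩ := hV k
    rw [hc₂, hc₁, map_add, map_mul, map_pow, map_natCast]
    exact ⟨ι (V k) ^ (q ^ f) * c₁ + ι c₂ * (s * X k ^ (q ^ f) + q * c₁), by ring⟩
  choose c hc using h3
  refine ⟨∑ k, c k - s * g, ?_⟩
  rw [Finset.sum_congr rfl fun k _ => hc k, Finset.sum_add_distrib, ← Finset.mul_sum,
    ← Finset.mul_sum]
  linear_combination -(s : S) * hg

theorem scale_sum {R S E G : Type} [CommRing R] [CommRing S] [CommRing E] [CommRing G]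
    (ι : R →+* S) (jR : R →+* E) (jS : S →+* G) (k : E →+* G) (hcomm : ∀ a, jS (ι a) = k (jR a))
    {κ : Type} [Fintype κ] (W : κ → R) (V : κ → E) (X : κ → S) (lam : E)
    (hW : ∀ p, jR (W p) = lam * V p) :
    jS (∑ p, ι (W p) * X p) = k lam * ∑ p, k (V p) * jS (X p) := by
  rw [map_sum, Finset.mul_sum]
  refine Finset.sum_congr rfl fun p _ => ?_
  rw [map_mul, hcomm, hW, map_mul, mul_assoc]

theorem clA {A F Ω : Type} [Field A] [NumberField A] [Field F] [NumberField F] [Algebra A F]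
    [Field Ω] [CharZero Ω] [Algebra F Ω] (α : Ω) (hα : IsIntegral ℚ α) (d q f : ℕ) (hq : q.Prime)
    (τ : A →+* A) (hτ : ∀ a : 𝓞 A, ∃ c : 𝓞 A, τ (a : A) = (a : A) ^ (q ^ f) + q * (c : A))
    {κ : Type} [Fintype κ] (V : Fin (d + 1) × κ → A) (X X' : κ → 𝓞 F) (s : ℤ)
    (hX : ∀ k, ∃ c : 𝓞 F, X' k = s * X k ^ (q ^ f) + q * c)
    (h0 : ∑ i : Fin (d + 1), algebraMap F Ω (∑ k, algebraMap A F (V (i, k)) * (X k : F)) *
      α ^ (i : ℕ) = 0)
    (hne : ∑ i : Fin (d + 1), algebraMap F Ω (∑ k, algebraMap A F (τ (V (i, k))) * (X' k : F)) *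
      α ^ (q ^ f * (i : ℕ)) ≠ 0) :
    (q : ℝ) ^ Module.finrank ℚ F ≤
      Real.exp (Module.finrank ℚ F * (q : ℝ) ^ f * d * absLogHeight₁ α) *
        (∏ φ : F →+* ℂ, ∑ i : Fin (d + 1),
          ‖φ (∑ k, algebraMap A F (τ (V (i, k))) * (X' k : F))‖) *
        (∏ᶠ v : FinitePlace A, ⨆ p, v (V p)) ^ Module.finrank A F := by
  classical
  have hV : ∃ p, V p ≠ 0 := by
    by_contra hcon
    push Not at hcon
    apply hne
    refine Finset.sum_eq_zero fun i _ => ?_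
    rw [Finset.sum_eq_zero (fun k _ => by rw [hcon, map_zero, map_zero, zero_mul]), map_zero,
      zero_mul]
  obtain ⟨lam, V', hlam, hV', hcop⟩ := scaleV V hV q hq
  have hτs : Function.Surjective τ := by
    have h1 : Function.Injective (τ.toRatAlgHom.toLinearMap : A →ₗ[ℚ] A) := τ.injective
    exact LinearMap.injective_iff_surjective.1 h1
  -- the automorphism of the integers
  let τE : A ≃+* A := RingEquiv.ofBijective τ ⟨τ.injective, hτs⟩
  let τO : 𝓞 A ≃+* 𝓞 A := RingOfIntegers.mapRingEquiv τE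
  have hτO : ∀ a : 𝓞 A, ((τO a : 𝓞 A) : A) = τ a := fun a => rfl
  set 𝔠₀ : Ideal (𝓞 A) := Ideal.span (Set.range V') with h𝔠₀
  set ι : 𝓞 A →+* 𝓞 F := algebraMap (𝓞 A) (𝓞 F) with hι
  set 𝔠 : Ideal (𝓞 F) := (𝔠₀.map (τO : 𝓞 A →+* 𝓞 A)).map ι with h𝔠
  have hN1 : Ideal.absNorm (𝔠₀.map (τO : 𝓞 A →+* 𝓞 A)) = Ideal.absNorm 𝔠₀ :=
    bogCyc_absNorm_map A τO 𝔠₀
  have hN2 : (Ideal.absNorm 𝔠 : ℝ) = (Ideal.absNorm 𝔠₀ : ℝ) ^ Module.finrank A F := by
    rw [h𝔠, hι, Ideal.absNorm_algebraMap, hN1]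
    push_cast
    rw [← IsFractionRing.finrank_eq (𝓞 A) A (𝓞 F) F]
  have hcop2 : IsCoprime (Ideal.span {(q : 𝓞 F)}) 𝔠 := by
    have h1 := hcop.map (Ideal.mapHom (τO : 𝓞 A →+* 𝓞 A))
    simp only [Ideal.mapHom_apply] at h1
    rw [Ideal.map_span, Set.image_singleton, map_natCast] at h1
    have h2 := h1.map (Ideal.mapHom ι)
    simp only [Ideal.mapHom_apply] at h2
    rwa [Ideal.map_span, Set.image_singleton, map_natCast] at h2
  -- the new elements
  set u : Fin (d + 1) → 𝓞 F := fun i => ∑ k, ι (V' (i, k)) * X k with hu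
  set u' : Fin (d + 1) → 𝓞 F := fun i => ∑ k, ι (τO (V' (i, k))) * X' k with hu'
  have hu1 : ∀ i, (u i : F) = algebraMap A F lam *
      ∑ k, algebraMap A F (V (i, k)) * (X k : F) := fun i =>
    scale_sum ι (algebraMap (𝓞 A) A) (algebraMap (𝓞 F) F) (algebraMap A F) (fun a => rfl)
      (fun k => V' (i, k)) (fun k => V (i, k)) X lam (fun k => hV' (i, k))
  have hu2 : ∀ i, (u' i : F) = algebraMap A F (τ lam) *
      ∑ k, algebraMap A F (τ (V (i, k))) * (X' k : F) := fun i =>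
    scale_sum ι (algebraMap (𝓞 A) A) (algebraMap (𝓞 F) F) (algebraMap A F) (fun a => rfl)
      (fun k => τO (V' (i, k))) (fun k => τ (V (i, k))) X' (τ lam) (fun k => by
        have h1 : algebraMap (𝓞 A) A (τO (V' (i, k))) = τ (V' (i, k) : A) := rfl
        rw [h1, hV' (i, k), map_mul])
  have hrel : ∀ i, ∃ w : 𝓞 F, u' i = s * u i ^ (q ^ f) + q * w := fun i =>
    relA ι (τO : 𝓞 A →+* 𝓞 A) q f hq (fun k => V' (i, k)) X X' s (fun k => by
      obtain ⟨c₂, hc₂⟩ := hτ (V' (i, k))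
      refine ⟨c₂, ?_⟩
      apply RingOfIntegers.ext
      have h1 : (((τO : 𝓞 A →+* 𝓞 A) (V' (i, k)) : 𝓞 A) : A) = τ (V' (i, k) : A) := rfl
      rw [h1, hc₂]
      push_cast
      rfl) hX
  choose w hw using hrel
  have hcl := clC (F := F) (Ω := Ω) α hα d q f hq (fun i => (u i : F)) (fun i => (u' i : F))
    (fun i => (w i : F)) s 𝔠 hcop2 (fun i => RingOfIntegers.isIntegral_coe _)
    (fun i => ⟨u' i, by
      rw [hu', h𝔠]
      refine Ideal.sum_mem _ fun k _ => Ideal.mul_mem_right _ _ (Ideal.mem_map_of_mem _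
        (Ideal.mem_map_of_mem _ (Ideal.subset_span ⟨(i, k), rfl⟩))), rfl⟩)
    (fun i => RingOfIntegers.isIntegral_coe _)
    (fun i => by
      have h1 := congrArg (algebraMap (𝓞 F) F) (hw i)
      rw [map_add, map_mul, map_mul, map_pow, map_intCast, map_natCast] at h1
      exact h1)
    (by
      have h1 : ∀ i : Fin (d + 1), algebraMap F Ω (u i : F) * α ^ (i : ℕ) =
          algebraMap F Ω (algebraMap A F lam) *
            (algebraMap F Ω (∑ k, algebraMap A F (V (i, k)) * (X k : F)) * α ^ (i : ℕ)) := by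
        intro i
        rw [hu1, map_mul, mul_assoc]
      rw [Finset.sum_congr rfl fun i _ => h1 i, ← Finset.mul_sum, h0, mul_zero])
    (by
      have h1 : ∀ i : Fin (d + 1), algebraMap F Ω (u' i : F) * α ^ (q ^ f * (i : ℕ)) =
          algebraMap F Ω (algebraMap A F (τ lam)) *
            (algebraMap F Ω (∑ k, algebraMap A F (τ (V (i, k))) * (X' k : F)) *
              α ^ (q ^ f * (i : ℕ))) := by
        intro i
        rw [hu2, map_mul, mul_assoc]
      rw [Finset.sum_congr rfl fun i _ => h1 i, ← Finset.mul_sum]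
      refine mul_ne_zero ?_ hne
      rw [Ne, map_eq_zero, map_eq_zero, map_eq_zero]
      exact hlam)
  -- the products
  set P : ℝ := ∏ φ : F →+* ℂ, ∑ i : Fin (d + 1),
    ‖φ (∑ k, algebraMap A F (τ (V (i, k))) * (X' k : F))‖ with hP
  set L : ℝ := ∏ t : A →+* ℂ, ‖t lam‖ with hL
  have hLpos : 0 < L := Finset.prod_pos fun t _ => by
    rw [norm_pos_iff, Ne, map_eq_zero]
    exact hlam
  have hprod : ∏ φ : F →+* ℂ, ∑ i : Fin (d + 1), ‖φ (u' i : F)‖ =
      L ^ Module.finrank A F * P := by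
    have h1 : ∀ φ : F →+* ℂ, ∑ i : Fin (d + 1), ‖φ (u' i : F)‖ =
        ‖(φ.comp (algebraMap A F)) (τ lam)‖ *
          ∑ i : Fin (d + 1), ‖φ (∑ k, algebraMap A F (τ (V (i, k))) * (X' k : F))‖ := by
      intro φ
      rw [Finset.mul_sum]
      refine Finset.sum_congr rfl fun i _ => ?_
      rw [hu2, map_mul, norm_mul]
      rfl
    rw [Finset.prod_congr rfl fun φ _ => h1 φ, Finset.prod_mul_distrib,
      prod_comp_embeddings A F (fun t => ‖t (τ lam)‖)]
    congr 2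
    rw [hL]
    have hinj : Function.Injective (fun t : A →+* ℂ => t.comp τ) := by
      intro t t' h
      ext a
      obtain ⟨a', rfl⟩ := hτs a
      exact congrArg (fun g : A →+* ℂ => g a') h
    exact (Fintype.prod_bijective (fun t : A →+* ℂ => t.comp τ)
      (Finite.injective_iff_bijective.1 hinj) _ _ (fun t => rfl))
  rw [hprod, hN2] at hcl
  -- the content
  have hne0 : V' ≠ 0 := by
    obtain ⟨p, hp⟩ := hV
    intro h
    have h1 := hV' p
    rw [h] at h1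
    exact mul_ne_zero hlam hp (by rw [← h1]; simp)
  have hc1 := NumberField.absNorm_mul_finprod_finitePlace_eq_one hne0
  have hc2 := content_scale V hV lam hlam
  have hc3 : (∏ᶠ v : FinitePlace A, ⨆ p, v (lam * V p)) =
      ∏ᶠ v : FinitePlace A, ⨆ p, v (V' p : A) := by
    simp only [hV']
  rw [hc3] at hc2
  set c' : ℝ := ∏ᶠ v : FinitePlace A, ⨆ p, v (V' p : A) with hc'
  set e := Module.finrank A F with he
  rw [← hc2, mul_pow]
  have hNc : (Ideal.absNorm 𝔠₀ : ℝ) * c' = 1 := hc1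
  have hNpos : (0 : ℝ) < Ideal.absNorm 𝔠₀ := by
    rcases (Nat.cast_nonneg (α := ℝ) (Ideal.absNorm 𝔠₀)).lt_or_eq with h | h
    · exact h
    · rw [← h, zero_mul] at hNc
      exact absurd hNc zero_ne_one
  have hNe : (0 : ℝ) < (Ideal.absNorm 𝔠₀ : ℝ) ^ e := pow_pos hNpos e
  have hNce : (Ideal.absNorm 𝔠₀ : ℝ) ^ e * c' ^ e = 1 := by rw [← mul_pow, hNc, one_pow]
  refine le_of_mul_le_mul_right ?_ hNe
  refine hcl.trans (le_of_eq ?_)
  calc _ = Real.exp (Module.finrank ℚ F * (q : ℝ) ^ f * d * absLogHeight₁ α) * P * L ^ e *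
        ((Ideal.absNorm 𝔠₀ : ℝ) ^ e * c' ^ e) := by rw [hNce]; ring
    _ = _ := by ring

end Pool.Agent.H69.BE
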