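import Pool.Agent.H69.BE.ClA

/-!
# THEOREM VR+ (MP_187c26_nt): Frobenius and product formula for representations

`ct_box`: the content as a product of finite maxima. `aeval_box`: the value of a polynomial as a sum over a box. `clP`: the lemma
`clA` for `u_i = ∑ Y_j v_ij(z)`, `u'_i = ∑ Y'_j v_ij^τ(z^Q)`.
-/

set_option autoImplicit false

open NumberField

namespace Pool.Agent.H69.BE

open Pool.Agent.H72.BE

variable {r : ℕ}

/-- The exponent of an element of a box. -/
noncomputable def fs {n : Fin r → ℕ} (e : Box n) : Fin r →₀ ℕ := Finsupp.equivFunOnFinite.symm (bv e)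

theorem fs_apply {n : Fin r → ℕ} (e : Box n) (i : Fin r) : fs e i = (e i : ℕ) := rfl

theorem fs_injective {n : Fin r → ℕ} : Function.Injective (fs : Box n → Fin r →₀ ℕ) := by
  intro e e' h
  funext i
  apply Fin.ext
  have h1 := DFunLike.congr_fun h i
  rwa [fs_apply, fs_apply] at h1

theorem exists_fs {R : Type} [CommRing R] (p : MvPolynomial (Fin r) R) (n : Fin r → ℕ)
    (hn : ∀ j, p.degreeOf j < n j) (m : Fin r →₀ ℕ) (hm : p.coeff m ≠ 0) : ∃ e : Box n, fs e = m := by
  have h1 : ∀ i, m i < n i := fun i =>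
    lt_of_le_of_lt (MvPolynomial.le_degreeOf_of_mem_support i (MvPolynomial.mem_support_iff.2 hm))
      (hn i)
  refine ⟨fun i => ⟨m i, h1 i⟩, ?_⟩
  ext i
  rfl

theorem ct_box {A : Type} [Field A] [NumberField A] {ι : Type} [Fintype ι]
    (w : ι → MvPolynomial (Fin r) A) (n : Fin r → ℕ) (hn : ∀ i j, (w i).degreeOf j < n j) :
    ct w = ∏ᶠ v : FinitePlace A, ⨆ p : ι × Box n, v ((w p.1).coeff (fs p.2)) := by
  unfold ct
  congr 1
  funext v
  have hbd : BddAbove (Set.range fun p : ι × (Fin r →₀ ℕ) => v ((w p.1).coeff p.2)) := by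
    have hfin : (Set.range fun p : ι × (Fin r →₀ ℕ) => v ((w p.1).coeff p.2)) ⊆
        insert 0 (Set.range fun p : ι × Box n => v ((w p.1).coeff (fs p.2))) := by
      rintro _ ⟨⟨i, m⟩, rfl⟩
      by_cases hm : (w i).coeff m = 0
      · left
        simp only [hm, map_zero]
      · right
        obtain ⟨e, he⟩ := exists_fs (w i) n (hn i) m hm
        exact ⟨(i, e), by simp only [he]⟩
    exact (((Set.finite_range _).insert _).subset hfin).bddAbove
  rcases isEmpty_or_nonempty ι with hι | hι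
  · rw [Real.iSup_of_isEmpty, Real.iSup_of_isEmpty]
  · obtain ⟨i0⟩ := hι
    have hb : ∀ j, 0 < n j := fun j => lt_of_le_of_lt (Nat.zero_le _) (hn i0 j)
    have : Nonempty (ι × Box n) := ⟨(i0, fun j => ⟨0, hb j⟩)⟩
    have : Nonempty (ι × (Fin r →₀ ℕ)) := ⟨(i0, 0)⟩
    apply le_antisymm
    · refine ciSup_le fun p => ?_
      obtain ⟨i, m⟩ := p
      by_cases hm : (w i).coeff m = 0
      · simp only [hm, map_zero]
        exact Real.iSup_nonneg fun p => apply_nonneg v _
      · obtain ⟨e, he⟩ := exists_fs (w i) n (hn i) m hm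
        have h1 := le_ciSup (f := fun p : ι × Box n => v ((w p.1).coeff (fs p.2)))
          (Set.finite_range _).bddAbove (i, e)
        simp only [he] at h1
        exact h1
    · refine ciSup_le fun p => ?_
      exact le_ciSup (f := fun p : ι × (Fin r →₀ ℕ) => v ((w p.1).coeff p.2)) hbd (p.1, fs p.2)

theorem aeval_box {R S : Type} [CommRing R] [CommRing S] [Algebra R S] (p : MvPolynomial (Fin r) R)
    (n : Fin r → ℕ) (hn : ∀ j, p.degreeOf j < n j) (z : Fin r → S) :
    MvPolynomial.aeval z p = ∑ e : Box n, algebraMap R S (p.coeff (fs e)) * mon z (bv e) := by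
  classical
  rw [MvPolynomial.aeval_def, MvPolynomial.eval₂_eq']
  have h1 : ∀ m : Fin r →₀ ℕ, ∏ i, z i ^ m i = mon z m := fun m => rfl
  have h2 : p.support ⊆ Finset.univ.image (fs : Box n → Fin r →₀ ℕ) := by
    intro m hm
    obtain ⟨e, he⟩ := exists_fs p n hn m (MvPolynomial.mem_support_iff.1 hm)
    exact Finset.mem_image.2 ⟨e, Finset.mem_univ _, he⟩
  rw [Finset.sum_subset h2, Finset.sum_image (fun a _ b _ h => fs_injective h)]
  · rfl
  · intro m _ hm
    rw [MvPolynomial.notMem_support_iff.1 hm, map_zero, zero_mul]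

theorem mon_mul {F : Type} [CommMonoid F] (x : Fin r → F) (a c : Fin r → ℕ) :
    mon x (a + c) = mon x a * mon x c := by
  unfold mon
  rw [← Finset.prod_mul_distrib]
  exact Finset.prod_congr rfl fun i _ => by rw [Pi.add_apply, pow_add]

theorem mon_pow {F : Type} [CommMonoid F] (x : Fin r → F) (a : Fin r → ℕ) (Q : ℕ) :
    mon (fun i => x i ^ Q) a = mon x a ^ Q := by
  unfold mon
  rw [← Finset.prod_pow]
  exact Finset.prod_congr rfl fun i _ => by rw [← pow_mul, ← pow_mul, mul_comm]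

theorem mon_map {F G : Type} [CommSemiring F] [CommSemiring G] (φ : F →+* G) (x : Fin r → F)
    (a : Fin r → ℕ) : φ (mon x a) = mon (fun i => φ (x i)) a := by
  unfold mon
  rw [map_prod]
  exact Finset.prod_congr rfl fun i _ => map_pow _ _ _

theorem clP {A F Ω : Type} [Field A] [NumberField A] [Field F] [NumberField F] [Algebra A F]
    [Field Ω] [CharZero Ω] [Algebra F Ω] (α : Ω) (hα : IsIntegral ℚ α) (d R q f : ℕ) (hq : q.Prime)
    (τ : A →+* A) (hτ : ∀ a : 𝓞 A, ∃ c : 𝓞 A, τ (a : A) = (a : A) ^ (q ^ f) + q * (c : A))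
    (v : Fin (d + 1) → Fin (R + 1) → MvPolynomial (Fin r) A) (z : Fin r → 𝓞 F)
    (Y Y' : Fin (R + 1) → 𝓞 F) (s : ℤ)
    (hY : ∀ j, ∃ c : 𝓞 F, Y' j = s * Y j ^ (q ^ f) + q * c)
    (h0 : ∑ i : Fin (d + 1), algebraMap F Ω (∑ j, (Y j : F) *
      MvPolynomial.aeval (fun k => (z k : F)) (v i j)) * α ^ (i : ℕ) = 0)
    (hne : ∑ i : Fin (d + 1), algebraMap F Ω (∑ j, (Y' j : F) *
      MvPolynomial.aeval (fun k => (z k : F) ^ (q ^ f)) (MvPolynomial.map τ (v i j))) *
      α ^ (q ^ f * (i : ℕ)) ≠ 0) :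
    (q : ℝ) ^ Module.finrank ℚ F ≤
      Real.exp (Module.finrank ℚ F * (q : ℝ) ^ f * d * absLogHeight₁ α) *
        (∏ φ : F →+* ℂ, ∑ i : Fin (d + 1), ‖φ (∑ j, (Y' j : F) *
          MvPolynomial.aeval (fun k => (z k : F) ^ (q ^ f)) (MvPolynomial.map τ (v i j)))‖) *
        ctv v ^ Module.finrank A F := by
  classical
  obtain ⟨n, hn⟩ : ∃ n : Fin r → ℕ, ∀ i j k, (v i j).degreeOf k < n k := by
    refine ⟨fun k => (Finset.univ.sup fun p : Fin (d + 1) × Fin (R + 1) =>
      (v p.1 p.2).degreeOf k) + 1, fun i j k => Nat.lt_succ_of_le ?_⟩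
    exact Finset.le_sup (f := fun p : Fin (d + 1) × Fin (R + 1) => (v p.1 p.2).degreeOf k)
      (Finset.mem_univ (i, j))
  have hn' : ∀ i j k, (MvPolynomial.map τ (v i j)).degreeOf k < n k := fun i j k =>
    lt_of_le_of_lt (by
      rw [MvPolynomial.degreeOf_le_iff]
      intro m hm
      exact MvPolynomial.le_degreeOf_of_mem_support k (MvPolynomial.support_map_subset _ _ hm))
      (hn i j k)
  set V : Fin (d + 1) × (Fin (R + 1) × Box n) → A := fun p => (v p.1 p.2.1).coeff (fs p.2.2) with hV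
  set X : Fin (R + 1) × Box n → 𝓞 F := fun p => Y p.1 * mon z (bv p.2) with hX
  set X' : Fin (R + 1) × Box n → 𝓞 F := fun p => Y' p.1 * mon z (bv p.2) ^ (q ^ f) with hX'
  have hmonF : ∀ e : Box n, ((mon z (bv e) : 𝓞 F) : F) = mon (fun k => (z k : F)) (bv e) := fun e =>
    mon_map (algebraMap (𝓞 F) F) z (bv e)
  have hu : ∀ i, ∑ k, algebraMap A F (V (i, k)) * (X k : F) =
      ∑ j, (Y j : F) * MvPolynomial.aeval (fun k => (z k : F)) (v i j) := by
    intro i
    rw [Fintype.sum_prod_type]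
    refine Finset.sum_congr rfl fun j _ => ?_
    rw [aeval_box (v i j) n (hn i j), Finset.mul_sum]
    refine Finset.sum_congr rfl fun e _ => ?_
    simp only [hV, hX]
    have h1 : ((Y j * mon z (bv e) : 𝓞 F) : F) = (Y j : F) * ((mon z (bv e) : 𝓞 F) : F) :=
      map_mul (algebraMap (𝓞 F) F) _ _
    rw [h1, hmonF]
    ring
  have hu' : ∀ i, ∑ k, algebraMap A F (τ (V (i, k))) * (X' k : F) =
      ∑ j, (Y' j : F) * MvPolynomial.aeval (fun k => (z k : F) ^ (q ^ f))
        (MvPolynomial.map τ (v i j)) := by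
    intro i
    rw [Fintype.sum_prod_type]
    refine Finset.sum_congr rfl fun j _ => ?_
    rw [aeval_box (MvPolynomial.map τ (v i j)) n (hn' i j), Finset.mul_sum]
    refine Finset.sum_congr rfl fun e _ => ?_
    simp only [hV, hX', MvPolynomial.coeff_map]
    have h1 : ((Y' j * mon z (bv e) ^ (q ^ f) : 𝓞 F) : F) =
        (Y' j : F) * ((mon z (bv e) : 𝓞 F) : F) ^ (q ^ f) := by
      have h2 := map_mul (algebraMap (𝓞 F) F) (Y' j) (mon z (bv e) ^ (q ^ f))
      rw [map_pow] at h2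
      exact h2
    rw [h1, hmonF, mon_pow]
    ring
  have h := clA (F := F) (Ω := Ω) α hα d q f hq τ hτ V X X' s (by
      rintro ⟨j, e⟩
      obtain ⟨c, hc⟩ := hY j
      refine ⟨c * mon z (bv e) ^ (q ^ f), ?_⟩
      simp only [hX, hX']
      rw [hc]
      ring)
    (by
      rw [← h0]
      refine Finset.sum_congr rfl fun i _ => ?_
      rw [hu])
    (by
      intro h1
      apply hne
      rw [← h1]
      refine Finset.sum_congr rfl fun i _ => ?_
      rw [hu'])
  simp only [hu'] at h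
  have hct : ctv v = ∏ᶠ w : FinitePlace A, ⨆ p, w (V p) := by
    unfold ctv
    rw [ct_box _ n (fun p j => hn p.1 p.2 j)]
    congr 1
    funext w
    exact Equiv.iSup_congr (Equiv.prodAssoc _ _ _) (fun p => rfl)
  rw [hct]
  exact h

end Pool.Agent.H69.BE
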