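import Mathlib

/-!
# THEOREM VR+ (MP_187c26_nt), chapter S6: a power of a Frobenius automorphism

Text: `k` a Galois number field, `P` a prime above `q`, `s` a Frobenius at `P`, `τ = s ^ f`, `Q = q ^ f`. For an `n`-th root of unity
`z` (`q ∤ n`): `τ z = z ^ Q`. For `z ^ W = c`, `q ∤ c W`, `W (q - 1) ∣ Q - 1`: `τ z ≡ z ^ Q = z c ^ ((Q - 1) / W) ≡ z`, so the `W`-th root of unity
`τ z / z` is congruent to `1`, so it is `1`.
-/

set_option autoImplicit false

open NumberField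

namespace Pool.Agent.H69.BE

theorem one_of_mem {R : Type} [CommRing R] [IsDomain R] (P : Ideal R) (N : ℕ) (hN : (N : R) ∉ P)
    (u : R) (hu : u ^ N = 1) (h : u - 1 ∈ P) : u = 1 := by
  by_contra hne
  have h1 : (∑ j ∈ Finset.range N, u ^ j) * (u - 1) = 0 := by
    rw [geom_sum_mul, hu, sub_self]
  have h2 : ∑ j ∈ Finset.range N, u ^ j = 0 :=
    (mul_eq_zero.1 h1).resolve_right (sub_ne_zero.2 hne)
  apply hN
  have h3 : ∑ j ∈ Finset.range N, (u ^ j - 1) ∈ P := by
    refine Ideal.sum_mem _ fun j _ => ?_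
    rw [← mul_geom_sum]
    exact Ideal.mul_mem_right _ _ h
  rw [Finset.sum_sub_distrib, h2, Finset.sum_const, Finset.card_range, nsmul_eq_mul, mul_one,
    zero_sub] at h3
  exact (neg_mem_iff.1 h3)

theorem fermat_pow (q c t : ℕ) (hq : q.Prime) (hc : ¬ q ∣ c) : (q : ℤ) ∣ (c : ℤ) ^ ((q - 1) * t) - 1 := by
  have : Fact q.Prime := ⟨hq⟩
  rw [← ZMod.intCast_zmod_eq_zero_iff_dvd]
  push_cast
  have h1 : (c : ZMod q) ≠ 0 := by
    rwa [Ne, ZMod.natCast_eq_zero_iff]
  rw [pow_mul, ZMod.pow_card_sub_one_eq_one h1, one_pow, sub_self]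

/-- The homomorphism from automorphisms to endomorphisms. -/
def toRH (k : Type) [Field k] [Algebra ℚ k] : (k ≃ₐ[ℚ] k) →* (k →+* k) where
  toFun e := (e : k →+* k)
  map_one' := rfl
  map_mul' _ _ := rfl

theorem exists_tau (k : Type) [Field k] [NumberField k] [IsGalois ℚ k] (n W q f : ℕ)
    (hq : q.Prime) (hqn : ¬ q ∣ n) (hqW : ¬ q ∣ W)
    (hQ : W * (q - 1) ∣ q ^ f - 1) :
    ∃ τ : k →+* k, (∃ n₀ : ℕ, τ ^ (n₀ + 1) = 1) ∧ (∀ z : k, z ^ n = 1 → τ z = z ^ (q ^ f)) ∧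
      ∀ (c : ℕ) (z : k), ¬ q ∣ c → z ^ W = c → τ z = z := by
  classical
  have hq0 : (q : 𝓞 k) ≠ 0 := by exact_mod_cast hq.ne_zero
  -- a prime above `q`
  obtain ⟨P, hPm, hqP⟩ : ∃ P : Ideal (𝓞 k), P.IsMaximal ∧ (q : 𝓞 k) ∈ P := by
    have h1 : Ideal.span {(q : 𝓞 k)} ≠ ⊤ := by
      intro h
      have h3 : Ideal.absNorm (Ideal.span {(q : 𝓞 k)}) = 1 := by
        rw [h, Ideal.absNorm_top]
      rw [Ideal.absNorm_span_natCast] at h3
      have h4 : 0 < Module.finrank ℤ (𝓞 k) := by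
        rw [RingOfIntegers.rank]
        exact Module.finrank_pos
      exact (Nat.one_lt_pow h4.ne' hq.one_lt).ne' h3
    obtain ⟨P, hP, hle⟩ := Ideal.exists_le_maximal _ h1
    exact ⟨P, hP, hle (Ideal.mem_span_singleton_self _)⟩
  have hPp : P.IsPrime := hPm.isPrime
  have hP0 : P ≠ ⊥ := fun h => hq0 (by rw [h] at hqP; exact hqP)
  have hfin : Finite (𝓞 k ⧸ P) := Ideal.finiteQuotientOfFreeOfNeBot P hP0
  have hnot : ∀ N : ℕ, ¬ q ∣ N → (N : 𝓞 k) ∉ P := by
    intro N hN hmem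
    obtain ⟨a, b, hab⟩ : ∃ a b : 𝓞 k, a * N + b * q = 1 := by
      have h1 : IsCoprime (N : ℤ) (q : ℤ) :=
        Nat.isCoprime_iff_coprime.2 ((Nat.Prime.coprime_iff_not_dvd hq).2 hN).symm
      obtain ⟨a, b, h2⟩ := h1
      exact ⟨a, b, by exact_mod_cast congrArg (fun t : ℤ => (t : 𝓞 k)) h2⟩
    apply hPp.ne_top
    rw [Ideal.eq_top_iff_one, ← hab]
    exact add_mem (Ideal.mul_mem_left _ _ hmem) (Ideal.mul_mem_left _ _ hqP)
  obtain ⟨σ, hσ⟩ := IsArithFrobAt.exists_of_isInvariant ℤ (k ≃ₐ[ℚ] k) P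
  have hunder : P.under ℤ = Ideal.span {(q : ℤ)} := by
    have h1 : Ideal.span {(q : ℤ)} ≤ P.under ℤ := by
      rw [Ideal.span_singleton_le_iff_mem, Ideal.mem_comap, eq_intCast, Int.cast_natCast]
      exact hqP
    have h2 : (Ideal.span {(q : ℤ)}).IsMaximal :=
      PrincipalIdealRing.isMaximal_of_irreducible (Nat.prime_iff_prime_int.1 hq).irreducible
    exact (h2.eq_of_le (Ideal.IsPrime.ne_top inferInstance) h1).symm
  have hcard : Nat.card (ℤ ⧸ P.under ℤ) = q := by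
    rw [hunder]
    have h1 := Int.quotientSpanNatEquivZMod q
    rw [Nat.card_congr h1.toEquiv, Nat.card_zmod]
  have hσ1 : ∀ x : 𝓞 k, σ • x - x ^ q ∈ P := by
    intro x
    have h1 := hσ x
    rw [hcard] at h1
    exact h1
  have hσpow : ∀ (j : ℕ) (x : 𝓞 k), (σ ^ j) • x - x ^ (q ^ j) ∈ P := by
    intro j
    induction j with
    | zero => intro x; simp
    | succ j ih =>
      intro x
      have h1 := hσ1 ((σ ^ j) • x)
      have h2 : ((σ ^ j) • x) ^ q - (x ^ (q ^ j)) ^ q ∈ P := by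
        obtain ⟨g, hg⟩ := sub_dvd_pow_sub_pow ((σ ^ j) • x) (x ^ (q ^ j)) q
        rw [hg]
        exact Ideal.mul_mem_right _ _ (ih x)
      have h3 := add_mem h1 h2
      rw [sub_add_sub_cancel, ← pow_mul, ← pow_succ, smul_smul, ← pow_succ'] at h3
      exact h3
  set τ : k →+* k := toRH k (σ ^ f) with hτ
  have hτO : ∀ x : 𝓞 k, (((σ ^ f) • x : 𝓞 k) : k) = τ (x : k) := fun x => rfl
  refine ⟨τ, ?_, ?_, ?_⟩
  · have h1 : 0 < orderOf (σ ^ f) := orderOf_pos _
    refine ⟨orderOf (σ ^ f) - 1, ?_⟩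
    rw [Nat.sub_add_cancel h1, hτ, ← map_pow, pow_orderOf_eq_one, map_one]
  · intro z hz
    have hn : n ≠ 0 := by
      rintro rfl
      exact hqn (dvd_zero q)
    have hzi : IsIntegral ℤ z := IsIntegral.of_pow (Nat.pos_of_ne_zero hn) (by
      rw [hz]
      exact isIntegral_one)
    let zO : 𝓞 k := ⟨z, hzi⟩
    have hzO : zO ^ n = 1 := by
      apply RingOfIntegers.ext
      exact hz
    have h1 : σ • zO = zO ^ q := by
      have h2 := hσ.apply_of_pow_eq_one hzO (hnot n hqn)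
      rw [hcard] at h2
      exact h2
    have h2 : ∀ j : ℕ, (σ ^ j) • zO = zO ^ (q ^ j) := by
      intro j
      induction j with
      | zero => simp
      | succ j ih =>
        rw [pow_succ', mul_smul, ih, smul_pow', h1, ← pow_mul, ← pow_succ']
    have h3 := congrArg (fun x : 𝓞 k => (x : k)) (h2 f)
    exact h3
  · intro c z hc hz
    have hW0 : W ≠ 0 := by
      rintro rfl
      exact hqW (dvd_zero q)
    have hc0 : (c : k) ≠ 0 := by
      have : c ≠ 0 := by
        rintro rfl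
        exact hc (dvd_zero q)
      exact_mod_cast this
    have hz0 : z ≠ 0 := by
      rintro rfl
      rw [zero_pow hW0] at hz
      exact hc0 hz.symm
    have hzi : IsIntegral ℤ z := IsIntegral.of_pow (Nat.pos_of_ne_zero hW0) (by
      rw [hz]
      exact isIntegral_natCast _)
    let zO : 𝓞 k := ⟨z, hzi⟩
    have hzO : zO ^ W = (c : 𝓞 k) := by
      apply RingOfIntegers.ext
      have h1 : ((zO ^ W : 𝓞 k) : k) = z ^ W := rfl
      rw [h1, hz]
      exact (map_natCast (algebraMap (𝓞 k) k) c).symm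
    set u : k := τ z / z with hu
    have huW : u ^ W = 1 := by
      rw [hu, div_pow, ← map_pow, hz, map_natCast, div_self hc0]
    have hui : IsIntegral ℤ u := IsIntegral.of_pow (Nat.pos_of_ne_zero hW0) (by
      rw [huW]
      exact isIntegral_one)
    let uO : 𝓞 k := ⟨u, hui⟩
    have huO : uO ^ W = 1 := by
      apply RingOfIntegers.ext
      exact huW
    have hzu : zO * (uO - 1) = (σ ^ f) • zO - zO := by
      apply RingOfIntegers.ext
      have h1 : ((zO * (uO - 1) : 𝓞 k) : k) = z * (u - 1) := rfl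
      have h2 : (((σ ^ f) • zO - zO : 𝓞 k) : k) = τ z - z := rfl
      rw [h1, h2, hu]
      field_simp
    have h3 : (σ ^ f) • zO - zO ∈ P := by
      have h4 := hσpow f zO
      obtain ⟨t, ht⟩ := hQ
      have h5 : zO ^ (q ^ f) - zO = zO * ((c : 𝓞 k) ^ ((q - 1) * t) - 1) := by
        have h6 : q ^ f = 1 + W * ((q - 1) * t) := by
          have h7 : 1 ≤ q ^ f := Nat.one_le_pow _ _ hq.pos
          rw [mul_assoc] at ht
          omega
        rw [h6, pow_add, pow_one, pow_mul, hzO]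
        ring
      have h6 : (c : 𝓞 k) ^ ((q - 1) * t) - 1 ∈ P := by
        obtain ⟨g, hg⟩ := fermat_pow q c t hq hc
        have h7 : (c : 𝓞 k) ^ ((q - 1) * t) - 1 = (q : 𝓞 k) * (g : 𝓞 k) := by
          exact_mod_cast congrArg (fun s : ℤ => (s : 𝓞 k)) hg
        rw [h7]
        exact Ideal.mul_mem_right _ _ hqP
      have h7 : zO ^ (q ^ f) - zO ∈ P := by
        rw [h5]
        exact Ideal.mul_mem_left _ _ h6
      have h8 := add_mem h4 h7
      rwa [sub_add_sub_cancel] at h8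
    rw [← hzu] at h3
    have h4 : zO ∉ P := by
      intro h5
      apply hnot c hc
      rw [← hzO]
      exact Ideal.pow_mem_of_mem P h5 W (Nat.pos_of_ne_zero hW0)
    have h5 : uO - 1 ∈ P := (hPp.mem_or_mem h3).resolve_left h4
    have h6 := one_of_mem P W (hnot W hqW) uO huO h5
    have h7 : u = 1 := congrArg (fun x : 𝓞 k => (x : k)) h6
    rw [hu, div_eq_one_iff_eq hz0] at h7
    exact h7

end Pool.Agent.H69.BE
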