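import Pool.Agent.H69.BE.KField
import Pool.Agent.H69.BE.FrobK
import Pool.Agent.H69.BE.ClP
import Pool.Agent.H72.BE.Cla
import Pool.Agent.H69.BD.Cng

/-!
# THEOREM VR+ (MP_187c26_nt), chapter S6: the coefficient field after the base change

Text: `A` is generated by the `n`-th roots of unity, `σ` a Frobenius lift at `q ∤ n`, `τ = σ ^ f`: `τ a ≡ a ^ Q`, so `τ ζ = ζ ^ Q` for `ζ ^ n = 1`.
`k` is the field of `exists_k`, `τ_k` the automorphism of `exists_tau`: `A ⊂ k`, `τ_k = τ` on `A`, `τ_k β_i = β_i`. By `tower` a polynomial over `k` of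
degrees `< m_i / W ^ (r + 1)` which vanishes at `y` is `0`, as `[k : ℚ] ∏ m_i ≤ W ^ (r + 1) [F : ℚ]`.
-/

set_option autoImplicit false

open NumberField Module

namespace Pool.Agent.H69.BE

open Pool.Agent.H72.BE
open Pool.Agent.H69.BD (Cgr)

theorem span_ne_top (k : Type) [Field k] [NumberField k] (q : ℕ) (hq : q.Prime) :
    Ideal.span {(q : 𝓞 k)} ≠ ⊤ := by
  intro h
  have h3 : Ideal.absNorm (Ideal.span {(q : 𝓞 k)}) = 1 := by
    rw [h, Ideal.absNorm_top]
  rw [Ideal.absNorm_span_natCast] at h3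
  have h4 : 0 < Module.finrank ℤ (𝓞 k) := by
    rw [RingOfIntegers.rank]
    exact Module.finrank_pos
  exact (Nat.one_lt_pow h4.ne' hq.one_lt).ne' h3

theorem frob_pow {A : Type} [Field A] [NumberField A] (q : ℕ) (σ : A →+* A) (h : Frob A q σ)
    (f : ℕ) : ∀ a : 𝓞 A, ∃ c : 𝓞 A, (σ ^ f) (a : A) = (a : A) ^ (q ^ f) + q * (c : A) := by
  induction f with
  | zero => intro a; exact ⟨0, by simp⟩
  | succ f ih =>
    intro a
    obtain ⟨c, hc⟩ := ih a
    obtain ⟨c1, hc1⟩ := h a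
    obtain ⟨c2, hc2⟩ := h c
    obtain ⟨w, hw⟩ : Cgr q ((a ^ q + q * c1) ^ (q ^ f)) ((a ^ q) ^ (q ^ f)) :=
      Cgr.pow ⟨c1, rfl⟩ _
    have hw' := congrArg (algebraMap (𝓞 A) A) hw
    simp only [map_pow, map_add, map_mul, map_natCast] at hw'
    refine ⟨w + (c ^ q + q * c2), ?_⟩
    have h1 : (σ ^ (f + 1)) (a : A) = σ ((σ ^ f) (a : A)) := by
      rw [pow_succ']
      rfl
    rw [h1, hc, map_add, map_pow, map_mul, map_natCast, hc1, hc2]
    simp only [RingOfIntegers.coe_eq_algebraMap, map_pow, map_add, map_mul, map_natCast]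
    rw [hw', ← pow_mul, ← pow_succ']
    ring

theorem frob_root {A : Type} [Field A] [NumberField A] (q Q n : ℕ) (hq : q.Prime) (hn : 1 ≤ n)
    (hqn : ¬ q ∣ n) (τ : A →+* A)
    (hτ : ∀ a : 𝓞 A, ∃ c : 𝓞 A, τ (a : A) = (a : A) ^ Q + q * (c : A)) (z : A)
    (hz : z ^ n = 1) : τ z = z ^ Q := by
  have hzi : IsIntegral ℤ z := IsIntegral.of_pow (n := n) (by omega) (by
    rw [hz]
    exact isIntegral_one)
  let zO : 𝓞 A := ⟨z, hzi⟩
  obtain ⟨c, hc⟩ := hτ zO
  have hzc : ((zO : 𝓞 A) : A) = z := rfl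
  rw [hzc] at hc
  have hzn : z * z ^ (n - 1) = 1 := by
    rw [← pow_succ', Nat.sub_add_cancel hn, hz]
  set w : A := (z ^ (n - 1)) ^ Q with hw
  have hwz : z ^ Q * w = 1 := by
    rw [hw, ← mul_pow, hzn, one_pow]
  set u : A := τ z * w with hu
  have hun : u ^ n = 1 := by
    have h1 : (n - 1) * (Q * n) = n * ((n - 1) * Q) := by ring
    rw [hu, mul_pow, ← map_pow, hz, map_one, one_mul, hw, ← pow_mul, ← pow_mul, h1, pow_mul, hz,
      one_pow]
  let wO : 𝓞 A := (zO ^ (n - 1)) ^ Q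
  have hwO : ((wO : 𝓞 A) : A) = w := rfl
  let uO : 𝓞 A := 1 + q * (c * wO)
  have huO : ((uO : 𝓞 A) : A) = u := by
    have h1 : ((uO : 𝓞 A) : A) = 1 + q * ((c : A) * w) := by
      show algebraMap (𝓞 A) A (1 + q * (c * wO)) = _
      rw [map_add, map_mul, map_mul, map_natCast, map_one]
      rfl
    rw [h1, hu, hc, add_mul, hwz]
    ring
  have h2 : uO = 1 := by
    refine one_of_mem (Ideal.span {(q : 𝓞 A)}) n ?_ uO ?_ ?_
    · intro hmem
      apply span_ne_top A q hq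
      obtain ⟨a, b, hab⟩ : ∃ a b : 𝓞 A, a * n + b * q = 1 := by
        have h1 : IsCoprime (n : ℤ) (q : ℤ) :=
          Nat.isCoprime_iff_coprime.2 ((Nat.Prime.coprime_iff_not_dvd hq).2 hqn).symm
        obtain ⟨a, b, h2⟩ := h1
        exact ⟨a, b, by exact_mod_cast congrArg (fun t : ℤ => (t : 𝓞 A)) h2⟩
      rw [Ideal.eq_top_iff_one, ← hab]
      exact add_mem (Ideal.mul_mem_left _ _ hmem)
        (Ideal.mul_mem_left _ _ (Ideal.mem_span_singleton_self _))
    · apply RingOfIntegers.ext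
      have h1 : ((uO ^ n : 𝓞 A) : A) = ((uO : 𝓞 A) : A) ^ n := map_pow (algebraMap (𝓞 A) A) _ _
      rw [h1, huO, hun]
      exact (map_one (algebraMap (𝓞 A) A)).symm
    · have h3 : uO - 1 = (c * wO) * q := by
        show 1 + q * (c * wO) - 1 = _
        ring
      rw [h3]
      exact Ideal.mul_mem_left _ _ (Ideal.mem_span_singleton_self _)
  have h3 : u = 1 := by
    rw [← huO, h2]
    exact map_one (algebraMap (𝓞 A) A)
  calc τ z = τ z * (z ^ Q * w) := by rw [hwz, mul_one]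
    _ = u * z ^ Q := by rw [hu]; ring
    _ = z ^ Q := by rw [h3, one_mul]

/-- Two homomorphisms of a cyclotomic field which agree on the roots of unity. -/
theorem cyc_ext {A S : Type} [Field A] [NumberField A] [Field S] [CharZero S] (n : ℕ)
    [IsCyclotomicExtension {n} ℚ A] (φ ψ : A →+* S) (h : ∀ z : A, z ^ n = 1 → φ z = ψ z) :
    φ = ψ := by
  ext a
  have ha := IsCyclotomicExtension.adjoin_roots (S := {n}) (A := ℚ) (B := A) a
  induction ha using Algebra.adjoin_induction with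
  | mem z hz =>
    obtain ⟨n', hn', -, hz⟩ := hz
    rw [Set.mem_singleton_iff] at hn'
    subst hn'
    exact h z hz
  | algebraMap c =>
    rw [eq_ratCast, map_ratCast, map_ratCast]
  | add x y _ _ hx hy => rw [map_add, map_add, hx, hy]
  | mul x y _ _ hx hy => rw [map_mul, map_mul, hx, hy]

theorem cyc_mem {A : Type} [Field A] [NumberField A] (n : ℕ) [IsCyclotomicExtension {n} ℚ A]
    (φ : A →+* ℂ) (k : IntermediateField ℚ ℂ) (h : ∀ z : ℂ, z ^ n = 1 → z ∈ k) (a : A) :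
    φ a ∈ k := by
  have ha := IsCyclotomicExtension.adjoin_roots (S := {n}) (A := ℚ) (B := A) a
  induction ha using Algebra.adjoin_induction with
  | mem z hz =>
    obtain ⟨n', hn', -, hz⟩ := hz
    rw [Set.mem_singleton_iff] at hn'
    subst hn'
    refine h _ ?_
    rw [← map_pow, hz, map_one]
  | algebraMap c =>
    rw [eq_ratCast, map_ratCast]
    exact SubfieldClass.ratCast_mem k c
  | add x y _ _ hx hy =>
    rw [map_add]
    exact add_mem hx hy
  | mul x y _ _ hx hy =>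
    rw [map_mul]
    exact mul_mem hx hy

theorem fieldsR {r : ℕ} {b m : Fin r → ℕ} [∀ i, NeZero (m i)] {A F : Type} [Field A]
    [NumberField A] [Field F] [NumberField F] [Algebra A F] {x : Fin r → F} (h : Rad b m A F x)
    [Algebra F ℂ] (n : ℕ) [NeZero n] [IsCyclotomicExtension {n} ℚ A] (W q f : ℕ) (hW : 1 ≤ W)
    (hq : q.Prime) (hqn : ¬ q ∣ n) (hqW : ¬ q ∣ W) (hqb : ∀ i, ¬ q ∣ b i)
    (hQ : W * (q - 1) ∣ q ^ f - 1) (y : Fin r → ℂ) (hy : ∀ i, y i ^ W = algebraMap F ℂ (x i))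
    (τ : A →+* A)
    (hτ : ∀ a : 𝓞 A, ∃ c : 𝓞 A, τ (a : A) = (a : A) ^ (q ^ f) + q * (c : A)) :
    ∃ (k : IntermediateField ℚ ℂ) (ι : A →+* k) (τk : k →+* k) (β : Fin r → k) (n₀ : ℕ),
      τk ^ (n₀ + 1) = 1 ∧ (∀ a, ((ι a : k) : ℂ) = algebraMap F ℂ (algebraMap A F a)) ∧
      τk.comp ι = ι.comp τ ∧ (∀ i, ((β i : k) : ℂ) = y i ^ m i) ∧ (∀ i, τk (β i) = β i) ∧
      ∀ p : MvPolynomial (Fin r) k, (∀ i, W ^ (r + 1) * p.degreeOf i < m i) →
        MvPolynomial.aeval y p = 0 → p = 0 := by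
  classical
  have hn : 1 ≤ n := Nat.pos_of_ne_zero (NeZero.ne n)
  have hb0 : ∀ i, b i ≠ 0 := fun i => by have := h.two i; omega
  obtain ⟨k, hkf, hkg, hkn, hkb, hkE⟩ := exists_k n W hn hW b hb0
  have hnf : NumberField k := {}
  obtain ⟨τk, ⟨n₀, hn₀⟩, hτz, hτc⟩ := exists_tau k n W q f hq hqn hqW hQ
  set φ : A →+* ℂ := (algebraMap F ℂ).comp (algebraMap A F) with hφ
  have hkn' : ∀ z : ℂ, z ^ n = 1 → z ∈ k := fun z hz => hkn z (by rw [pow_mul, hz, one_pow])
  have hmem : ∀ a, φ a ∈ k := fun a => cyc_mem n φ k hkn' a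
  set ι : A →+* k := φ.codRestrict k hmem with hι
  have hιe : ∀ a, ((ι a : k) : ℂ) = φ a := fun a => rfl
  have hyb : ∀ i, (y i ^ m i) ^ W = b i := fun i => by
    rw [← pow_mul, mul_comm, pow_mul, hy, ← map_pow, h.pow, map_natCast]
  set β : Fin r → k := fun i => ⟨y i ^ m i, hkb i _ (hyb i)⟩ with hβ
  have hβe : ∀ i, ((β i : k) : ℂ) = y i ^ m i := fun i => rfl
  refine ⟨k, ι, τk, β, n₀, hn₀, fun a => rfl, ?_, hβe, ?_, ?_⟩
  · refine cyc_ext n _ _ fun z hz => ?_
    rw [RingHom.comp_apply, RingHom.comp_apply, frob_root q (q ^ f) n hq hn hqn τ hτ z hz, map_pow]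
    exact hτz _ (by rw [← map_pow, hz, map_one])
  · intro i
    refine hτc (b i) (β i) (hqb i) ?_
    apply Subtype.ext
    have h1 : (((β i) ^ W : k) : ℂ) = (y i ^ m i) ^ W := rfl
    rw [h1, hyb]
    rfl
  · obtain ⟨L, hkL, hyL, hfL, -, hD⟩ := tower k r y m (fun i => Nat.pos_of_ne_zero (NeZero.ne _))
      (fun i => hkb i _ (hyb i))
    refine hD (W ^ (r + 1)) ?_
    -- the image of `A`
    have hφQ : ∀ c : ℚ, φ (algebraMap ℚ A c) = algebraMap ℚ ℂ c := fun c => by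
      rw [eq_ratCast, map_ratCast, eq_ratCast]
    let φQ : A →ₐ[ℚ] ℂ := { φ with commutes' := hφQ }
    set E : IntermediateField ℚ ℂ := φQ.fieldRange with hE
    have hEA : finrank ℚ E = finrank ℚ A :=
      (LinearEquiv.finrank_eq (AlgEquiv.ofInjectiveField φQ).toLinearEquiv).symm
    have hEf : FiniteDimensional ℚ E :=
      LinearEquiv.finiteDimensional (AlgEquiv.ofInjectiveField φQ).toLinearEquiv
    have hEn : ∀ z : ℂ, z ^ n = 1 → z ∈ E := by
      intro z hz
      obtain ⟨ζ, hζ⟩ := IsCyclotomicExtension.exists_isPrimitiveRoot ℚ A (Set.mem_singleton n)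
        (NeZero.ne n)
      have hζ' : IsPrimitiveRoot (φ ζ) n := hζ.map_of_injective φ.injective
      obtain ⟨i, -, hi⟩ := hζ'.eq_pow_of_pow_eq_one hz
      exact ⟨ζ ^ i, by rw [← hi]; exact map_pow φ ζ i⟩
    have h1 := hkE E hEf hEn
    rw [hEA] at h1
    -- the image of `F`
    have hFL : ∀ w : F, algebraMap F ℂ w ∈ L := by
      intro w
      have hw : w = ∑ l, h.co w l • mon x (vl l) := by
        rw [← h.co_symm, LinearEquiv.symm_apply_apply]
      rw [hw, map_sum]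
      refine sum_mem fun l _ => ?_
      rw [Algebra.smul_def, map_mul, mon_map]
      refine mul_mem (hkL (hmem _)) ?_
      unfold mon
      refine prod_mem fun i _ => pow_mem ?_ _
      show algebraMap F ℂ (x i) ∈ L
      rw [← hy]
      exact pow_mem (hyL i) _
    have h2 : finrank ℚ F ≤ finrank ℚ L := by
      let g : F →+* L := (algebraMap F ℂ).codRestrict L hFL
      have hg : ∀ c : ℚ, g (algebraMap ℚ F c) = algebraMap ℚ L c := fun c => by
        rw [eq_ratCast, map_ratCast, eq_ratCast]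
      let gQ : F →ₐ[ℚ] L := { g with commutes' := hg }
      exact LinearMap.finrank_le_finrank_of_injective (f := gQ.toLinearMap) g.injective
    calc finrank ℚ k * ∏ i, m i ≤ W ^ (r + 1) * finrank ℚ A * ∏ i, m i :=
          Nat.mul_le_mul_right _ h1
      _ = W ^ (r + 1) * (finrank ℚ A * finrank A F) := by rw [h.deg, mul_assoc]
      _ = W ^ (r + 1) * finrank ℚ F := by rw [finrank_mul_finrank]
      _ ≤ W ^ (r + 1) * finrank ℚ L := Nat.mul_le_mul_left _ h2

end Pool.Agent.H69.BE
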