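import Pool.Agent.H69.BE.PsiR

/-!
# THEOREM VR+ (MP_187c26_nt), chapter S7: branches and dynamics, abstractly

`ψ : R → ℂ⟦u⟧` with constant term `ev : R → ℂ`. `Good Φ d ev`: `Φ` has degree `d`, is separable and prime to `Z` at `ev`. Then `Φ.map ψ` has
`d` roots. `dyn`: a family `ψ z` with `ψ z ∘ θ = (u ↦ Q u) ∘ ψ (z ^ Q)` and `Φ ∣ c Φ^θ(Z^Q)`: all branches at the nontrivial `N`-th roots of
unity are `κ exp(β u)`, `κ` a root of unity.
-/

set_option autoImplicit false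

open Polynomial

namespace Pool.Agent.H69.BE

open Pool.Agent.H69.BD (ex lder lder_rel eq_ex_of_lder fin_dyn fin_dyn_mul)

variable {R : Type} [CommRing R]

/-- Good points. -/
def Good (Φ : R[X]) (d : ℕ) (ev : R →+* ℂ) : Prop :=
  ev (Φ.coeff d) ≠ 0 ∧ (Φ.map ev).Separable ∧ ev (Φ.coeff 0) ≠ 0

open scoped Classical in
/-- The branches. -/
noncomputable def Br (Φ : R[X]) (ψ : R →+* PowerSeries ℂ) : Finset (PowerSeries ℂ) :=
  (Φ.map ψ).roots.toFinset

section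

variable (Φ : R[X]) (d : ℕ) (ψ : R →+* PowerSeries ℂ) (ev : R →+* ℂ)
  (hev : ∀ a, PowerSeries.constantCoeff (ψ a) = ev a)

include hev

theorem map_cc : (Φ.map ψ).map (PowerSeries.constantCoeff (R := ℂ)) = Φ.map ev := by
  rw [Polynomial.map_map]
  congr 1
  exact RingHom.ext hev

theorem map_ne_zero' (h : Good Φ d ev) : Φ.map ψ ≠ 0 := by
  intro h0
  have h1 := congrArg (fun p => PowerSeries.constantCoeff (p.coeff d)) h0
  simp only [coeff_map, coeff_zero, map_zero, hev] at h1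
  exact h.1 h1

theorem mem_Br (h : Good Φ d ev) (A : PowerSeries ℂ) : A ∈ Br Φ ψ ↔ eval₂ ψ A Φ = 0 := by
  classical
  rw [Br, Multiset.mem_toFinset, mem_roots (map_ne_zero' Φ d ψ ev hev h), IsRoot.def, eval_map]

theorem hensel (hΦ : Φ.natDegree ≤ d) (h : Good Φ d ev) (a : ℂ) (h0 : (Φ.map ev).eval a = 0) :
    ∃ A : PowerSeries ℂ, eval₂ ψ A Φ = 0 ∧ PowerSeries.constantCoeff A = a := by
  set F := Φ.map ψ with hF
  have hu : IsUnit (ψ (Φ.coeff d)) := by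
    rw [PowerSeries.isUnit_iff_constantCoeff, hev]
    exact isUnit_iff_ne_zero.2 h.1
  obtain ⟨u, hu1⟩ := hu
  set f := C ((u⁻¹ : (PowerSeries ℂ)ˣ) : PowerSeries ℂ) * F with hf
  have hFd : F.natDegree ≤ d := natDegree_map_le.trans hΦ
  have hmonic : f.Monic := by
    apply monic_of_natDegree_le_of_coeff_eq_one d
    · exact (natDegree_C_mul_le _ _).trans hFd
    · rw [hf, coeff_C_mul, hF, coeff_map, ← hu1, Units.inv_mul]
  set cc := PowerSeries.constantCoeff (R := ℂ) with hcc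
  have hmap : f.map cc = C (cc ((u⁻¹ : (PowerSeries ℂ)ˣ) : PowerSeries ℂ)) * Φ.map ev := by
    rw [hf, Polynomial.map_mul, map_C, hF, hcc, map_cc Φ ψ ev hev]
  have hunit : cc ((u⁻¹ : (PowerSeries ℂ)ˣ) : PowerSeries ℂ) ≠ 0 :=
    ((Units.isUnit u⁻¹).map cc).ne_zero
  have e1 : cc (f.eval (PowerSeries.C a)) = 0 := by
    have h1 : cc (f.eval (PowerSeries.C a)) = (f.map cc).eval a := by
      rw [← Polynomial.eval₂_at_apply, ← eval_map]
      rfl
    rw [h1, hmap, eval_mul, h0, mul_zero]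
  have e2 : cc (f.derivative.eval (PowerSeries.C a)) ≠ 0 := by
    have h1 : cc (f.derivative.eval (PowerSeries.C a)) = (f.map cc).derivative.eval a := by
      rw [← Polynomial.eval₂_at_apply, ← eval_map, ← derivative_map]
      rfl
    rw [h1, hmap, derivative_C_mul, eval_mul, eval_C]
    refine mul_ne_zero hunit ?_
    exact h.2.1.eval₂_derivative_ne_zero (RingHom.id ℂ) (by simpa using h0)
  have hH : HenselianRing (PowerSeries ℂ) (Ideal.span {PowerSeries.X}) := inferInstance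
  obtain ⟨A, hA, hA1⟩ := hH.is_henselian f hmonic (PowerSeries.C a)
    (by
      rw [Ideal.mem_span_singleton, PowerSeries.X_dvd_iff]
      exact e1)
    (by
      refine IsUnit.map _ ?_
      rw [PowerSeries.isUnit_iff_constantCoeff]
      exact isUnit_iff_ne_zero.2 e2)
  refine ⟨A, ?_, ?_⟩
  · rw [← eval_map]
    have h1 : f.eval A = 0 := hA
    rw [hf, eval_mul, eval_C] at h1
    exact (Units.mul_right_eq_zero _).1 h1
  · rw [Ideal.mem_span_singleton, PowerSeries.X_dvd_iff, map_sub, PowerSeries.constantCoeff_C,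
      sub_eq_zero] at hA1
    exact hA1

theorem constantCoeff_root (A : PowerSeries ℂ) (h : eval₂ ψ A Φ = 0) :
    (Φ.map ev).eval (PowerSeries.constantCoeff A) = 0 := by
  rw [← map_cc Φ ψ ev hev, eval_map, eval₂_at_apply, eval_map, h, map_zero]

theorem constantCoeff_ne_zero (hg : Good Φ d ev) (A : PowerSeries ℂ)
    (h : eval₂ ψ A Φ = 0) : PowerSeries.constantCoeff A ≠ 0 := by
  intro h0
  have h1 := constantCoeff_root Φ ψ ev hev A h
  rw [h0, ← coeff_zero_eq_eval_zero, coeff_map] at h1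
  exact hg.2.2 h1

theorem card_Br (hΦ : Φ.natDegree ≤ d) (h : Good Φ d ev) : d ≤ (Br Φ ψ).card := by
  classical
  set g := Φ.map ev with hg
  have hdeg : g.natDegree = d := by
    refine le_antisymm (natDegree_map_le.trans hΦ) (le_natDegree_of_ne_zero ?_)
    rw [hg, coeff_map]
    exact h.1
  have hnod : g.roots.Nodup := nodup_roots h.2.1
  have hcard : g.roots.card = d := by
    rw [← hdeg]
    exact (splits_iff_card_roots.1 (IsAlgClosed.splits g))
  have hg0 : g ≠ 0 := h.2.1.ne_zero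
  choose! A hA using fun (a : ℂ) (ha : a ∈ g.roots.toFinset) =>
    hensel Φ d ψ ev hev hΦ h a ((mem_roots hg0).1 (Multiset.mem_toFinset.1 ha))
  have h1 : g.roots.toFinset.card = d := by
    rw [Multiset.toFinset_card_of_nodup hnod, hcard]
  rw [← h1]
  apply Finset.card_le_card_of_injOn A
  · intro a ha
    rw [Finset.mem_coe, mem_Br Φ d ψ ev hev h]
    exact (hA a ha).1
  · intro a ha b hb hab
    rw [← (hA a ha).2, ← (hA b hb).2, hab]

theorem root_of_map (hΦ : Φ.natDegree ≤ d) (h : Good Φ d ev)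
    (σ : PowerSeries ℂ →+* PowerSeries ℂ) (hσ : Function.Injective σ) (b : PowerSeries ℂ)
    (hb : eval₂ (σ.comp ψ) b Φ = 0) : ∃ B ∈ Br Φ ψ, b = σ B := by
  classical
  set F := Φ.map ψ with hF
  have hFd : F.natDegree ≤ d := natDegree_map_le.trans hΦ
  have hcard : Multiset.card F.roots = F.natDegree := by
    have h1 := card_Br Φ d ψ ev hev hΦ h
    have h2 := Multiset.toFinset_card_le F.roots
    have h3 := card_roots' F
    rw [Br] at h1
    have h4 : d ≤ F.roots.card := h1.trans (by convert h2)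
    omega
  have hprod := C_leadingCoeff_mul_prod_multiset_X_sub_C hcard
  have hb2 : eval₂ σ b F = 0 := by
    rw [hF, eval₂_map]
    exact hb
  rw [← hprod, eval₂_mul, eval₂_C, eval₂_multiset_prod, mul_eq_zero, Multiset.map_map,
    Multiset.prod_eq_zero_iff] at hb2
  rcases hb2 with h1 | h1
  · rw [map_eq_zero_iff σ hσ, leadingCoeff_eq_zero] at h1
    exact absurd h1 (map_ne_zero' Φ d ψ ev hev h)
  · obtain ⟨B, hB, h2⟩ := Multiset.mem_map.1 h1
    refine ⟨B, Multiset.mem_toFinset.2 hB, ?_⟩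
    simp only [Function.comp_apply, eval₂_sub, eval₂_X, eval₂_C] at h2
    exact sub_eq_zero.1 h2

end

/-- `Φ^θ(Z^Q)`. -/
noncomputable def fr (Q : ℕ) (θ : R →+* R) (Φ : R[X]) : R[X] := expand R Q (Φ.map θ)

theorem eval₂_fr {Ω : Type} [CommRing Ω] (f : R →+* Ω) (Q : ℕ) (θ : R →+* R) (Φ : R[X])
    (a : Ω) : eval₂ f a (fr Q θ Φ) = eval₂ (f.comp θ) (a ^ Q) Φ := by
  rw [fr, expand_eq_comp_X_pow, eval₂_comp, eval₂_pow, eval₂_X, eval₂_map]

theorem dyn (Φ A0 : R[X]) (c : R) (d Q N : ℕ) (ψ : ℂ → R →+* PowerSeries ℂ) (ev : ℂ → R →+* ℂ)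
    (hev : ∀ z a, PowerSeries.constantCoeff (ψ z a) = ev z a) (θ : R →+* R)
    (hθ : ∀ z a, ψ z (θ a) = PowerSeries.rescale (Q : ℂ) (ψ (z ^ Q) a))
    (hΦ : Φ.natDegree ≤ d) (hQ : 2 ≤ Q)
    (hdiv : C c * fr Q θ Φ = A0 * Φ)
    (hN : N.Prime) (hco : N.Coprime Q)
    (hgood : ∀ z : ℂ, z ^ N = 1 → z ≠ 1 → Good Φ d (ev z) ∧ ev z c ≠ 0)
    (ε : ℂ) (hε : ε ^ N = 1) (hε1 : ε ≠ 1) (A : PowerSeries ℂ) (hA : eval₂ (ψ ε) A Φ = 0) :
    ∃ κ β : ℂ, κ ≠ 0 ∧ (∃ n : ℕ, 1 ≤ n ∧ κ ^ n = 1) ∧ A = PowerSeries.C κ * ex β := by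
  classical
  have hpow : ∀ z : ℂ, z ^ N = 1 → z ≠ 1 → (z ^ Q) ^ N = 1 ∧ z ^ Q ≠ 1 := by
    intro z hz hz1
    refine ⟨by rw [← pow_mul, mul_comm, pow_mul, hz, one_pow], fun h => hz1 ?_⟩
    have h1 : z ^ (N.gcd Q) = 1 := by
      rw [← orderOf_dvd_iff_pow_eq_one] at hz h ⊢
      exact Nat.dvd_gcd hz h
    rwa [hco, pow_one] at h1
  have hinjQ : Function.Injective (PowerSeries.rescale (Q : ℂ)) :=
    PowerSeries.rescale_injective (by
      rw [Nat.cast_ne_zero]; omega)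
  have hstep : ∀ (z : ℂ) (D : PowerSeries ℂ), z ^ N = 1 → z ≠ 1 → eval₂ (ψ z) D Φ = 0 →
      ∃ B : PowerSeries ℂ, eval₂ (ψ (z ^ Q)) B Φ = 0 ∧
        D ^ Q = PowerSeries.rescale (Q : ℂ) B := by
    intro z D hz hz1 hD
    have hg := hgood z hz hz1
    have hg2 := hgood (z ^ Q) (hpow z hz hz1).1 (hpow z hz hz1).2
    have h1 := congrArg (eval₂ (ψ z) D) hdiv
    rw [eval₂_mul, eval₂_mul, hD, mul_zero, eval₂_C, mul_eq_zero] at h1
    have h2 : ψ z c ≠ 0 := by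
      intro h3
      have h4 := congrArg (PowerSeries.constantCoeff (R := ℂ)) h3
      rw [hev, map_zero] at h4
      exact hg.2 h4
    have h3 := h1.resolve_left h2
    rw [eval₂_fr] at h3
    have h4 : (ψ z).comp θ = (PowerSeries.rescale (Q : ℂ)).comp (ψ (z ^ Q)) :=
      RingHom.ext fun p => hθ z p
    rw [h4] at h3
    obtain ⟨B, hB, h5⟩ := root_of_map Φ d (ψ (z ^ Q)) (ev (z ^ Q)) (hev _) hΦ hg2.1 _ hinjQ _ h3
    exact ⟨B, (mem_Br Φ d _ _ (hev _) hg2.1 B).1 hB, h5⟩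
  set S' : Finset ℂ := (nthRootsFinset N (1 : ℂ)).erase 1 with hS'
  have hmemR : ∀ z, z ∈ S' ↔ z ^ N = 1 ∧ z ≠ 1 := by
    intro z
    rw [hS', Finset.mem_erase, mem_nthRootsFinset hN.pos]
    exact and_comm
  let S : Finset (Σ _ : ℂ, PowerSeries ℂ) := S'.sigma fun z => Br Φ (ψ z)
  have hS : ∀ z D, (⟨z, D⟩ : Σ _ : ℂ, PowerSeries ℂ) ∈ S ↔
      (z ^ N = 1 ∧ z ≠ 1) ∧ eval₂ (ψ z) D Φ = 0 := by
    intro z D
    rw [Finset.mem_sigma, hmemR]
    constructor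
    · rintro ⟨h1, h2⟩
      exact ⟨h1, (mem_Br Φ d _ _ (hev z) (hgood z h1.1 h1.2).1 D).1 h2⟩
    · rintro ⟨h1, h2⟩
      exact ⟨h1, (mem_Br Φ d _ _ (hev z) (hgood z h1.1 h1.2).1 D).2 h2⟩
  have hT : ∀ p : S, ∃ p' : S, p'.1.1 = p.1.1 ^ Q ∧
      p.1.2 ^ Q = PowerSeries.rescale (Q : ℂ) p'.1.2 := by
    rintro ⟨⟨z, D⟩, hp⟩
    obtain ⟨h1, h2⟩ := (hS z D).1 hp
    obtain ⟨B, hB, h3⟩ := hstep z D h1.1 h1.2 h2
    exact ⟨⟨⟨z ^ Q, B⟩, (hS _ _).2 ⟨hpow z h1.1 h1.2, hB⟩⟩, rfl, h3⟩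
  choose T hT1 hT2 using hT
  have hcc : ∀ p : S, PowerSeries.constantCoeff p.1.2 ≠ 0 := by
    rintro ⟨⟨z, D⟩, hp⟩
    obtain ⟨h1, h2⟩ := (hS z D).1 hp
    exact constantCoeff_ne_zero Φ d _ _ (hev z) (hgood z h1.1 h1.2).1 D h2
  have hk : ∀ k : ℕ, 1 ≤ k → ∀ p : S, PowerSeries.coeff k (lder p.1.2) = 0 := by
    intro k hk
    refine fin_dyn T _ ((Q : ℂ) ^ k) ?_ ?_
    · intro n hn h1
      rw [← pow_mul] at h1
      have h2 : (Q ^ (k * n) : ℕ) = 1 := by exact_mod_cast h1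
      have h3 : 1 < Q ^ (k * n) := Nat.one_lt_pow (by positivity) (by omega)
      omega
    · intro p
      have h1 := lder_rel _ _ (hcc p) (hcc (T p)) Q (by omega) (hT2 p)
      rw [h1, PowerSeries.coeff_rescale]
  have hmul := fin_dyn_mul T (fun p : S => PowerSeries.constantCoeff p.1.2) Q hQ hcc (by
    intro p
    show PowerSeries.constantCoeff p.1.2 ^ Q = PowerSeries.constantCoeff (T p).1.2
    rw [← map_pow, hT2, ← PowerSeries.coeff_zero_eq_constantCoeff_apply, PowerSeries.coeff_rescale,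
      pow_zero, one_mul, PowerSeries.coeff_zero_eq_constantCoeff_apply])
  let p : S := ⟨⟨ε, A⟩, (hS _ _).2 ⟨⟨hε, hε1⟩, hA⟩⟩
  exact ⟨_, _, hcc p, hmul p, eq_ex_of_lder A (hcc p) (fun k h => hk k h p)⟩

/-- Almost all points are good. -/
theorem good_of (Φ : R[X]) (d : ℕ) (hd : 1 ≤ d) (hΦ : Φ.natDegree ≤ d) (ev₀ : R →+* ℂ)
    (h : Good Φ d ev₀) : ∃ P : R, ev₀ P ≠ 0 ∧ ∀ ev : R →+* ℂ, ev P ≠ 0 → Good Φ d ev := by
  have hder : Φ.derivative.natDegree ≤ d - 1 :=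
    (natDegree_derivative_le Φ).trans (Nat.sub_le_sub_right hΦ 1)
  obtain ⟨p, q, -, -, hpq⟩ := exists_mul_add_mul_eq_C_resultant Φ Φ.derivative hΦ hder
    (Or.inl (by omega))
  set r := resultant Φ Φ.derivative d (d - 1) with hr
  have hr0 : ev₀ r ≠ 0 := by
    have h1 : ev₀ r = resultant (Φ.map ev₀) (Φ.map ev₀).derivative d (d - 1) := by
      rw [derivative_map, resultant_map_map]
    have h2 : (Φ.map ev₀).natDegree = d := by
      refine le_antisymm (natDegree_map_le.trans hΦ) (le_natDegree_of_ne_zero ?_)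
      rw [coeff_map]
      exact h.1
    have h3 : (Φ.map ev₀).derivative.natDegree = d - 1 := by
      rw [natDegree_derivative, h2]
    have h4 := resultant_ne_zero (Φ.map ev₀) (Φ.map ev₀).derivative h.2.1
    rw [h2, h3] at h4
    rw [h1]
    exact h4
  refine ⟨Φ.coeff d * Φ.coeff 0 * r, ?_, ?_⟩
  · rw [map_mul, map_mul]
    exact mul_ne_zero (mul_ne_zero h.1 h.2.2) hr0
  · intro ev hε
    rw [map_mul, map_mul] at hε
    refine ⟨left_ne_zero_of_mul (left_ne_zero_of_mul hε), ?_,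
      right_ne_zero_of_mul (left_ne_zero_of_mul hε)⟩
    have h1 := congrArg (Polynomial.map ev) hpq
    rw [Polynomial.map_add, Polynomial.map_mul, Polynomial.map_mul, map_C, ← derivative_map] at h1
    have h2 : ev r ≠ 0 := right_ne_zero_of_mul hε
    rw [separable_def]
    refine ⟨C (ev r)⁻¹ * p.map ev, C (ev r)⁻¹ * q.map ev, ?_⟩
    calc C (ev r)⁻¹ * p.map ev * Φ.map ev + C (ev r)⁻¹ * q.map ev * (Φ.map ev).derivative
        = C (ev r)⁻¹ * (Φ.map ev * p.map ev + (Φ.map ev).derivative * q.map ev) := by ring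
      _ = 1 := by rw [h1, ← C_mul, inv_mul_cancel₀ h2, C_1]

end Pool.Agent.H69.BE
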