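import Mathlib

/-!
# THEOREM VR+ (MP_187c26_nt), chapter S7: pseudo-division and transfer, several variables

The files `H69/BD/Pdiv.lean` for polynomials in `Z` over `k[X_1, …, X_r]`; the bounds for the degrees in the `X_i` are
vectors.
-/

set_option autoImplicit false

open Polynomial

namespace Pool.Agent.H69.BE

variable {k : Type} [Field k] {r : ℕ}

/-- The degree in `X_i` is at most `l i`. -/
def Dg (l : Fin r → ℕ) (p : MvPolynomial (Fin r) k) : Prop := ∀ i, p.degreeOf i ≤ l i

theorem Dg.zero (l : Fin r → ℕ) : Dg l (0 : MvPolynomial (Fin r) k) := fun i => by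
  rw [MvPolynomial.degreeOf_zero]
  exact Nat.zero_le _

theorem Dg.mono {l l' : Fin r → ℕ} (h : ∀ i, l i ≤ l' i) {p : MvPolynomial (Fin r) k} (hp : Dg l p) :
    Dg l' p := fun i => (hp i).trans (h i)

theorem Dg.sub {l : Fin r → ℕ} {p q : MvPolynomial (Fin r) k} (hp : Dg l p) (hq : Dg l q) :
    Dg l (p - q) := fun i =>
  (MvPolynomial.degreeOf_sub_le i p q).trans (max_le (hp i) (hq i))

theorem Dg.mul {l l' : Fin r → ℕ} {p q : MvPolynomial (Fin r) k} (hp : Dg l p) (hq : Dg l' q) :
    Dg (fun i => l i + l' i) (p * q) := fun i =>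
  (MvPolynomial.degreeOf_mul_le i p q).trans (Nat.add_le_add (hp i) (hq i))

theorem pdiv (Φ : (MvPolynomial (Fin r) k)[X]) (d : ℕ) (l : Fin r → ℕ) (hd : 1 ≤ d)
    (hΦ : Φ.natDegree ≤ d) (hl : ∀ n, Dg l (Φ.coeff n)) (e : ℕ) :
    ∀ (S : (MvPolynomial (Fin r) k)[X]) (s : Fin r → ℕ),
    S.natDegree < d + e → (∀ n, Dg s (S.coeff n)) →
    ∃ A B : (MvPolynomial (Fin r) k)[X], C (Φ.coeff d) ^ e * S = A * Φ + B ∧ B.natDegree < d ∧
      ∀ n, Dg (fun i => s i + e * l i) (B.coeff n) := by
  induction e with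
  | zero =>
    intro S s hS hs
    exact ⟨0, S, by simp, by simpa using hS, by simpa using hs⟩
  | succ e ih =>
    intro S s hS hs
    set c : MvPolynomial (Fin r) k := S.coeff (d + e) with hc
    set S₁ : (MvPolynomial (Fin r) k)[X] := C (Φ.coeff d) * S - C c * X ^ e * Φ with hS₁
    have hcoeff : ∀ n, S₁.coeff n = Φ.coeff d * S.coeff n -
        c * (if e ≤ n then Φ.coeff (n - e) else 0) := by
      intro n
      rw [hS₁, coeff_sub, coeff_C_mul, mul_assoc, coeff_C_mul, coeff_X_pow_mul']
    have hdeg : S₁.natDegree < d + e := by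
      have h0 : S₁.natDegree ≤ d + e - 1 := by
        rw [natDegree_le_iff_coeff_eq_zero]
        intro n hn
        rw [hcoeff, if_pos (by omega)]
        rcases Nat.lt_or_ge (d + e) n with h | h
        · rw [coeff_eq_zero_of_natDegree_lt (by omega : S.natDegree < n),
            coeff_eq_zero_of_natDegree_lt (by omega : Φ.natDegree < n - e), mul_zero, mul_zero,
            sub_zero]
        · have : n = d + e := by omega
          subst this
          rw [Nat.add_sub_cancel]
          rw [hc]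
          ring
      omega
    have hdeg1 : ∀ n, Dg (fun i => s i + l i) (S₁.coeff n) := by
      intro n
      rw [hcoeff]
      refine Dg.sub ?_ ?_
      · exact ((hl d).mul (hs n)).mono fun i => (Nat.add_comm _ _).le
      · have h1 := hs (d + e)
        rw [← hc] at h1
        refine h1.mul ?_
        split_ifs
        · exact hl _
        · exact Dg.zero _
    obtain ⟨A, B, h1, h2, h3⟩ := ih S₁ (fun i => s i + l i) hdeg hdeg1
    refine ⟨A + C (Φ.coeff d) ^ e * C c * X ^ e, B, ?_, h2, fun n => (h3 n).mono fun i => by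
      rw [Nat.succ_mul]; omega⟩
    have : C (Φ.coeff d) ^ e * S₁ = A * Φ + B := h1
    rw [hS₁] at this
    linear_combination this

theorem transfer {Ω : Type} [CommRing Ω] [IsDomain Ω] (f : MvPolynomial (Fin r) k →+* Ω)
    (Φ S : (MvPolynomial (Fin r) k)[X])
    (d e : ℕ) (l s : Fin r → ℕ) (hd : 1 ≤ d) (hΦ : Φ.natDegree ≤ d) (hl : ∀ n, Dg l (Φ.coeff n))
    (hS : S.natDegree < d + e) (hs : ∀ n, Dg s (S.coeff n))
    (hf : ∀ p : MvPolynomial (Fin r) k, Dg (fun i => s i + e * l i) p → f p = 0 → p = 0)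
    (T : Finset Ω) (hT : d ≤ T.card) (hΦ0 : ∀ a ∈ T, eval₂ f a Φ = 0)
    (hS0 : ∀ a ∈ T, eval₂ f a S = 0) :
    ∃ A : (MvPolynomial (Fin r) k)[X], C (Φ.coeff d) ^ e * S = A * Φ := by
  classical
  obtain ⟨A, B, h1, h2, h3⟩ := pdiv Φ d l hd hΦ hl e S s hS hs
  have hB : B = 0 := by
    have hBf : B.map f = 0 := by
      by_contra hne
      have hlt : (B.map f).natDegree < d := lt_of_le_of_lt natDegree_map_le h2
      have hroots : ∀ a ∈ T, a ∈ (B.map f).roots := by
        intro a ha
        rw [mem_roots hne, IsRoot.def, eval_map]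
        have h4 := congrArg (eval₂ f a) h1
        rw [eval₂_mul, eval₂_add, eval₂_mul, hΦ0 a ha, hS0 a ha, mul_zero, mul_zero, zero_add] at h4
        exact h4.symm
      have h5 : T.card ≤ (B.map f).roots.toFinset.card :=
        Finset.card_le_card (fun a ha => Multiset.mem_toFinset.2 (hroots a ha))
      have h6 := Multiset.toFinset_card_le (B.map f).roots
      have h7 := card_roots' (B.map f)
      omega
    ext1 n
    rw [coeff_zero]
    refine hf _ (h3 n) ?_
    rw [← coeff_map, hBf, coeff_zero]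
  exact ⟨A, by rw [h1, hB, add_zero]⟩

end Pool.Agent.H69.BE
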