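import Pool.Agent.H69.BD.Seven
import Pool.Agent.H69.BE.PdivR
import Pool.Agent.H69.BE.BrR

/-!
# THEOREM VR+ (MP_187c26_nt), chapter S7: monomials, several variables, twisted

Text: `Φ(X,Z)` over a field `k` with an endomorphism `τ` of finite order, degree `≤ d` in `Z`, coefficients of degree `≤ l_i` in `X_i`;
`y` is not a zero of any nonzero polynomial of degree `≤ Q (d + 1) l_i` in `X_i` over `k`; `Φ(y,Z)` has degree `d` and `d` different nonzero
roots `α i`, and `Φ^τ(y^Q, (α i)^Q) = 0`. Then `(α i)^n y^b = y^a` for some `n ≥ 1`.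
Proof: by `transfer`, `Φ` divides a power of its leading coefficient times `Φ^τ(X^Q,Z^Q)`; iterate: it divides `c Φ(X^N,Z^N)`,
`N = Q^n`, `τ^n = 1`. `dyn` for the points `z^(e_i)`, `z^M = 1`. All branches are monomials.
-/

set_option autoImplicit false

open Polynomial

namespace Pool.Agent.H69.BE

variable {r : ℕ}

/-! ### Kronecker substitution -/

theorem kron_inj (B : ℕ) : ∀ (r : ℕ) (m m' : Fin r → ℕ), (∀ i, m i < B) → (∀ i, m' i < B) →
    ∑ i : Fin r, B ^ (i : ℕ) * m i = ∑ i : Fin r, B ^ (i : ℕ) * m' i → m = m' := by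
  intro r
  induction r with
  | zero => intro m m' _ _ _; exact funext fun i => i.elim0
  | succ r ih =>
    intro m m' hm hm' h
    have hs : ∀ f : Fin (r + 1) → ℕ, ∑ i : Fin (r + 1), B ^ (i : ℕ) * f i =
        f 0 + B * ∑ i : Fin r, B ^ (i : ℕ) * f i.succ := by
      intro f
      rw [Fin.sum_univ_succ, Finset.mul_sum]
      congr 1
      · simp
      · refine Finset.sum_congr rfl fun i _ => ?_
        rw [Fin.val_succ, pow_succ]
        ring
    rw [hs, hs] at h
    have h0 : m 0 = m' 0 := by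
      have h1 := congrArg (fun n => n % B) h
      simp only [Nat.add_mul_mod_self_left] at h1
      rwa [Nat.mod_eq_of_lt (hm 0), Nat.mod_eq_of_lt (hm' 0)] at h1
    have hB : 0 < B := lt_of_le_of_lt (Nat.zero_le _) (hm 0)
    rw [h0] at h
    have h2 := ih (fun i => m i.succ) (fun i => m' i.succ) (fun i => hm _) (fun i => hm' _)
      (Nat.eq_of_mul_eq_mul_left hB (Nat.add_left_cancel h))
    funext i
    refine Fin.cases h0 (fun i => congrFun h2 i) i

theorem exists_goodR (P : MvPolynomial (Fin r) ℂ) (hP : P ≠ 0) (Q : ℕ) (hQ : 1 ≤ Q) :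
    ∃ (e : Fin r → ℕ) (N : ℕ), N.Prime ∧ N.Coprime Q ∧
      ∀ z : ℂ, z ^ N = 1 → z ≠ 1 → evr e z P ≠ 0 := by
  classical
  obtain ⟨B, hB⟩ : ∃ B : ℕ, ∀ m ∈ P.support, ∀ i, m i < B := by
    refine ⟨(P.support.sup fun m => Finset.univ.sup fun i => m i) + 1, fun m hm i => ?_⟩
    have h1 := Finset.le_sup (f := fun m : Fin r →₀ ℕ => Finset.univ.sup fun i => m i) hm
    have h2 := Finset.le_sup (f := fun i => m i) (Finset.mem_univ i)
    omega
  set e : Fin r → ℕ := fun i => B ^ (i : ℕ) with he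
  set P' : ℂ[X] := ∑ m ∈ P.support, monomial (∑ i, e i * m i) (P.coeff m) with hP'
  have hev : ∀ z, P'.eval z = evr e z P := by
    intro z
    rw [hP', eval_finsetSum, evr, MvPolynomial.eval_eq']
    refine Finset.sum_congr rfl fun m _ => ?_
    rw [eval_monomial]
    congr 1
    rw [← Finset.prod_pow_eq_pow_sum]
    exact Finset.prod_congr rfl fun i _ => pow_mul _ _ _
  have hne : P' ≠ 0 := by
    obtain ⟨m, hm⟩ := MvPolynomial.support_nonempty.2 hP
    intro h0
    have h1 := congrArg (fun p => p.coeff (∑ i, e i * m i)) h0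
    simp only [hP', finsetSum_coeff, coeff_zero, coeff_monomial] at h1
    rw [Finset.sum_eq_single m, if_pos rfl] at h1
    · exact MvPolynomial.mem_support_iff.1 hm h1
    · intro m' hm' hne
      rw [if_neg]
      intro h2
      exact hne (DFunLike.coe_injective (kron_inj B r _ _ (hB m' hm') (hB m hm) h2))
    · intro h2
      exact absurd hm h2
  obtain ⟨N, hN, hco, hg⟩ := Pool.Agent.H69.BD.exists_good P' hne Q hQ
  exact ⟨e, N, hN, hco, fun z h1 h2 => by rw [← hev]; exact hg z h1 h2⟩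

/-! ### The twisted Frobenius and its iterates -/

/-- `fr` as a homomorphism. -/
theorem fr_mul {R : Type} [CommRing R] (Q : ℕ) (θ : R →+* R) (Φ Ψ : R[X]) :
    fr Q θ (Φ * Ψ) = fr Q θ Φ * fr Q θ Ψ := by
  rw [fr, fr, fr, Polynomial.map_mul, map_mul]

theorem fr_C {R : Type} [CommRing R] (Q : ℕ) (θ : R →+* R) (a : R) : fr Q θ (C a) = C (θ a) := by
  rw [fr, map_C, expand_C]

theorem fr_fr {R : Type} [CommRing R] (Q Q' : ℕ) (θ θ' : R →+* R) (Φ : R[X]) :
    fr Q θ (fr Q' θ' Φ) = fr (Q * Q') (θ.comp θ') Φ := by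
  rw [fr, fr, fr, map_expand, Polynomial.map_map, expand_mul]

theorem fr_map {R S : Type} [CommRing R] [CommRing S] (Q : ℕ) (θ : R →+* R) (θ' : S →+* S)
    (i : R →+* S) (h : i.comp θ = θ'.comp i) (Φ : R[X]) :
    (fr Q θ Φ).map i = fr Q θ' (Φ.map i) := by
  rw [fr, fr, map_expand, Polynomial.map_map, Polynomial.map_map, h]

theorem fr_natDegree {R : Type} [CommRing R] (Q : ℕ) (θ : R →+* R) (Φ : R[X]) (d : ℕ)
    (h : Φ.natDegree ≤ d) : (fr Q θ Φ).natDegree ≤ Q * d := by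
  rw [fr, natDegree_expand, mul_comm]
  exact Nat.mul_le_mul_left _ (natDegree_map_le.trans h)

/-- `X ↦ X ^ Q` and `τ` on the coefficients. -/
noncomputable def th {k : Type} [Field k] (r Q : ℕ) (τ : k →+* k) :
    MvPolynomial (Fin r) k →+* MvPolynomial (Fin r) k :=
  ((MvPolynomial.expand Q : MvPolynomial (Fin r) k →ₐ[k] _) :
    MvPolynomial (Fin r) k →+* MvPolynomial (Fin r) k).comp (MvPolynomial.map τ)

theorem th_apply {k : Type} [Field k] (Q : ℕ) (τ : k →+* k) (p : MvPolynomial (Fin r) k) :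
    th r Q τ p = MvPolynomial.expand Q (MvPolynomial.map τ p) := rfl

theorem th_comp {k : Type} [Field k] (Q Q' : ℕ) (τ τ' : k →+* k) :
    (th r Q τ).comp (th r Q' τ') = th r (Q * Q') (τ.comp τ') := by
  apply RingHom.ext
  intro p
  rw [RingHom.comp_apply, th_apply, th_apply, th_apply, MvPolynomial.map_expand,
    MvPolynomial.map_map, ← MvPolynomial.expand_mul]

theorem th_injective {k : Type} [Field k] (Q : ℕ) (hQ : 0 < Q) (τ : k →+* k) :
    Function.Injective (th r Q τ) := by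
  intro p p' h
  rw [th_apply, th_apply] at h
  exact MvPolynomial.map_injective τ τ.injective (MvPolynomial.expand_injective hQ h)

theorem th_Dg {k : Type} [Field k] (Q : ℕ) (τ : k →+* k) (l : Fin r → ℕ)
    (p : MvPolynomial (Fin r) k) (h : Dg l p) : Dg (fun i => Q * l i) (th r Q τ p) := by
  classical
  intro i
  rw [MvPolynomial.degreeOf_le_iff]
  intro m hm
  rw [th_apply] at hm
  have h1 := MvPolynomial.support_expand_subset _ hm
  obtain ⟨m', hm', rfl⟩ := Finset.mem_image.1 h1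
  have h2 := MvPolynomial.support_map_subset _ _ hm'
  have h3 := (MvPolynomial.le_degreeOf_of_mem_support i h2).trans (h i)
  simp only [Finsupp.smul_apply, smul_eq_mul]
  exact Nat.mul_le_mul_left _ h3

theorem fr_Dg {k : Type} [Field k] (Q : ℕ) (hQ : 0 < Q) (τ : k →+* k) (l : Fin r → ℕ)
    (Φ : (MvPolynomial (Fin r) k)[X]) (h : ∀ n, Dg l (Φ.coeff n)) (n : ℕ) :
    Dg (fun i => Q * l i) ((fr Q (th r Q τ) Φ).coeff n) := by
  rw [fr, coeff_expand hQ]
  split_ifs with hn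
  · rw [coeff_map]
    exact th_Dg Q τ l _ (h _)
  · exact Dg.zero _

/-- The iterates of a divisibility. -/
theorem fr_iter {k : Type} [Field k] (Q : ℕ) (hQ : 0 < Q) (τ : k →+* k)
    (Φ A : (MvPolynomial (Fin r) k)[X]) (c : MvPolynomial (Fin r) k) (hc : c ≠ 0)
    (h : C c * fr Q (th r Q τ) Φ = A * Φ) (n : ℕ) :
    ∃ (c' : MvPolynomial (Fin r) k) (A' : (MvPolynomial (Fin r) k)[X]), c' ≠ 0 ∧
      C c' * fr (Q ^ (n + 1)) (th r (Q ^ (n + 1)) (τ ^ (n + 1))) Φ = A' * Φ := by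
  induction n with
  | zero =>
    refine ⟨c, A, hc, ?_⟩
    rw [zero_add, pow_one, pow_one]
    exact h
  | succ n ih =>
    obtain ⟨c', A', hc', h'⟩ := ih
    refine ⟨c * th r Q τ c', fr Q (th r Q τ) A' * A, mul_ne_zero hc ?_, ?_⟩
    · rw [Ne, map_eq_zero_iff _ (th_injective Q hQ τ)]
      exact hc'
    · have h1 := congrArg (fr Q (th r Q τ)) h'
      rw [fr_mul, fr_mul, fr_C, fr_fr, th_comp] at h1
      have h2 : Q * Q ^ (n + 1) = Q ^ (n + 1 + 1) := by rw [← pow_succ']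
      have h3 : τ.comp (τ ^ (n + 1)) = τ ^ (n + 1 + 1) := by
        rw [pow_succ' τ (n + 1)]
        rfl
      rw [h2, h3] at h1
      rw [C_mul]
      linear_combination C c * h1 + fr Q (th r Q τ) A' * h

theorem exists_boundR {k : Type} [Field k] (S : (MvPolynomial (Fin r) k)[X]) :
    ∃ s : Fin r → ℕ, ∀ n, Dg s (S.coeff n) := by
  refine ⟨fun i => (Finset.range (S.natDegree + 1)).sup (fun n => (S.coeff n).degreeOf i),
    fun n i => ?_⟩
  by_cases hn : n ∈ Finset.range (S.natDegree + 1)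
  · exact Finset.le_sup (f := fun n => (S.coeff n).degreeOf i) hn
  · rw [Finset.mem_range, not_lt] at hn
    rw [coeff_eq_zero_of_natDegree_lt (by omega), MvPolynomial.degreeOf_zero]
    exact Nat.zero_le _

theorem sevenR {k : Type} [Field k] [Algebra k ℂ] (τ : k →+* k) (n₀ : ℕ) (hτ : τ ^ (n₀ + 1) = 1)
    (Φ : (MvPolynomial (Fin r) k)[X]) (d Q : ℕ) (l : Fin r → ℕ) (hd : 1 ≤ d)
    (hQ : 2 ≤ Q) (hΦ : Φ.natDegree ≤ d) (hl : ∀ n i, (Φ.coeff n).degreeOf i ≤ l i) (y : Fin r → ℂ)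
    (hy : ∀ p : MvPolynomial (Fin r) k, (∀ i, p.degreeOf i ≤ Q * (d + 1) * l i) →
      MvPolynomial.aeval y p = 0 → p = 0)
    (hlc : MvPolynomial.aeval y (Φ.coeff d) ≠ 0) (α : Fin d → ℂ) (hinj : Function.Injective α)
    (h0 : ∀ i, α i ≠ 0)
    (hroot : ∀ i, eval₂ (MvPolynomial.aeval y : MvPolynomial (Fin r) k →ₐ[k] ℂ).toRingHom
      (α i) Φ = 0)
    (hrootQ : ∀ i, eval₂ ((MvPolynomial.aeval (fun j => y j ^ Q) :
      MvPolynomial (Fin r) k →ₐ[k] ℂ).toRingHom.comp (MvPolynomial.map τ)) (α i ^ Q) Φ = 0)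
    (i : Fin d) :
    ∃ (n : ℕ) (a b : Fin r → ℕ), 1 ≤ n ∧ α i ^ n * ∏ j, y j ^ b j = ∏ j, y j ^ a j := by
  classical
  set T : Finset ℂ := Finset.univ.image α with hT
  have hTc : T.card = d := by
    rw [hT, Finset.card_image_of_injective _ hinj, Finset.card_univ, Fintype.card_fin]
  set f : MvPolynomial (Fin r) k →+* ℂ :=
    (MvPolynomial.aeval y : MvPolynomial (Fin r) k →ₐ[k] ℂ).toRingHom with hf
  have hfQ : f.comp (th r Q τ) = (MvPolynomial.aeval (fun j => y j ^ Q) :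
      MvPolynomial (Fin r) k →ₐ[k] ℂ).toRingHom.comp (MvPolynomial.map τ) := by
    apply RingHom.ext
    intro p
    show MvPolynomial.aeval y (MvPolynomial.expand Q (MvPolynomial.map τ p)) =
      MvPolynomial.aeval (fun j => y j ^ Q) (MvPolynomial.map τ p)
    rw [MvPolynomial.aeval_expand]
    rfl
  have hlD : ∀ n, Dg l (Φ.coeff n) := hl
  have hlc0 : Φ.coeff d ≠ 0 := by
    intro h
    rw [h, map_zero] at hlc
    exact hlc rfl
  obtain ⟨A, hA⟩ := transfer f Φ (fr Q (th r Q τ) Φ) d (Q * d) l (fun i => Q * l i) hd hΦ hlD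
    (lt_of_le_of_lt (fr_natDegree Q _ Φ d hΦ) (by omega)) (fr_Dg Q (by omega) τ l Φ hlD)
    (by
      intro p hp hp0
      refine hy p (fun i => (hp i).trans (le_of_eq ?_)) hp0
      ring) T hTc.ge
    (by
      intro a ha
      obtain ⟨j, -, rfl⟩ := Finset.mem_image.1 ha
      exact hroot j)
    (by
      intro a ha
      obtain ⟨j, -, rfl⟩ := Finset.mem_image.1 ha
      rw [eval₂_fr, hfQ]
      exact hrootQ j)
  rw [← C_pow] at hA
  obtain ⟨c', A', hc', hA'⟩ := fr_iter Q (by omega) τ Φ A _ (pow_ne_zero _ hlc0) hA n₀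
  rw [hτ] at hA'
  set N₁ : ℕ := Q ^ (n₀ + 1) with hN₁
  have hN₁2 : 2 ≤ N₁ := by
    calc 2 ≤ Q := hQ
      _ = Q ^ 1 := (pow_one Q).symm
      _ ≤ Q ^ (n₀ + 1) := Nat.pow_le_pow_right (by omega) (by omega)
  set ι : MvPolynomial (Fin r) k →+* MvPolynomial (Fin r) ℂ :=
    MvPolynomial.map (algebraMap k ℂ) with hι
  have hιinj : Function.Injective ι :=
    MvPolynomial.map_injective (algebraMap k ℂ) (algebraMap k ℂ).injective
  set F : (MvPolynomial (Fin r) ℂ)[X] := Φ.map ι with hF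
  have hFd : F.natDegree ≤ d := natDegree_map_le.trans hΦ
  set θ : MvPolynomial (Fin r) ℂ →+* MvPolynomial (Fin r) ℂ :=
    ((MvPolynomial.expand N₁ : MvPolynomial (Fin r) ℂ →ₐ[ℂ] _) :
      MvPolynomial (Fin r) ℂ →+* MvPolynomial (Fin r) ℂ) with hθdef
  have hιθ : ι.comp (th r N₁ 1) = θ.comp ι := by
    apply RingHom.ext
    intro p
    show MvPolynomial.map (algebraMap k ℂ) (MvPolynomial.expand N₁ (MvPolynomial.map 1 p)) =
      MvPolynomial.expand N₁ (MvPolynomial.map (algebraMap k ℂ) p)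
    rw [MvPolynomial.map_expand]
    have h1 : MvPolynomial.map (1 : k →+* k) p = p := MvPolynomial.map_id p
    rw [h1]
  have hdiv : C (ι c') * fr N₁ θ F = A'.map ι * F := by
    have h1 := congrArg (Polynomial.map ι) hA'
    rw [Polynomial.map_mul, map_C, Polynomial.map_mul, fr_map N₁ _ θ ι hιθ] at h1
    exact h1
  have hc'' : ι c' ≠ 0 := by
    rw [Ne, map_eq_zero_iff ι hιinj]
    exact hc'
  set ev₀ : MvPolynomial (Fin r) ℂ →+* ℂ := MvPolynomial.eval y with hev₀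
  have hιy : ev₀.comp ι = f := by
    apply RingHom.ext
    intro p
    show MvPolynomial.eval y (MvPolynomial.map (algebraMap k ℂ) p) = MvPolynomial.aeval y p
    rw [MvPolynomial.eval_map, MvPolynomial.aeval_def]
  have hFy : F.map ev₀ = Φ.map f := by
    rw [hF, Polynomial.map_map, hιy]
  have hlcF : ev₀ (F.coeff d) ≠ 0 := by
    have h1 : ev₀ (F.coeff d) = f (Φ.coeff d) := by
      rw [← hιy, hF, coeff_map]
      rfl
    rw [h1]
    exact hlc
  have hne : F.map ev₀ ≠ 0 := by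
    intro h1
    have h2 := congrArg (fun p => p.coeff d) h1
    simp only [coeff_map, coeff_zero] at h2
    exact hlcF h2
  have hTroots : ∀ a ∈ T, a ∈ (F.map ev₀).roots := by
    intro a ha
    obtain ⟨j, -, rfl⟩ := Finset.mem_image.1 ha
    rw [mem_roots hne, IsRoot.def, hFy, eval_map]
    exact hroot j
  have hTle : T.val ≤ (F.map ev₀).roots :=
    (Multiset.le_iff_subset T.nodup).2 hTroots
  have hTeq : T.val = (F.map ev₀).roots := by
    refine Multiset.eq_of_le_of_card_le hTle ?_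
    have h1 := card_roots' (F.map ev₀)
    have h2 : (F.map ev₀).natDegree ≤ d := natDegree_map_le.trans hFd
    rw [Finset.card_val, hTc]
    omega
  have hgoody : Good F d ev₀ := by
    refine ⟨hlcF, ?_, ?_⟩
    · rw [← nodup_roots_iff_of_splits hne (IsAlgClosed.splits _), ← hTeq]
      exact T.nodup
    · intro h1
      have h2 : (0 : ℂ) ∈ (F.map ev₀).roots := by
        rw [mem_roots hne, IsRoot.def, ← coeff_zero_eq_eval_zero, coeff_map]
        exact h1
      rw [← hTeq, Finset.mem_val] at h2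
      obtain ⟨j, -, hj⟩ := Finset.mem_image.1 h2
      exact h0 j hj
  obtain ⟨P, hP, hPgood⟩ := good_of F d hd hFd ev₀ hgoody
  have hP0 : P ≠ 0 := by
    rintro rfl
    exact hP (map_zero _)
  obtain ⟨e, N, hN, hco, hNgood⟩ := exists_goodR (P * ι c') (mul_ne_zero hP0 hc'') N₁ (by omega)
  have hgood : ∀ z : ℂ, z ^ N = 1 → z ≠ 1 → Good F d (evr e z) ∧ evr e z (ι c') ≠ 0 := by
    intro z h1 h2
    have h3 := hNgood z h1 h2
    rw [map_mul] at h3
    exact ⟨hPgood _ (left_ne_zero_of_mul h3), right_ne_zero_of_mul h3⟩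
  obtain ⟨lam, hlam⟩ := exists_ind r
  obtain ⟨ε, hε⟩ : ∃ ε : ℂ, IsPrimitiveRoot ε N := ⟨_, Complex.isPrimitiveRoot_exp N hN.ne_zero⟩
  have hε1 : ε ≠ 1 := hε.ne_one hN.one_lt
  have hε0 : ε ≠ 0 := hε.ne_zero hN.ne_zero
  have hgε := (hgood ε hε.pow_eq_one hε1).1
  have hevψ : ∀ z a, PowerSeries.constantCoeff (psr lam e z a) = evr e z a :=
    fun z a => constantCoeff_psr lam e z a
  have hF0 : F ≠ 0 := by
    rintro h1
    rw [h1, Polynomial.map_zero] at hne
    exact hne rfl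
  set ψ := psr lam e ε with hψ
  have hbr : ∀ B ∈ Br F ψ, ∃ (n : ℕ) (a b : Fin r → ℕ), 1 ≤ n ∧
      B ^ n * ψ (mo b) = ψ (mo a) := by
    intro B hB
    have hB1 := (mem_Br F d ψ (evr e ε) (hevψ ε) hgε B).1 hB
    obtain ⟨κ, β, hκ0, ⟨t, ht, hκt⟩, hBe⟩ := dyn F (A'.map ι) (ι c') d N₁ N (psr lam e) (evr e)
      hevψ θ (fun z a => psr_expand lam e z N₁ a) hFd hN₁2 hdiv hN hco
      hgood ε hε.pow_eq_one hε1 B hB1
    rw [hBe] at hB1 ⊢
    exact branch_mono lam hlam e F hF0 ε κ β N t hN.one_le ht hε.pow_eq_one hκt hB1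
  choose! n a b hn hab using hbr
  set G : (MvPolynomial (Fin r) ℂ)[X] := ∏ B ∈ Br F ψ, (C (mo (b B)) * X ^ (n B) - C (mo (a B)))
    with hG
  have hG0 : ∀ B ∈ Br F ψ, eval₂ ψ B G = 0 := by
    intro B hB
    rw [hG, eval₂_finsetProd]
    refine Finset.prod_eq_zero hB ?_
    rw [eval₂_sub, eval₂_mul, eval₂_C, eval₂_C, eval₂_pow, eval₂_X, mul_comm, hab B hB, sub_self]
  obtain ⟨l', hl'⟩ := exists_boundR F
  obtain ⟨s', hs'⟩ := exists_boundR G
  obtain ⟨A2, hA2⟩ := transfer ψ F G d (G.natDegree + 1) l' s' hd hFd hl' (by omega) hs'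
    (fun p _ hp => (map_eq_zero_iff _ (psr_injective lam hlam e ε hε0)).1 hp) (Br F ψ)
    (card_Br F d ψ (evr e ε) (hevψ ε) hFd hgε)
    (fun B hB => (mem_Br F d ψ (evr e ε) (hevψ ε) hgε B).1 hB) hG0
  have h1 := congrArg (eval₂ ev₀ (α i)) hA2
  have h2 : eval₂ ev₀ (α i) F = 0 := by
    rw [hF, eval₂_map, hιy]
    exact hroot i
  rw [eval₂_mul, eval₂_mul, h2, mul_zero, eval₂_pow, eval₂_C, mul_eq_zero] at h1
  have h3 := h1.resolve_left (pow_ne_zero _ hlcF)
  rw [hG, eval₂_finsetProd, Finset.prod_eq_zero_iff] at h3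
  obtain ⟨B, hB, h4⟩ := h3
  have hmo : ∀ a : Fin r → ℕ, ev₀ (mo a) = ∏ j, y j ^ a j := by
    intro a
    rw [mo, map_prod]
    refine Finset.prod_congr rfl fun j _ => ?_
    rw [map_pow, hev₀, MvPolynomial.eval_X]
  rw [eval₂_sub, eval₂_mul, eval₂_C, eval₂_C, eval₂_pow, eval₂_X, sub_eq_zero, hmo, hmo] at h4
  exact ⟨n B, a B, b B, hn B hB, by rw [mul_comm]; exact h4⟩

end Pool.Agent.H69.BE
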