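import Pool.Agent.H69.BE.SixR
import Pool.Agent.H69.BE.KA
import Pool.Agent.H69.BE.SevenR
import Pool.Agent.H69.BD.Core
import Pool.Agent.H72.BE.Sep

/-!
# THEOREM VR+ (MP_187c26_nt), chapters S6 and S7: few windows near rational positions are enough

Text: constants `q`, `f` from `exists_qf W (K1 b d + ∑ b_i + Q1)`, `Q = q ^ f`, `D = W ^ (r + 1)`, `T = D Q (d + 1) (W + 2) + 2 Q + 2`,
`c = log 2 / (Q d)`. `E_i = m_i / T`. `W a_ji + E_i = k_ji m_i + p_ji`, `0 ≤ p_ji ≤ 2 E_i`. `y_i ^ W = x_i`, `k ∋ β_i = y_i ^ m_i` from `fieldsR`,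
`V_i = ∑ β ^ k_j X ^ p_j v_ij(X ^ W)` of degrees `≤ 2 E + W ℓ`, `Φ = ∑ V_i Z ^ i`. `V_i(y) = y ^ E g c_i`; `sixR` for all conjugates
of `α` over `F` gives `Φ^τ(y ^ Q, α_i ^ Q) = 0`. `sevenR`: `α ^ n y ^ s = y ^ t`. Take the `W ∏ m_i`-th power.
-/

set_option autoImplicit false

open Polynomial NumberField

namespace Pool.Agent.H69.BE

open Pool.Agent.H72.BE

variable {r : ℕ}

/-- The coefficient polynomial `∑ β ^ k_j X ^ p_j v_j (X ^ W)`. -/
noncomputable def VV {A k : Type} [Field A] [Field k] (ι : A →+* k) (β : Fin r → k) (W : ℕ)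
    {R : ℕ} (e p : Fin (R + 1) → Fin r → ℕ) (v : Fin (R + 1) → MvPolynomial (Fin r) A) :
    MvPolynomial (Fin r) k :=
  ∑ j, MvPolynomial.C (mon β (e j)) * (mon MvPolynomial.X (p j) *
    MvPolynomial.expand W (MvPolynomial.map ι (v j)))

theorem VV_aeval {A k S : Type} [Field A] [Field k] [Field S] [Algebra k S] (ι : A →+* k)
    (β : Fin r → k) (W : ℕ) {R : ℕ} (e p : Fin (R + 1) → Fin r → ℕ)
    (v : Fin (R + 1) → MvPolynomial (Fin r) A) (z : Fin r → S) :
    MvPolynomial.aeval z (VV ι β W e p v) = ∑ j, mon (fun i => algebraMap k S (β i)) (e j) *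
      mon z (p j) * MvPolynomial.aeval (fun i => z i ^ W) (MvPolynomial.map ι (v j)) := by
  unfold VV
  rw [map_sum]
  refine Finset.sum_congr rfl fun j _ => ?_
  rw [map_mul, map_mul, MvPolynomial.aeval_C, mon_map, MvPolynomial.aeval_expand, ← mul_assoc]
  congr 2
  unfold mon
  rw [map_prod]
  refine Finset.prod_congr rfl fun i _ => ?_
  rw [map_pow, MvPolynomial.aeval_X]

theorem VV_map {A k : Type} [Field A] [Field k] (ι : A →+* k) (β : Fin r → k) (W : ℕ)
    {R : ℕ} (e p : Fin (R + 1) → Fin r → ℕ) (v : Fin (R + 1) → MvPolynomial (Fin r) A)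
    (τk : k →+* k) (τ : A →+* A) (h : τk.comp ι = ι.comp τ) (hβ : ∀ i, τk (β i) = β i) :
    MvPolynomial.map τk (VV ι β W e p v) = VV ι β W e p (fun j => MvPolynomial.map τ (v j)) := by
  unfold VV
  rw [map_sum]
  refine Finset.sum_congr rfl fun j _ => ?_
  have h1 : τk (mon β (e j)) = mon β (e j) := by
    rw [mon_map]
    simp only [hβ]
  have h2 : MvPolynomial.map τk (mon MvPolynomial.X (p j) : MvPolynomial (Fin r) k) =
      mon MvPolynomial.X (p j) := by
    rw [mon_map]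
    simp only [MvPolynomial.map_X]
  rw [map_mul, map_mul, MvPolynomial.map_C, h1, h2, MvPolynomial.map_expand,
    MvPolynomial.map_map, MvPolynomial.map_map, h]

theorem VV_deg {A k : Type} [Field A] [Field k] (ι : A →+* k) (β : Fin r → k) (W : ℕ)
    {R : ℕ} (e p : Fin (R + 1) → Fin r → ℕ) (v : Fin (R + 1) → MvPolynomial (Fin r) A)
    (l : Fin r → ℕ) (i : Fin r) (h : ∀ j, p j i + W * (v j).degreeOf i ≤ l i) :
    (VV ι β W e p v).degreeOf i ≤ l i := by
  classical
  unfold VV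
  refine (MvPolynomial.degreeOf_sum_le i _ _).trans (Finset.sup_le fun j _ => ?_)
  refine (MvPolynomial.degreeOf_C_mul_le _ _ _).trans
    ((MvPolynomial.degreeOf_mul_le _ _ _).trans ((Nat.add_le_add ?_ ?_).trans (h j)))
  · unfold mon
    refine (MvPolynomial.degreeOf_prod_le _ _ _).trans ?_
    rw [Finset.sum_eq_single i]
    · rw [MvPolynomial.degreeOf_X_self_pow]
    · intro l' _ hne
      exact MvPolynomial.degreeOf_X_pow_of_ne _ (Ne.symm hne)
    · intro h1
      exact absurd (Finset.mem_univ _) h1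
  · rw [MvPolynomial.degreeOf_le_iff]
    intro u hu
    obtain ⟨u', hu', rfl⟩ := Finset.mem_image.1 (MvPolynomial.support_expand_subset _ hu)
    have h2 := MvPolynomial.support_map_subset _ _ hu'
    simp only [Finsupp.smul_apply, smul_eq_mul]
    exact Nat.mul_le_mul_left _ (MvPolynomial.le_degreeOf_of_mem_support i h2)

theorem cf_sumR {F : Type} [Field F] [Algebra F ℂ] (α γ : ℂ) (d : ℕ)
    (hd : (minpoly F α).natDegree = d) (h : aeval γ (minpoly F α) = 0) :
    ∑ i : Fin (d + 1), algebraMap F ℂ (cf F α d i) * γ ^ (i : ℕ) = 0 := by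
  rw [← h, aeval_eq_sum_range' (n := d + 1) (by omega), Finset.sum_range]
  refine Finset.sum_congr rfl fun i _ => ?_
  rw [cf, Algebra.smul_def]

/-- Evaluation over `k` and over `A`. -/
theorem aeval_ι {A F k : Type} [Field A] [Field F] [Algebra A F] [Field k] [Algebra F ℂ]
    [Algebra k ℂ] (ι : A →+* k)
    (hι : ∀ a, algebraMap k ℂ (ι a) = algebraMap F ℂ (algebraMap A F a)) (w : Fin r → F)
    (P : MvPolynomial (Fin r) A) :
    MvPolynomial.aeval (fun i => algebraMap F ℂ (w i)) (MvPolynomial.map ι P) =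
      algebraMap F ℂ (MvPolynomial.aeval w P) := by
  rw [MvPolynomial.aeval_def, MvPolynomial.eval₂_map, MvPolynomial.aeval_def,
    MvPolynomial.hom_eval₂]
  congr 1
  exact RingHom.ext hι

theorem coreR (b : Fin r → ℕ) (d W Q1 : ℕ) (hb : ∀ i, 2 ≤ b i) (hd : 1 ≤ d) (hW : 1 ≤ W) :
    ∃ (q T : ℕ) (c : ℝ), q.Prime ∧ Q1 ≤ q ∧ 0 < c ∧
      ∀ (m : Fin r → ℕ) [∀ i, NeZero (m i)] (n : ℕ) [NeZero n] (A F : Type) [Field A]
        [NumberField A] [Field F] [NumberField F] [Algebra A F] [IsCyclotomicExtension {n} ℚ A]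
        (x : Fin r → F) (_ : Rad b m A F x) [Algebra F ℂ] (α : ℂ),
        ¬ q ∣ n → (∃ σ : A →+* A, Frob A q σ) →
        IsIntegral ℚ α → α ≠ 0 → (minpoly F α).natDegree = d → absLogHeight₁ α ≤ c →
        ∀ (R : ℕ) (ℓ gap : Fin r → ℕ) (a : Fin (R + 1) → Fin r → ℕ)
          (v : Fin (d + 1) → Fin (R + 1) → MvPolynomial (Fin r) A), R ≤ R0 r d →
        Rep m x (cf F α d) ℓ gap a v → (∀ i, T * ℓ i ≤ m i) →
        (∀ j i, ∃ k : ℤ, |(W : ℤ) * a j i - k * m i| * T ≤ m i) →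
        (∀ Q : ℕ, 1 ≤ Q → Q ≤ T →
          (∏ φ : F →+* ℂ, wt b m x a v Q φ) * ctv v ^ (2 * ∏ i, m i) ≤
            ((Cs b d : ℝ) ^ 2) ^ Module.finrank ℚ F) →
        ∃ (k : ℕ) (s t : Fin r → ℕ), 1 ≤ k ∧
          α ^ k * ∏ i, (b i : ℂ) ^ s i = ∏ i, (b i : ℂ) ^ t i := by
  classical
  obtain ⟨q, f, hq, hqM, hf, hQ⟩ := Pool.Agent.H69.BD.exists_qf W (K1 b d + ∑ i, b i + Q1) hW
  set Q := q ^ f with hQdef
  have hQ1 : 1 ≤ Q := Nat.one_le_pow _ _ hq.pos
  have hQ2 : 2 ≤ Q := by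
    calc 2 ≤ q := hq.two_le
      _ = q ^ 1 := (pow_one q).symm
      _ ≤ q ^ f := Nat.pow_le_pow_right hq.pos hf
  have hqW : ¬ q ∣ W := by
    intro h1
    have h2 : q ∣ q ^ f - 1 := (h1.trans (dvd_mul_right W (q - 1))).trans hQ
    have h3 : q ∣ q ^ f := dvd_pow_self q (by omega)
    have h4 : q ∣ 1 := by
      have h5 := Nat.dvd_sub h3 h2
      have h6 : q ^ f - (q ^ f - 1) = 1 := by
        have : 1 ≤ q ^ f := hQ1
        omega
      rwa [h6] at h5
    exact hq.one_lt.ne' (Nat.dvd_one.1 h4)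
  have hqb : ∀ i, ¬ q ∣ b i := fun i hdvd => by
    have h1 := Nat.le_of_dvd (by have := hb i; omega) hdvd
    have h2 : b i ≤ ∑ i, b i := Finset.single_le_sum (fun _ _ => Nat.zero_le _) (Finset.mem_univ i)
    omega
  refine ⟨q, W ^ (r + 1) * (Q * (d + 1) * (W + 2)) + 2 * Q + 2, Real.log 2 / (Q * d), hq, by omega,
    ?_, ?_⟩
  · have h1 : (0 : ℝ) < Q := by exact_mod_cast hQ1
    have h2 : (0 : ℝ) < d := by exact_mod_cast hd
    have h3 := Real.log_pos (show (1 : ℝ) < 2 by norm_num)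
    positivity
  intro m _ n _ A F _ _ _ _ _ _ x h _ α hqn hσ hα hα0 hdeg hh R ℓ gap a v hR hr hℓ hWa hsize
  obtain ⟨T, hT⟩ : ∃ T, T = W ^ (r + 1) * (Q * (d + 1) * (W + 2)) + 2 * Q + 2 := ⟨_, rfl⟩
  rw [← hT] at hℓ hWa hsize
  have hm : ∀ i, 1 ≤ m i := fun i => Nat.pos_of_ne_zero (NeZero.ne _)
  have hT2 : 2 ≤ T := by omega
  obtain ⟨E, hE⟩ : ∃ E : Fin r → ℕ, ∀ i, E i = m i / T := ⟨_, fun _ => rfl⟩
  have hTE : ∀ i, T * E i ≤ m i := fun i => by
    rw [hE]
    exact Nat.mul_div_le (m i) T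
  have hEm : ∀ i, E i < m i := fun i => by
    rw [hE]
    exact Nat.div_lt_self (hm i) (by omega)
  -- the exponents
  have hkp : ∀ j i, ∃ k p : ℕ, W * a j i + E i = k * m i + p ∧ p ≤ 2 * E i := by
    intro j i
    obtain ⟨k, hk⟩ := hWa j i
    have h1 : |(W : ℤ) * a j i - k * m i| ≤ E i := by
      have h2 : |(W : ℤ) * a j i - k * m i| ≤ (m i : ℤ) / (T : ℤ) :=
        (Int.le_ediv_iff_mul_le (by omega)).2 hk
      rw [hE]
      push_cast
      exact h2
    rw [abs_le] at h1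
    have hEm' := hEm i
    have hk0 : 0 ≤ k := by
      by_contra hneg
      push Not at hneg
      have h3 : k * (m i : ℤ) ≤ -1 * m i := mul_le_mul_of_nonneg_right (by omega) (by omega)
      have h4 : (0 : ℤ) ≤ (W : ℤ) * a j i := by positivity
      omega
    obtain ⟨k', rfl⟩ := Int.eq_ofNat_of_zero_le hk0
    refine ⟨k', (W * a j i + E i) - k' * m i, ?_, ?_⟩
    · have h3 : (k' * m i : ℕ) ≤ W * a j i + E i := by
        have h4 : ((k' * m i : ℕ) : ℤ) ≤ ((W * a j i + E i : ℕ) : ℤ) := by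
          push_cast
          linarith
        exact_mod_cast h4
      omega
    · have h4 : ((W * a j i + E i : ℕ) : ℤ) ≤ ((k' * m i + 2 * E i : ℕ) : ℤ) := by
        push_cast
        linarith
      have h5 : W * a j i + E i ≤ k' * m i + 2 * E i := by exact_mod_cast h4
      omega
  choose e p hka hpE using hkp
  have hy : ∀ i, ∃ y : ℂ, y ^ W = algebraMap F ℂ (x i) := fun i =>
    IsAlgClosed.exists_pow_nat_eq (algebraMap F ℂ (x i)) (n := W) hW
  choose y hy using hy
  have hyb : ∀ i, y i ^ (W * m i) = b i := fun i => by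
    rw [pow_mul, hy, ← map_pow, h.pow, map_natCast]
  have hy0 : ∀ i, y i ≠ 0 := by
    intro i h0
    have h1 := hyb i
    rw [h0, zero_pow (Nat.mul_pos hW (hm i)).ne'] at h1
    have h2 : (b i : ℂ) ≠ 0 := by
      have : b i ≠ 0 := by have := hb i; omega
      exact_mod_cast this
    exact h2 h1.symm
  have hintF : IsIntegral F α := hα.tower_top
  have hmonic := minpoly.monic hintF
  -- the conjugates
  set rt := ((minpoly F α).aroots ℂ).toFinset with hrt
  have hirr := minpoly.irreducible hintF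
  have hsep : (minpoly F α).Separable := hirr.separable
  have hcard : rt.card = d := by
    rw [hrt, Multiset.toFinset_card_of_nodup, ← hdeg]
    · rw [aroots_def, ← natDegree_map (algebraMap F ℂ)]
      exact splits_iff_card_roots.1 (IsAlgClosed.splits _)
    · rw [aroots_def]
      exact nodup_roots (hsep.map)
  have hmem : ∀ z : ℂ, z ∈ rt ↔ aeval z (minpoly F α) = 0 := by
    intro z
    rw [hrt, Multiset.mem_toFinset, mem_aroots]
    exact and_iff_right hmonic.ne_zero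
  set ee : Fin d ≃ rt := (Finset.equivFinOfCardEq hcard).symm with hee
  set G : Fin d → ℂ := fun i => (ee i : ℂ) with hG
  have hGinj : Function.Injective G := fun i j hij => ee.injective (Subtype.ext hij)
  have hGroot : ∀ i, aeval (G i) (minpoly F α) = 0 := fun i => (hmem _).1 (ee i).2
  have hG0 : ∀ i, G i ≠ 0 := by
    intro i h0
    have h1 := hGroot i
    rw [h0] at h1
    have h2 : (minpoly F α).coeff 0 = 0 := by
      apply (algebraMap F ℂ).injective
      rw [map_zero, ← h1, aeval_def, eval₂_at_zero]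
    exact minpoly.coeff_zero_ne_zero hintF hα0 h2
  -- the coefficient field
  obtain ⟨σ, hσ⟩ := hσ
  have hτ := frob_pow q σ hσ f
  set τ : A →+* A := σ ^ f with hτdef
  obtain ⟨K, ι, τk, β, n₀, hn₀, hι, hcomm, hβe, hβτ, hyK⟩ :=
    fieldsR h n W q f hW hq hqn hqW hqb hQ y hy τ hτ
  have hι' : ∀ a, algebraMap K ℂ (ι a) = algebraMap F ℂ (algebraMap A F a) := hι
  have hβe' : (fun i => algebraMap K ℂ (β i)) = fun i => y i ^ m i := funext hβe
  set V : Fin (d + 1) → MvPolynomial (Fin r) K := fun i => VV ι β W e p (v i) with hV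
  obtain ⟨l, hl⟩ : ∃ l : Fin r → ℕ, ∀ i, l i = 2 * E i + W * ℓ i := ⟨_, fun _ => rfl⟩
  have hVdeg : ∀ i i', (V i).degreeOf i' ≤ l i' := by
    intro i i'
    refine VV_deg ι β W e p (v i) l i' fun j => ?_
    have h1 := hpE j i'
    have h2 := Nat.mul_le_mul_left W (hr.deg i j i').le
    rw [hl]
    omega
  set Φ : (MvPolynomial (Fin r) K)[X] := ∑ i : Fin (d + 1), C (V i) * X ^ (i : ℕ) with hΦ
  have hcoeff : ∀ n, Φ.coeff n = if hn : n < d + 1 then V ⟨n, hn⟩ else 0 := by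
    intro n
    rw [hΦ, finsetSum_coeff]
    simp only [coeff_C_mul, coeff_X_pow]
    split_ifs with hn
    · rw [Finset.sum_eq_single ⟨n, hn⟩]
      · simp
      · intro j _ hj
        rw [if_neg (fun h => hj (Fin.ext h.symm)), mul_zero]
      · intro h
        exact absurd (Finset.mem_univ _) h
    · refine Finset.sum_eq_zero fun j _ => ?_
      rw [if_neg (by have := j.2; omega), mul_zero]
  have hΦd : Φ.natDegree ≤ d := by
    rw [natDegree_le_iff_coeff_eq_zero]
    intro n hn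
    rw [hcoeff, dif_neg (by omega)]
  have hΦl : ∀ n i, (Φ.coeff n).degreeOf i ≤ l i := by
    intro n i
    rw [hcoeff]
    split_ifs
    · exact hVdeg _ _
    · rw [MvPolynomial.degreeOf_zero]
      exact Nat.zero_le _
  have hΦe : ∀ (θ : MvPolynomial (Fin r) K →+* ℂ) (γ : ℂ), eval₂ θ γ Φ =
      ∑ i : Fin (d + 1), θ (V i) * γ ^ (i : ℕ) := by
    intro θ γ
    rw [hΦ, eval₂_finsetSum]
    refine Finset.sum_congr rfl fun i _ => ?_
    rw [eval₂_mul, eval₂_C, eval₂_pow, eval₂_X]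
  have hyx : (fun i => y i ^ W) = fun i => algebraMap F ℂ (x i) := funext hy
  have hVy : ∀ i, MvPolynomial.aeval y (V i) = mon y E *
      (algebraMap F ℂ (MvPolynomial.aeval x (v (Fin.last d) 0)) * algebraMap F ℂ (cf F α d i)) := by
    intro i
    rw [← rep_baseR (algebraMap F ℂ) y hy (cf F α d) a e p v hr hka i]
    simp only [hV]
    rw [VV_aeval, hβe', hyx]
    refine Finset.sum_congr rfl fun j _ => ?_
    rw [aeval_ι ι hι']
  have hlt : ∀ i, W ^ (r + 1) * (Q * (d + 1) * l i) < m i := by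
    intro i
    have h1 : T * (W ^ (r + 1) * (Q * (d + 1) * l i)) ≤
        W ^ (r + 1) * (Q * (d + 1) * (W + 2)) * m i := by
      have h2 : T * l i ≤ (W + 2) * m i := by
        rw [hl]
        calc T * (2 * E i + W * ℓ i) = 2 * (T * E i) + W * (T * ℓ i) := by ring
          _ ≤ 2 * m i + W * m i := Nat.add_le_add (Nat.mul_le_mul_left _ (hTE i))
            (Nat.mul_le_mul_left _ (hℓ i))
          _ = (W + 2) * m i := by ring
      calc T * (W ^ (r + 1) * (Q * (d + 1) * l i)) = W ^ (r + 1) * (Q * (d + 1)) * (T * l i) := by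
            ring
        _ ≤ W ^ (r + 1) * (Q * (d + 1)) * ((W + 2) * m i) := Nat.mul_le_mul_left _ h2
        _ = W ^ (r + 1) * (Q * (d + 1) * (W + 2)) * m i := by ring
    have h3 : W ^ (r + 1) * (Q * (d + 1) * (W + 2)) * m i < T * m i := by
      refine Nat.mul_lt_mul_of_pos_right ?_ (hm i)
      omega
    exact Nat.lt_of_mul_lt_mul_left (lt_of_le_of_lt h1 h3)
  have hhq : (q : ℝ) ^ f * d * absLogHeight₁ α ≤ Real.log 2 := by
    have h1 : (0 : ℝ) < (q : ℝ) ^ f * d := by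
      have h2 : (0 : ℝ) < q := by exact_mod_cast hq.pos
      have h3 : (0 : ℝ) < d := by exact_mod_cast hd
      positivity
    have h2 : ((Q : ℕ) : ℝ) = (q : ℝ) ^ f := by
      rw [hQdef]
      push_cast
      rfl
    rw [h2, le_div_iff₀ h1] at hh
    linarith
  have hEb : ∀ i, 2 * q ^ f * E i + E i ≤ W * m i := by
    intro i
    rw [← hQdef]
    calc 2 * Q * E i + E i = (2 * Q + 1) * E i := by ring
      _ ≤ T * E i := Nat.mul_le_mul_right _ (by omega)
      _ ≤ m i := hTE i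
      _ ≤ W * m i := Nat.le_mul_of_pos_left _ hW
  have hg0 : algebraMap F ℂ (MvPolynomial.aeval x (v (Fin.last d) 0)) ≠ 0 := by
    rw [Ne, map_eq_zero]
    intro h0
    have hℓm : ∀ i, ℓ i ≤ m i := fun i => by
      calc ℓ i ≤ T * ℓ i := Nat.le_mul_of_pos_left _ (by omega)
        _ ≤ m i := hℓ i
    exact hr.vl0 (h.aeval_eq_zero _ (fun i => lt_of_lt_of_le (hr.deg _ _ _) (hℓm i)) h0)
  have hlast : cf F α d (Fin.last d) = 1 := by
    rw [cf, Fin.val_last, ← hdeg]
    exact hmonic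
  obtain ⟨i0, hi0⟩ : ∃ i, G i = α := by
    refine ⟨ee.symm ⟨α, (hmem α).2 (minpoly.aeval F α)⟩, ?_⟩
    rw [hG]
    simp
  have hyE : mon y E ≠ 0 := by
    unfold mon
    exact Finset.prod_ne_zero_iff.2 fun i _ => pow_ne_zero _ (hy0 i)
  obtain ⟨n', s, t, hn', hfin⟩ := sevenR τk n₀ hn₀ Φ d Q l hd hQ2 hΦd hΦl y
    (fun P hP hP0 => hyK P (fun i => lt_of_le_of_lt (Nat.mul_le_mul_left _ (hP i)) (hlt i)) hP0)
    (by
      rw [hcoeff, dif_pos (by omega)]
      have h2 : (⟨d, by omega⟩ : Fin (d + 1)) = Fin.last d := rfl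
      rw [h2, hVy, hlast, map_one, mul_one]
      exact mul_ne_zero hyE hg0)
    G hGinj hG0
    (by
      intro i
      rw [hΦe]
      have h1 : ∀ j : Fin (d + 1), (MvPolynomial.aeval y :
          MvPolynomial (Fin r) K →ₐ[K] ℂ).toRingHom (V j) * G i ^ (j : ℕ) =
          (mon y E * algebraMap F ℂ (MvPolynomial.aeval x (v (Fin.last d) 0))) *
            (algebraMap F ℂ (cf F α d j) * G i ^ (j : ℕ)) := by
        intro j
        show MvPolynomial.aeval y (V j) * G i ^ (j : ℕ) = _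
        rw [hVy]
        ring
      rw [Finset.sum_congr rfl fun j _ => h1 j, ← Finset.mul_sum,
        cf_sumR α (G i) d hdeg (hGroot i), mul_zero])
    (by
      intro i
      rw [hΦe]
      obtain ⟨hint, hht⟩ := Pool.Agent.H69.BD.conj_height (F := F) α (G i) hα (hGroot i)
      have h1 := sixR (q := q) (f := f) h hW y hy (G i) hint (cf F α d)
        (cf_sumR α (G i) d hdeg (hGroot i)) a e p v hr hR hka hpE hEb hq hqb hQ (by omega) τ hτ
        (hsize Q hQ1 (by omega)) (by rw [hht]; exact hhq)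
      rw [← h1]
      refine Finset.sum_congr rfl fun j _ => ?_
      congr 1
      show MvPolynomial.aeval (fun j => y j ^ Q) (MvPolynomial.map τk (V j)) = _
      simp only [hV]
      rw [VV_map ι β W e p (v j) τk τ hcomm hβτ, VV_aeval, hβe']
      refine Finset.sum_congr rfl fun j' _ => ?_
      congr 1
      · congr 1
        unfold mon
        refine Finset.prod_congr rfl fun i' _ => ?_
        rw [hQdef, ← pow_mul]
      · have h2 : (fun i => (y i ^ Q) ^ W) = fun i => algebraMap F ℂ (x i ^ q ^ f) := by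
          funext i'
          rw [← pow_mul, mul_comm, pow_mul, hy, map_pow, hQdef]
        rw [h2, aeval_ι ι hι'])
    i0
  rw [hi0] at hfin
  obtain ⟨M, hM⟩ : ∃ M, M = ∏ i, m i := ⟨_, rfl⟩
  have hM0 : 1 ≤ M := by
    rw [hM]
    exact Nat.pos_of_ne_zero (Finset.prod_ne_zero_iff.2 fun i _ => NeZero.ne (m i))
  have hMd : ∀ i, m i ∣ M := fun i => by
    rw [hM]
    exact Finset.dvd_prod_of_mem _ (Finset.mem_univ i)
  have hyM : ∀ (u : Fin r → ℕ), (∏ j, y j ^ u j) ^ (W * M) =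
      ∏ j, (b j : ℂ) ^ (u j * (M / m j)) := by
    intro u
    rw [← Finset.prod_pow]
    refine Finset.prod_congr rfl fun j _ => ?_
    have h1 : W * M = W * m j * (M / m j) := by
      rw [mul_assoc, Nat.mul_div_cancel' (hMd j)]
    rw [← pow_mul, mul_comm (u j), h1, mul_assoc (W * m j), pow_mul, hyb, mul_comm (M / m j)]
  refine ⟨n' * (W * M), fun j => t j * (M / m j), fun j => s j * (M / m j),
    Nat.mul_pos hn' (Nat.mul_pos hW hM0), ?_⟩
  have h1 : (α ^ n' * ∏ j, y j ^ t j) ^ (W * M) = (∏ j, y j ^ s j) ^ (W * M) := by rw [hfin]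
  rw [mul_pow, ← pow_mul, hyM, hyM] at h1
  exact h1

end Pool.Agent.H69.BE
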