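import Pool.Agent.H72.BE.Near
import Pool.Agent.H69.BE.CoreR

/-!
# THEOREM VR+ (MP_187c26_nt): the core for `r ≥ 1` radicals

Text: constants `Q1`, `W` from `near`; `q ≥ Q1` prime, `T`, `c` from `coreR`; `N`, `c` from `near` for this `T`, `N ≥ q`. `near` gives
`α ^ n` with a representation with few windows near rational positions, `coreR` (S6 and S7) gives the relation.
-/

set_option autoImplicit false

open NumberField

namespace Pool.Agent.H69.BE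

open Pool.Agent.H72.BE

theorem topR {r : ℕ} (hr1 : 1 ≤ r) (b : Fin r → ℕ) (d : ℕ) (hb : ∀ i, 2 ≤ b i)
    (hc : ∀ i j, i ≠ j → Nat.Coprime (b i) (b j)) (hd : 1 ≤ d) :
    ∃ (Q1 N : ℕ) (c : ℝ), 2 ^ (d + 3) ≤ Q1 ∧ 1 ≤ N ∧ 0 < c ∧
      ∀ (m : Fin r → ℕ) [∀ i, NeZero (m i)] (n : ℕ) [NeZero n] (A F : Type) [Field A]
        [NumberField A] [Field F] [NumberField F] [Algebra A F] [IsCyclotomicExtension {n} ℚ A]
        (x : Fin r → F) (h : Rad b m A F x) [Algebra F ℂ] (α : ℂ),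
        IsIntegral ℚ α → α ≠ 0 → (∀ i, N ≤ m i) →
        (∀ j, 1 ≤ j → j ≤ N → (minpoly F (α ^ j)).natDegree = d) →
        absLogHeight₁ α ≤ c →
        ((h.zx.relIndex (Pool.Agent.H72.BD.ints F) : ℝ) ≤
          Real.exp (c * Module.finrank ℚ F)) →
        (∀ p : ℕ, p.Prime → Q1 ≤ p → p ≤ N → ¬ p ∣ n ∧ ∃ σ : A →+* A, Frob A p σ) →
        ∃ (k : ℕ) (s t : Fin r → ℕ), 1 ≤ k ∧
          α ^ k * ∏ i, (b i : ℂ) ^ s i = ∏ i, (b i : ℂ) ^ t i := by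
  obtain ⟨Q1, W, hQd, hW, hnear⟩ := near hr1 b d hb hc hd
  obtain ⟨q, T, c0, hq, hQ1q, hc0, hcore⟩ := coreR b d W Q1 hb hd hW
  obtain ⟨N1, c1, hN1, hc1, hN⟩ := hnear T
  have hN1r : (1 : ℝ) ≤ N1 := by exact_mod_cast hN1
  have hN1p : (0 : ℝ) < N1 := by linarith
  refine ⟨Q1, max N1 q, min c1 (c0 / N1), hQd, le_max_of_le_left hN1, lt_min hc1 (div_pos hc0 hN1p), ?_⟩
  intro m _ n _ A F _ _ _ _ _ _ x h _ α hα hα0 hm hdeg hh hidx hfr
  obtain ⟨n1, R, ℓ, gap, a, v, hn1, hn1N, hR, hr, hℓ, hWa, hsize⟩ := hN m A F x h ℂ α hα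
    (fun i => (le_max_left _ _).trans (hm i))
    (fun j hj hjN => hdeg j hj (hjN.trans (le_max_left _ _))) (hh.trans (min_le_left _ _))
    (hidx.trans (Real.exp_le_exp.2 (mul_le_mul_of_nonneg_right (min_le_left _ _)
      (Nat.cast_nonneg _))))
    (fun p hp h1 h2 => (hfr p hp h1 (h2.trans (le_max_left _ _))).2)
  have hfq := hfr q hq hQ1q (le_max_right _ _)
  have hh' : absLogHeight₁ (α ^ n1) ≤ c0 := by
    rw [Pool.Agent.H4.RR.absLogHeight_pow ℂ α hα n1]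
    have h1 : (n1 : ℝ) ≤ N1 := by exact_mod_cast hn1N
    have h2 : absLogHeight₁ α ≤ c0 / N1 := hh.trans (min_le_right _ _)
    calc (n1 : ℝ) * absLogHeight₁ α ≤ n1 * (c0 / N1) :=
          mul_le_mul_of_nonneg_left h2 (Nat.cast_nonneg _)
      _ ≤ N1 * (c0 / N1) := mul_le_mul_of_nonneg_right h1 (div_pos hc0 hN1p).le
      _ = c0 := by field_simp
  obtain ⟨k, s, t, hk, hst⟩ := hcore m n A F x h (α ^ n1) hfq.1 hfq.2 (hα.pow _)
    (pow_ne_zero _ hα0) (hdeg n1 hn1 (hn1N.trans (le_max_left _ _))) hh' R ℓ gap a v hR hr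
    (fun i => (hℓ i).2) hWa hsize
  exact ⟨n1 * k, s, t, Nat.mul_pos hn1 hk, by rw [pow_mul]; exact hst⟩

end Pool.Agent.H69.BE
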