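import Pool.Agent.H69.BE.TowR

/-!
# THEOREM VR+ (MP_187c26_nt), chapter S6: the field of the `n W`-th roots of unity and the `W`-th roots of the `b_i`

`k` is the splitting field of `(X ^ (n W) - 1) ∏ (X ^ W - b_i)` in `ℂ`. It is Galois over `ℚ`, and `[k : ℚ] ≤ W ^ (r + 1) [E : ℚ]` for every number
field `E ⊂ ℂ` which contains the `n`-th roots of unity.
-/

set_option autoImplicit false

open IntermediateField Module Polynomial

namespace Pool.Agent.H69.BE

theorem exists_k {r : ℕ} (n W : ℕ) (hn : 1 ≤ n) (hW : 1 ≤ W) (b : Fin r → ℕ) (hb : ∀ i, b i ≠ 0) :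
    ∃ k : IntermediateField ℚ ℂ, FiniteDimensional ℚ k ∧ IsGalois ℚ k ∧
      (∀ z : ℂ, z ^ (n * W) = 1 → z ∈ k) ∧ (∀ i (z : ℂ), z ^ W = b i → z ∈ k) ∧
      ∀ E : IntermediateField ℚ ℂ, FiniteDimensional ℚ E → (∀ z : ℂ, z ^ n = 1 → z ∈ E) →
        finrank ℚ k ≤ W ^ (r + 1) * finrank ℚ E := by
  classical
  have hnW : n * W ≠ 0 := (Nat.mul_pos hn hW).ne'
  set P : ℚ[X] := (X ^ (n * W) - C 1) * ∏ i, (X ^ W - C (b i : ℚ)) with hP
  have hP0 : P ≠ 0 := by
    refine mul_ne_zero (monic_X_pow_sub_C _ hnW).ne_zero (Finset.prod_ne_zero_iff.2 fun i _ => ?_)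
    exact (monic_X_pow_sub_C _ (by omega)).ne_zero
  have hroot : ∀ z : ℂ, z ∈ P.rootSet ℂ ↔ z ^ (n * W) = 1 ∨ ∃ i, z ^ W = b i := by
    intro z
    rw [mem_rootSet_of_ne hP0, hP, map_mul, map_prod, mul_eq_zero, Finset.prod_eq_zero_iff]
    simp only [map_sub, map_pow, aeval_X, sub_eq_zero, Finset.mem_univ, true_and, map_one,
      map_natCast]
  set k : IntermediateField ℚ ℂ := adjoin ℚ (P.rootSet ℂ) with hk
  have hsplit : (P.map (algebraMap ℚ ℂ)).Splits := IsAlgClosed.splits _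
  have hsf : IsSplittingField ℚ k P := adjoin_rootSet_isSplittingField hsplit
  have hfd : FiniteDimensional ℚ k := IsSplittingField.finiteDimensional k P
  have hnorm : Normal ℚ k := Normal.of_isSplittingField P
  have hgal : IsGalois ℚ k := ⟨⟩
  refine ⟨k, hfd, hgal, ?_, ?_, ?_⟩
  · intro z hz
    exact subset_adjoin ℚ _ ((hroot z).2 (Or.inl hz))
  · intro i z hz
    exact subset_adjoin ℚ _ ((hroot z).2 (Or.inr ⟨i, hz⟩))
  · intro E hE hEn
    obtain ⟨ζ, hζ⟩ : ∃ ζ : ℂ, IsPrimitiveRoot ζ (n * W) := ⟨_, Complex.isPrimitiveRoot_exp _ hnW⟩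
    have hβ : ∀ i, ∃ β : ℂ, β ^ W = b i := fun i =>
      IsAlgClosed.exists_pow_nat_eq (b i : ℂ) (n := W) hW
    choose β hβ using hβ
    obtain ⟨L, hEL, hyL, hfL, hle, -⟩ := tower E (r + 1) (Fin.cons ζ β) (fun _ => W)
      (fun _ => hW) (by
        intro i
        refine Fin.cases ?_ (fun i => ?_) i
        · rw [Fin.cons_zero]
          refine hEn _ ?_
          rw [← pow_mul, mul_comm, hζ.pow_eq_one]
        · rw [Fin.cons_succ, hβ]
          exact _root_.natCast_mem E _)
    have hζL : ζ ∈ L := hyL 0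
    have hβL : ∀ i, β i ∈ L := fun i => hyL i.succ
    have hroots : ∀ z : ℂ, z ^ (n * W) = 1 → z ∈ L := by
      intro z hz
      have : NeZero (n * W) := ⟨hnW⟩
      obtain ⟨j, -, hj⟩ := hζ.eq_pow_of_pow_eq_one hz
      rw [← hj]
      exact pow_mem hζL _
    have hkL : k ≤ L := by
      rw [hk, adjoin_le_iff]
      intro z hz
      rcases (hroot z).1 hz with h1 | ⟨i, h1⟩
      · exact hroots z h1
      · have hb0 : (b i : ℂ) ≠ 0 := by exact_mod_cast hb i
        have hβ0 : β i ≠ 0 := by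
          intro h0
          have h2 := hβ i
          rw [h0, zero_pow (by omega)] at h2
          exact hb0 h2.symm
        have h2 : (z / β i) ^ (n * W) = 1 := by
          rw [mul_comm, pow_mul, div_pow, h1, hβ, div_self hb0, one_pow]
        have h3 := mul_mem (hroots _ h2) (hβL i)
        rwa [div_mul_cancel₀ _ hβ0] at h3
    have h1 : finrank ℚ k ≤ finrank ℚ L := by
      exact LinearMap.finrank_le_finrank_of_injective (f := (inclusion hkL).toLinearMap)
        (inclusion hkL).injective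
    refine h1.trans (hle.trans (le_of_eq ?_))
    rw [Finset.prod_const, Finset.card_univ, Fintype.card_fin, mul_comm]

end Pool.Agent.H69.BE
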