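import Pool.Agent.H69.BD.Rat

/-!
# THEOREM VR+ (MP_187c26_nt), chapter S7: the homomorphism `X_i ↦ z ^ (e_i) exp (lam_i u)`

`psr lam e z : ℂ[X_1, …, X_r] → ℂ⟦u⟧`; it is injective if the `lam_i` are linearly independent over `ℚ` (`Ind lam`).
`rat`: if `κ exp (β u)` is a root of `Φ ≠ 0` then `n β = ∑ (a_i - b_i) lam_i`, `n ≥ 1`. `branch_mono`: then a power of it is a monomial.
-/

set_option autoImplicit false

open Polynomial

namespace Pool.Agent.H69.BE

open Pool.Agent.H69.BD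

variable {r : ℕ}

/-- The linear combination of the `lam_i`. -/
noncomputable def lc (lam : Fin r → ℂ) (a : Fin r → ℕ) : ℂ := ∑ i, (a i : ℂ) * lam i

/-- Independence. -/
def Ind (lam : Fin r → ℂ) : Prop := ∀ a b : Fin r → ℕ, lc lam a = lc lam b → a = b

theorem exists_ind (r : ℕ) : ∃ lam : Fin r → ℂ, Ind lam := by
  have h1 : (r : Cardinal) ≤ Module.rank ℚ ℂ := by
    rw [Complex.rank_rat_complex]
    exact (Cardinal.natCast_lt_aleph0.le).trans Cardinal.aleph0_le_continuum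
  obtain ⟨lam, hlam⟩ := exists_linearIndependent_of_le_rank h1
  refine ⟨lam, fun a b hab => ?_⟩
  have h2 : ∑ i, ((a i : ℚ) - (b i : ℚ)) • lam i = 0 := by
    have h3 : ∀ i, ((a i : ℚ) - (b i : ℚ)) • lam i = (a i : ℂ) * lam i - (b i : ℂ) * lam i := by
      intro i
      rw [Algebra.smul_def]
      simp
      ring
    rw [Finset.sum_congr rfl fun i _ => h3 i, Finset.sum_sub_distrib]
    exact sub_eq_zero.2 hab
  have h4 := Fintype.linearIndependent_iff.1 hlam _ h2
  funext i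
  have h5 := h4 i
  have h6 : (a i : ℚ) = b i := sub_eq_zero.1 h5
  exact_mod_cast h6

theorem lc_add (lam : Fin r → ℂ) (a b : Fin r → ℕ) : lc lam (a + b) = lc lam a + lc lam b := by
  unfold lc
  rw [← Finset.sum_add_distrib]
  exact Finset.sum_congr rfl fun i _ => by rw [Pi.add_apply]; push_cast; ring

theorem lc_smul (lam : Fin r → ℂ) (n : ℕ) (a : Fin r → ℕ) :
    lc lam (fun i => n * a i) = n * lc lam a := by
  unfold lc
  rw [Finset.mul_sum]
  exact Finset.sum_congr rfl fun i _ => by push_cast; ring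

/-- `X_i ↦ z ^ (e_i) exp (lam_i u)`. -/
noncomputable def psr (lam : Fin r → ℂ) (e : Fin r → ℕ) (z : ℂ) :
    MvPolynomial (Fin r) ℂ →+* PowerSeries ℂ :=
  MvPolynomial.eval₂Hom (PowerSeries.C (R := ℂ)) (fun i => PowerSeries.C (z ^ e i) * ex (lam i))

/-- Evaluation at `z ^ (e_i)`. -/
noncomputable def evr (e : Fin r → ℕ) (z : ℂ) : MvPolynomial (Fin r) ℂ →+* ℂ :=
  MvPolynomial.eval (fun i => z ^ e i)

theorem ex_prod (lam : Fin r → ℂ) (a : Fin r → ℕ) : ∏ i, ex (lam i) ^ a i = ex (lc lam a) := by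
  classical
  unfold lc
  have h : ∀ s : Finset (Fin r), ∏ i ∈ s, ex (lam i) ^ a i = ex (∑ i ∈ s, (a i : ℂ) * lam i) := by
    intro s
    induction s using Finset.induction_on with
    | empty => rw [Finset.prod_empty, Finset.sum_empty, ex_zero]
    | insert i s hi ih =>
      rw [Finset.prod_insert hi, Finset.sum_insert hi, ih, ex_pow, ex_mul]
  exact h _

theorem psr_mono (lam : Fin r → ℂ) (e : Fin r → ℕ) (z : ℂ) (a : Fin r → ℕ) :
    ∏ i, (PowerSeries.C (z ^ e i) * ex (lam i)) ^ a i =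
      PowerSeries.C (z ^ (∑ i, e i * a i)) * ex (lc lam a) := by
  have h1 : ∀ i, (PowerSeries.C (z ^ e i) * ex (lam i)) ^ a i =
      PowerSeries.C (z ^ (e i * a i)) * ex (lam i) ^ a i := by
    intro i
    rw [mul_pow, ← map_pow, ← pow_mul]
  rw [Finset.prod_congr rfl fun i _ => h1 i, Finset.prod_mul_distrib, ex_prod, ← map_prod,
    Finset.prod_pow_eq_pow_sum]

theorem psr_apply (lam : Fin r → ℂ) (e : Fin r → ℕ) (z : ℂ) (p : MvPolynomial (Fin r) ℂ) :
    psr lam e z p = ∑ m ∈ p.support, PowerSeries.C (p.coeff m * z ^ (∑ i, e i * m i)) *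
      ex (lc lam m) := by
  rw [psr, MvPolynomial.coe_eval₂Hom, MvPolynomial.eval₂_eq']
  refine Finset.sum_congr rfl fun m _ => ?_
  rw [psr_mono, map_mul, mul_assoc]

theorem constantCoeff_psr (lam : Fin r → ℂ) (e : Fin r → ℕ) (z : ℂ) (p : MvPolynomial (Fin r) ℂ) :
    PowerSeries.constantCoeff (psr lam e z p) = evr e z p := by
  rw [psr_apply, map_sum, evr, MvPolynomial.eval_eq']
  refine Finset.sum_congr rfl fun m _ => ?_
  rw [map_mul, constantCoeff_ex, mul_one, PowerSeries.constantCoeff_C]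
  congr 1
  rw [← Finset.prod_pow_eq_pow_sum]
  exact Finset.prod_congr rfl fun i _ => pow_mul _ _ _

theorem psr_injective (lam : Fin r → ℂ) (hlam : Ind lam) (e : Fin r → ℕ) (z : ℂ) (hz : z ≠ 0) :
    Function.Injective (psr lam e z) := by
  classical
  rw [injective_iff_map_eq_zero]
  intro p hp
  rw [psr_apply] at hp
  have h := exp_indep_fam p.support (fun m => p.coeff m * z ^ (∑ i, e i * m i))
    (fun m => lc lam m) (fun m _ m' _ h => DFunLike.coe_injective (hlam _ _ h)) hp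
  by_contra hne
  obtain ⟨m, hm⟩ := MvPolynomial.support_nonempty.2 hne
  exact mul_ne_zero (MvPolynomial.mem_support_iff.1 hm) (pow_ne_zero _ hz) (h m hm)

theorem psr_expand (lam : Fin r → ℂ) (e : Fin r → ℕ) (z : ℂ) (Q : ℕ) (p : MvPolynomial (Fin r) ℂ) :
    psr lam e z (MvPolynomial.expand Q p) = PowerSeries.rescale (Q : ℂ) (psr lam e (z ^ Q) p) := by
  have h : (psr lam e z).comp ((MvPolynomial.expand Q : MvPolynomial (Fin r) ℂ →ₐ[ℂ] _) :
      MvPolynomial (Fin r) ℂ →+* MvPolynomial (Fin r) ℂ) =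
      (PowerSeries.rescale (Q : ℂ)).comp (psr lam e (z ^ Q)) := by
    apply MvPolynomial.ringHom_ext
    · intro a
      simp only [RingHom.comp_apply, RingHom.coe_coe, MvPolynomial.expand_C, psr,
        MvPolynomial.coe_eval₂Hom, MvPolynomial.eval₂_C]
      rw [rescale_C]
    · intro i
      simp only [RingHom.comp_apply, RingHom.coe_coe, MvPolynomial.expand_X, psr,
        MvPolynomial.coe_eval₂Hom, MvPolynomial.eval₂_X, MvPolynomial.eval₂_pow, map_mul]
      rw [mul_pow, ex_pow, ex_rescale, rescale_C, ← map_pow, ← pow_mul, ← pow_mul, mul_comm (e i) Q]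
  exact congrArg (fun g => g p) h

theorem rat (lam : Fin r → ℂ) (hlam : Ind lam) (e : Fin r → ℕ)
    (Φ : (MvPolynomial (Fin r) ℂ)[X]) (hΦ : Φ ≠ 0) (z κ β : ℂ) (hz : z ≠ 0) (hκ : κ ≠ 0)
    (h : eval₂ (psr lam e z) (PowerSeries.C κ * ex β) Φ = 0) :
    ∃ (n : ℕ) (a b : Fin r → ℕ), 1 ≤ n ∧ (n : ℂ) * β = lc lam a - lc lam b := by
  classical
  by_contra hno
  push Not at hno
  set s : Finset (Σ _ : ℕ, Fin r →₀ ℕ) := (Finset.range (Φ.natDegree + 1)).sigma
    (fun k => (Φ.coeff k).support) with hs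
  have hsum : ∑ p ∈ s, PowerSeries.C ((Φ.coeff p.1).coeff p.2 * z ^ (∑ i, e i * p.2 i) * κ ^ p.1) *
      ex (lc lam p.2 + p.1 * β) = 0 := by
    rw [← h, eval₂_eq_sum_range, hs, Finset.sum_sigma]
    refine Finset.sum_congr rfl fun k hk => ?_
    rw [psr_apply, mul_pow, ex_pow, ← map_pow, Finset.sum_mul]
    refine Finset.sum_congr rfl fun m _ => ?_
    rw [← ex_mul]
    rw [map_mul (PowerSeries.C (R := ℂ)) ((Φ.coeff k).coeff m * z ^ (∑ i, e i * m i))]
    ring
  have hz0 := exp_indep_fam s _ _ ?_ hsum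
  · apply hΦ
    ext k m
    rw [coeff_zero, MvPolynomial.coeff_zero]
    by_contra hne
    have hk : Φ.coeff k ≠ 0 := fun h0 => hne (by rw [h0, MvPolynomial.coeff_zero])
    have hk1 : k ∈ Finset.range (Φ.natDegree + 1) := by
      rw [Finset.mem_range]
      have := le_natDegree_of_ne_zero hk
      omega
    have h1 := hz0 ⟨k, m⟩ (Finset.mem_sigma.2 ⟨hk1, MvPolynomial.mem_support_iff.2 hne⟩)
    exact mul_ne_zero (mul_ne_zero hne (pow_ne_zero _ hz)) (pow_ne_zero _ hκ) h1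
  · rintro ⟨k, m⟩ _ ⟨k', m'⟩ _ heq
    simp only at heq
    rcases lt_trichotomy k k' with hk | hk | hk
    · exfalso
      apply hno (k' - k) m m' (by omega)
      rw [Nat.cast_sub hk.le]
      linear_combination -heq
    · subst hk
      have h1 : lc lam m = lc lam m' := by linear_combination heq
      rw [DFunLike.coe_injective (hlam _ _ h1)]
    · exfalso
      apply hno (k - k') m' m (by omega)
      rw [Nat.cast_sub hk.le]
      linear_combination heq

/-- The monomial with exponent `a`. -/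
noncomputable def mo (a : Fin r → ℕ) : MvPolynomial (Fin r) ℂ := ∏ i, MvPolynomial.X i ^ a i

theorem psr_mo (lam : Fin r → ℂ) (e : Fin r → ℕ) (z : ℂ) (a : Fin r → ℕ) :
    psr lam e z (mo a) = PowerSeries.C (z ^ (∑ i, e i * a i)) * ex (lc lam a) := by
  rw [← psr_mono, mo, map_prod]
  refine Finset.prod_congr rfl fun i _ => ?_
  rw [map_pow, psr, MvPolynomial.coe_eval₂Hom, MvPolynomial.eval₂_X]

theorem branch_mono (lam : Fin r → ℂ) (hlam : Ind lam) (e : Fin r → ℕ)
    (Φ : (MvPolynomial (Fin r) ℂ)[X]) (hΦ : Φ ≠ 0) (z κ β : ℂ) (N t : ℕ) (hN : 1 ≤ N)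
    (ht : 1 ≤ t) (hz : z ^ N = 1) (hκ : κ ^ t = 1)
    (h : eval₂ (psr lam e z) (PowerSeries.C κ * ex β) Φ = 0) :
    ∃ (n : ℕ) (a b : Fin r → ℕ), 1 ≤ n ∧ (PowerSeries.C κ * ex β) ^ n * psr lam e z (mo b) =
      psr lam e z (mo a) := by
  have hz0 : z ≠ 0 := by
    rintro rfl
    rw [zero_pow (by omega)] at hz
    exact zero_ne_one hz
  have hκ0 : κ ≠ 0 := by
    rintro rfl
    rw [zero_pow (by omega)] at hκ
    exact zero_ne_one hκ
  obtain ⟨n, a, b, hn, hab⟩ := rat lam hlam e Φ hΦ z κ β hz0 hκ0 h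
  have hX : ∀ c : Fin r → ℕ, psr lam e z (mo (fun i => (t * N) * c i)) =
      ex ((t * N : ℕ) * lc lam c) := by
    intro c
    rw [psr_mo, lc_smul]
    have h1 : ∑ i, e i * (t * N * c i) = N * (t * ∑ i, e i * c i) := by
      rw [Finset.mul_sum, Finset.mul_sum]
      exact Finset.sum_congr rfl fun i _ => by ring
    rw [h1, pow_mul, hz, one_pow, map_one, one_mul]
  refine ⟨n * (t * N), fun i => (t * N) * a i, fun i => (t * N) * b i,
    Nat.mul_pos hn (Nat.mul_pos ht hN), ?_⟩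
  rw [hX, hX, mul_pow, ex_pow, ← map_pow]
  have h1 : κ ^ (n * (t * N)) = 1 := by
    rw [show n * (t * N) = t * (n * N) by ring, pow_mul, hκ, one_pow]
  rw [h1, map_one, one_mul, ex_mul]
  congr 1
  push_cast
  linear_combination (t : ℂ) * N * hab

end Pool.Agent.H69.BE
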