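import Pool.Agent.H72.BE.Co
import Pool.Agent.H69.BD.Bnd
import Pool.Agent.H69.BD.Cng
import Pool.Agent.H69.BE.ClP

/-!
# THEOREM VR+ (MP_187c26_nt), chapter S6: sizes and the congruence, several variables

Text: `z_i ^ (W m_i) = b_i`, `W a_ji + E_i = k_ji m_i + p_ji`, `p_ji ≤ 2 E_i`, `(2 Q + 1) E_i ≤ W m_i`:
`|z_i| ^ (m_i k_ji + Q p_ji) ≤ |z_i| ^ (W a_ji) |z_i| ^ (W m_i) = ρ_i ^ a_ji b_i`. Cauchy–Schwarz for `(d + 1) (R + 1)` terms.
-/

set_option autoImplicit false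

namespace Pool.Agent.H69.BE

open Pool.Agent.H72.BE
open Pool.Agent.H69.BD (norm_ge_one Cgr cgr_beta)

variable {r : ℕ}

theorem rho_eqR (b m : Fin r → ℕ) (W : ℕ) (hb : ∀ i, 2 ≤ b i) (hm : ∀ i, 1 ≤ m i) (z : Fin r → ℂ)
    (hz : ∀ i, z i ^ (W * m i) = b i) (i : Fin r) : rho b m i = ‖z i‖ ^ W := by
  have h1 : rho b m i ^ m i = b i := rho_pow i (by have := hm i; omega)
  have h2 : (‖z i‖ ^ W) ^ m i = b i := by
    rw [← pow_mul, ← norm_pow, hz, Complex.norm_natCast]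
  have h3 : 0 ≤ rho b m i := (rho_pos hb i).le
  exact (pow_left_inj₀ h3 (by positivity) (by have := hm i; omega : m i ≠ 0)).1 (h1.trans h2.symm)

theorem norm_Y {R : ℕ} (b m : Fin r → ℕ) (W Q : ℕ) (E : Fin r → ℕ) (hb : ∀ i, 2 ≤ b i)
    (hm : ∀ i, 1 ≤ m i) (hW : 1 ≤ W) (a k p : Fin (R + 1) → Fin r → ℕ) (z : Fin r → ℂ)
    (hz : ∀ i, z i ^ (W * m i) = b i) (hka : ∀ j i, W * a j i + E i = k j i * m i + p j i)
    (hpE : ∀ j i, p j i ≤ 2 * E i) (hE : ∀ i, 2 * Q * E i + E i ≤ W * m i) (j : Fin (R + 1)) :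
    ‖mon (fun i => z i ^ m i) (k j) * mon z (fun i => Q * p j i)‖ ≤ Bb b * rw b m (a j) := by
  unfold rw Bb mon
  rw [Nat.cast_prod, ← Finset.prod_mul_distrib, ← Finset.prod_mul_distrib, norm_prod]
  refine Finset.prod_le_prod (fun i _ => norm_nonneg _) fun i _ => ?_
  have hz1 := norm_ge_one (b i) (W * m i) (by have := hb i; omega) (z i) (hz i)
    (Nat.mul_pos hW (hm i))
  have hzb : ‖z i‖ ^ (W * m i) = b i := by rw [← norm_pow, hz, Complex.norm_natCast]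
  rw [norm_mul, norm_pow, norm_pow, norm_pow, ← pow_mul, ← pow_add, rho_eqR b m W hb hm z hz i,
    ← hzb, ← pow_mul, ← pow_add]
  refine pow_le_pow_right₀ hz1 ?_
  have h3 := hka j i
  have h4 := Nat.mul_le_mul_left Q (hpE j i)
  have h5 : m i * k j i = k j i * m i := mul_comm _ _
  have h6 : Q * (2 * E i) = 2 * Q * E i := by ring
  have h7 := hE i
  show m i * k j i + Q * p j i ≤ W * m i + W * a j i
  omega

theorem sum_leR {R : ℕ} (b m : Fin r → ℕ) (d : ℕ) (hb : ∀ i, 2 ≤ b i) (hR : R ≤ R0 r d)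
    (a : Fin (R + 1) → Fin r → ℕ) (Y : Fin (R + 1) → ℂ) (hY : ∀ j, ‖Y j‖ ≤ Bb b * rw b m (a j))
    (g : Fin (d + 1) → Fin (R + 1) → ℂ) :
    ∑ i, ‖∑ j, Y j * g i j‖ ≤
      Bb b * (d + 1) * (R0 r d + 1) * √(∑ i, ∑ j, rw b m (a j) ^ 2 * ‖g i j‖ ^ 2) := by
  have hb0 : (0 : ℝ) ≤ Bb b := Nat.cast_nonneg _
  have hrw : ∀ j, 0 ≤ rw b m (a j) := fun j => zero_le_one.trans (one_le_rw hb _)
  set y : Fin (d + 1) → Fin (R + 1) → ℝ := fun i j => rw b m (a j) * ‖g i j‖ with hy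
  have hy0 : ∀ i j, 0 ≤ y i j := fun i j => mul_nonneg (hrw j) (norm_nonneg _)
  have h2 : ∑ i, ‖∑ j, Y j * g i j‖ ≤ Bb b * ∑ i, ∑ j, y i j := by
    rw [Finset.mul_sum]
    refine Finset.sum_le_sum fun i _ => ?_
    rw [Finset.mul_sum]
    refine (norm_sum_le _ _).trans (Finset.sum_le_sum fun j _ => ?_)
    rw [norm_mul, hy]
    simp only
    rw [← mul_assoc]
    exact mul_le_mul_of_nonneg_right (hY j) (norm_nonneg _)
  refine h2.trans ?_
  rw [mul_assoc, mul_assoc]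
  refine mul_le_mul_of_nonneg_left ?_ hb0
  rw [← mul_assoc]
  obtain ⟨w, hw⟩ : ∃ w, w = ∑ i, ∑ j, rw b m (a j) ^ 2 * ‖g i j‖ ^ 2 := ⟨_, rfl⟩
  rw [← hw]
  have hwt : w = ∑ q : Fin (d + 1) × Fin (R + 1), y q.1 q.2 ^ 2 := by
    rw [hw, Fintype.sum_prod_type]
    refine Finset.sum_congr rfl fun i _ => Finset.sum_congr rfl fun j _ => ?_
    simp only [hy]
    ring
  have hs : ∑ i, ∑ j, y i j = ∑ q : Fin (d + 1) × Fin (R + 1), y q.1 q.2 := by
    rw [Fintype.sum_prod_type]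
  have hcs : (∑ q : Fin (d + 1) × Fin (R + 1), y q.1 q.2) ^ 2 ≤ ((d + 1 : ℝ) * (R + 1)) * w := by
    rw [hwt]
    have := sq_sum_le_card_mul_sum_sq (s := (Finset.univ : Finset (Fin (d + 1) × Fin (R + 1))))
      (f := fun q => y q.1 q.2)
    rw [Finset.card_univ, Fintype.card_prod, Fintype.card_fin, Fintype.card_fin] at this
    push_cast at this
    exact this
  have hw0 : 0 ≤ w := by
    rw [hwt]
    exact Finset.sum_nonneg fun _ _ => sq_nonneg _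
  rw [hs]
  have hRR : (R : ℝ) ≤ (R0 r d : ℝ) := by exact_mod_cast hR
  refine le_of_sq_le_sq (hcs.trans ?_) (by positivity)
  rw [mul_pow, Real.sq_sqrt hw0]
  refine mul_le_mul_of_nonneg_right ?_ hw0
  have h4 : (1 : ℝ) ≤ (d + 1 : ℝ) * (R0 r d + 1) := by
    have h5 : (0 : ℝ) ≤ d := Nat.cast_nonneg d
    have h6 : (0 : ℝ) ≤ R0 r d := Nat.cast_nonneg _
    nlinarith
  have h5 : (d + 1 : ℝ) * (R + 1) ≤ (d + 1 : ℝ) * (R0 r d + 1) :=
    mul_le_mul_of_nonneg_left (by linarith) (by positivity)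
  nlinarith

/-- The congruence for the factors. -/
theorem cgr_Y {S : Type} [CommRing S] (b : Fin r → ℕ) (W q f : ℕ) (hq : q.Prime)
    (hqb : ∀ i, ¬ q ∣ b i) (hQ : W * (q - 1) ∣ q ^ f - 1) (β y : Fin r → S)
    (hβ : ∀ i, β i ^ W = b i) (k p : Fin r → ℕ) :
    ∃ c : S, mon β k * mon y (fun i => q ^ f * p i) =
      ((1 : ℤ) : S) * (mon β k * mon y p) ^ (q ^ f) + q * c := by
  have h1 : ∀ s : Finset (Fin r), Cgr q (∏ i ∈ s, β i ^ k i) ((∏ i ∈ s, β i ^ k i) ^ (q ^ f)) := by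
    classical
    intro s
    induction s using Finset.induction_on with
    | empty => simpa using Cgr.refl q (1 : S)
    | insert i s hi ih =>
      rw [Finset.prod_insert hi, mul_pow]
      refine Cgr.mul ?_ ih
      rw [← pow_mul, mul_comm (k i), pow_mul]
      exact ((cgr_beta (b i) W q f hq (hqb i) hQ (β i) (hβ i)).pow (k i)).symm
  have h2 : mon y (fun i => q ^ f * p i) = mon y p ^ (q ^ f) := by
    unfold mon
    rw [← Finset.prod_pow]
    exact Finset.prod_congr rfl fun i _ => by rw [← pow_mul, mul_comm]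
  have h3 := (h1 Finset.univ).mul (Cgr.refl q (mon y p ^ (q ^ f)))
  rw [h2, Int.cast_one, one_mul, mul_pow]
  exact h3

end Pool.Agent.H69.BE
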