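import Pool.Agent.H69.BE.SixB
import Pool.Agent.H72.BE.Wtm
import Pool.Agent.H69.BD.Six

/-!
# THEOREM VR+ (MP_187c26_nt), chapter S6: the Frobenius step after the base change, several variables

Text: `F' = F(y)`, `y_i ^ W = x_i`, `β_i = y_i ^ m_i`, `u_i = ∑ β ^ k_j y ^ p_j v_ij(x) = y ^ E g c_i`,
`u'_i = ∑ β ^ k_j y ^ (Q p_j) v_ij^τ (x ^ Q)`. `∑ u_i α ^ i = 0`. If `∑ u'_i α ^ (Q i) ≠ 0`, then by `clP`, `norm_Y`, `sum_leR` and
`prod_wt_map`: `q ^ (N e) ≤ 2 ^ (N e) (Bb (d + 1) (R0 + 1)) ^ (N e) (√(∏ wt) ctv ^ ∏ m) ^ e ≤ K1 ^ (N e)`, `N = [F : ℚ]`, `e = [F' : F]`.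
-/

set_option autoImplicit false

open NumberField

namespace Pool.Agent.H69.BE

open Pool.Agent.H72.BE
open Pool.Agent.H69.BD (Cgr)

variable {r : ℕ}

theorem ctv_nn {A : Type} [Field A] [NumberField A] {d R : ℕ}
    (v : Fin (d + 1) → Fin (R + 1) → MvPolynomial (Fin r) A) : 0 ≤ ctv v := by
  unfold ctv ct
  exact finprod_nonneg fun w => Real.iSup_nonneg fun p => apply_nonneg w _

/-- The base relation. -/
theorem rep_baseR {A F : Type} [Field A] [Field F] [Algebra A F] {m : Fin r → ℕ} {W d R : ℕ}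
    {E : Fin r → ℕ} {x : Fin r → F} {Ω : Type} [Field Ω] (κ : F →+* Ω) (y : Fin r → Ω)
    (hy : ∀ i, y i ^ W = κ (x i)) (c : Fin (d + 1) → F) {ℓ gap : Fin r → ℕ}
    (a k p : Fin (R + 1) → Fin r → ℕ) (v : Fin (d + 1) → Fin (R + 1) → MvPolynomial (Fin r) A)
    (hr : Rep m x c ℓ gap a v) (hka : ∀ j i, W * a j i + E i = k j i * m i + p j i)
    (i : Fin (d + 1)) :
    ∑ j, mon (fun i => y i ^ m i) (k j) * mon y (p j) * κ (MvPolynomial.aeval x (v i j)) =
      mon y E * (κ (MvPolynomial.aeval x (v (Fin.last d) 0)) * κ (c i)) := by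
  rw [← map_mul, hr.eq i, map_sum, Finset.mul_sum]
  refine Finset.sum_congr rfl fun j _ => ?_
  rw [map_mul, mon_map, ← mul_assoc]
  congr 1
  unfold mon
  rw [← Finset.prod_mul_distrib, ← Finset.prod_mul_distrib]
  refine Finset.prod_congr rfl fun l _ => ?_
  show (y l ^ m l) ^ k j l * y l ^ p j l = y l ^ E l * κ (x l) ^ a j l
  rw [← hy, ← pow_mul, ← pow_mul, ← pow_add, ← pow_add]
  congr 1
  have := hka j l
  rw [mul_comm (m l) (k j l)]
  omega

theorem sixR {b m : Fin r → ℕ} [∀ i, NeZero (m i)] {d R W q f : ℕ} {E : Fin r → ℕ} {A F : Type}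
    [Field A] [NumberField A] [Field F] [NumberField F] [Algebra A F] {x : Fin r → F}
    [Algebra F ℂ] (h : Rad b m A F x) (hW : 1 ≤ W) (y : Fin r → ℂ)
    (hy : ∀ i, y i ^ W = algebraMap F ℂ (x i)) (α : ℂ) (hα : IsIntegral ℚ α)
    (c : Fin (d + 1) → F) (hc : ∑ i, algebraMap F ℂ (c i) * α ^ (i : ℕ) = 0)
    {ℓ gap : Fin r → ℕ} (a k p : Fin (R + 1) → Fin r → ℕ)
    (v : Fin (d + 1) → Fin (R + 1) → MvPolynomial (Fin r) A) (hr : Rep m x c ℓ gap a v)
    (hR : R ≤ R0 r d) (hka : ∀ j i, W * a j i + E i = k j i * m i + p j i)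
    (hpE : ∀ j i, p j i ≤ 2 * E i) (hE : ∀ i, 2 * q ^ f * E i + E i ≤ W * m i) (hq : q.Prime)
    (hqb : ∀ i, ¬ q ∣ b i) (hQ : W * (q - 1) ∣ q ^ f - 1) (hqK : K1 b d < q) (τ : A →+* A)
    (hτ : ∀ a : 𝓞 A, ∃ c : 𝓞 A, τ (a : A) = (a : A) ^ (q ^ f) + q * (c : A))
    (hsize : (∏ φ : F →+* ℂ, wt b m x a v (q ^ f) φ) * ctv v ^ (2 * ∏ i, m i) ≤
      ((Cs b d : ℝ) ^ 2) ^ Module.finrank ℚ F)
    (hh : (q : ℝ) ^ f * d * absLogHeight₁ α ≤ Real.log 2) :
    ∑ i : Fin (d + 1), (∑ j, mon (fun i => y i ^ m i) (k j) * mon y (fun i => q ^ f * p j i) *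
      algebraMap F ℂ (MvPolynomial.aeval (fun l => x l ^ (q ^ f)) (MvPolynomial.map τ (v i j)))) *
        (α ^ (q ^ f)) ^ (i : ℕ) = 0 := by
  classical
  by_contra hne
  have hm : ∀ i, 1 ≤ m i := fun i => h.one_le i
  have hb1 : ∀ i, 1 ≤ b i := fun i => by have := h.two i; omega
  have hyb : ∀ i, y i ^ (W * m i) = b i := fun i => by
    rw [pow_mul, hy, ← map_pow, h.pow, map_natCast]
  have hinty : ∀ i, IsIntegral ℤ (y i) := fun i => by
    refine IsIntegral.of_pow (Nat.mul_pos hW (hm i)) ?_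
    rw [hyb]
    exact isIntegral_natCast _
  have hintF : ∀ i, IsIntegral F (y i) := fun i => ((hinty i).tower_top (A := ℚ)).tower_top
  set F' := IntermediateField.adjoin F (Set.range y) with hF'
  have hfd : FiniteDimensional F F' := IntermediateField.finiteDimensional_adjoin (by
    rintro _ ⟨i, rfl⟩
    exact hintF i)
  have hfdQ : FiniteDimensional ℚ F' := FiniteDimensional.trans ℚ F F'
  have hnf : NumberField F' := {}
  let _ : Algebra A F' := ((algebraMap F F').comp (algebraMap A F)).toAlgebra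
  have htow : IsScalarTower A F F' := IsScalarTower.of_algebraMap_eq fun _ => rfl
  let y' : Fin r → F' := fun i => ⟨y i, IntermediateField.subset_adjoin _ _ ⟨i, rfl⟩⟩
  have hy' : ∀ i, algebraMap F' ℂ (y' i) = y i := fun i => rfl
  have hinty' : ∀ i, IsIntegral ℤ (y' i) := fun i =>
    (isIntegral_algebraMap_iff (B := ℂ) (algebraMap F' ℂ).injective).1 (hinty i)
  let yA : Fin r → 𝓞 F' := fun i => ⟨y' i, hinty' i⟩
  have hyA : ∀ i, ((yA i : 𝓞 F') : F') = y' i := fun i => rfl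
  have hxy : ∀ i, y' i ^ W = algebraMap F F' (x i) := fun i => by
    apply (algebraMap F' ℂ).injective
    rw [map_pow, ← IsScalarTower.algebraMap_apply]
    exact hy i
  have hbA : ∀ i, (yA i ^ m i) ^ W = (b i : 𝓞 F') := fun i => by
    apply RingOfIntegers.ext
    have h1 : (((yA i ^ m i) ^ W : 𝓞 F') : F') = (y' i ^ m i) ^ W := rfl
    have h2 : (((b i : ℕ) : 𝓞 F') : F') = (b i : F') := map_natCast (algebraMap (𝓞 F') F') _
    rw [h1, h2, ← pow_mul, mul_comm, pow_mul, hxy, ← map_pow, h.pow, map_natCast]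
  set Y : Fin (R + 1) → 𝓞 F' := fun j => mon (fun i => yA i ^ m i) (k j) * mon yA (p j) with hYd
  set Y' : Fin (R + 1) → 𝓞 F' := fun j =>
    mon (fun i => yA i ^ m i) (k j) * mon yA (fun i => q ^ f * p j i) with hY'd
  have hYY : ∀ j, ∃ c : 𝓞 F', Y' j = ((1 : ℤ) : 𝓞 F') * Y j ^ (q ^ f) + q * c := fun j =>
    cgr_Y b W q f hq hqb hQ (fun i => yA i ^ m i) yA hbA (k j) (p j)
  have hYe : ∀ j, ((Y j : 𝓞 F') : F') = mon (fun i => y' i ^ m i) (k j) * mon y' (p j) := by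
    intro j
    have h1 : ((Y j : 𝓞 F') : F') = algebraMap (𝓞 F') F' (mon (fun i => yA i ^ m i) (k j)) *
        algebraMap (𝓞 F') F' (mon yA (p j)) := map_mul _ _ _
    rw [h1, mon_map, mon_map]
    congr 1
  have hYe' : ∀ j, ((Y' j : 𝓞 F') : F') =
      mon (fun i => y' i ^ m i) (k j) * mon y' (fun i => q ^ f * p j i) := by
    intro j
    have h1 : ((Y' j : 𝓞 F') : F') = algebraMap (𝓞 F') F' (mon (fun i => yA i ^ m i) (k j)) *
        algebraMap (𝓞 F') F' (mon yA (fun i => q ^ f * p j i)) := map_mul _ _ _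
    rw [h1, mon_map, mon_map]
    congr 1
  set z : Fin r → 𝓞 F' := fun i => yA i ^ W with hz
  have hze : ∀ i, ((z i : 𝓞 F') : F') = algebraMap F F' (x i) := fun i => by
    rw [← hxy]
    rfl
  -- evaluation at `z`
  have hev : ∀ P : MvPolynomial (Fin r) A, MvPolynomial.aeval (fun l => ((z l : 𝓞 F') : F')) P =
      algebraMap F F' (MvPolynomial.aeval x P) := by
    intro P
    simp only [hze]
    exact (MvPolynomial.aeval_algebraMap_apply F' x P)
  have hevQ : ∀ P : MvPolynomial (Fin r) A,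
      MvPolynomial.aeval (fun l => ((z l : 𝓞 F') : F') ^ (q ^ f)) P =
      algebraMap F F' (MvPolynomial.aeval (fun l => x l ^ (q ^ f)) P) := by
    intro P
    simp only [hze, ← map_pow]
    exact (MvPolynomial.aeval_algebraMap_apply F' (fun l => x l ^ (q ^ f)) P)
  have h0 : ∑ i : Fin (d + 1), algebraMap F' ℂ (∑ j, (Y j : F') *
      MvPolynomial.aeval (fun l => ((z l : 𝓞 F') : F')) (v i j)) * α ^ (i : ℕ) = 0 := by
    have h1 : ∀ i : Fin (d + 1), algebraMap F' ℂ (∑ j, (Y j : F') *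
        MvPolynomial.aeval (fun l => ((z l : 𝓞 F') : F')) (v i j)) * α ^ (i : ℕ) =
        (mon y E * algebraMap F ℂ (MvPolynomial.aeval x (v (Fin.last d) 0))) *
          (algebraMap F ℂ (c i) * α ^ (i : ℕ)) := by
      intro i
      rw [Finset.sum_congr rfl fun j _ => by rw [hev, hYe],
        rep_baseR (algebraMap F F') y' hxy c a k p v hr hka i, map_mul, map_mul, mon_map,
        ← IsScalarTower.algebraMap_apply, ← IsScalarTower.algebraMap_apply]
      simp only [hy']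
      ring
    rw [Finset.sum_congr rfl fun i _ => h1 i, ← Finset.mul_sum, hc, mul_zero]
  have hne' : ∑ i : Fin (d + 1), algebraMap F' ℂ (∑ j, (Y' j : F') *
      MvPolynomial.aeval (fun l => ((z l : 𝓞 F') : F') ^ (q ^ f)) (MvPolynomial.map τ (v i j))) *
      α ^ (q ^ f * (i : ℕ)) ≠ 0 := by
    intro h1
    apply hne
    rw [← h1]
    refine Finset.sum_congr rfl fun i _ => ?_
    rw [pow_mul]
    congr 1
    rw [map_sum]
    refine Finset.sum_congr rfl fun j _ => ?_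
    rw [hevQ, hYe', map_mul, map_mul, mon_map, mon_map, ← IsScalarTower.algebraMap_apply]
    simp only [hy', map_pow]
  have hcl := clP (F := F') (Ω := ℂ) α hα d R q f hq τ hτ v z Y Y' 1 hYY h0 hne'
  set e := Module.finrank F F' with he
  have hepos : e ≠ 0 := (Module.finrank_pos (R := F) (M := F')).ne'
  set N := Module.finrank ℚ F with hN
  have hNpos : N ≠ 0 := (Module.finrank_pos (R := ℚ) (M := F)).ne'
  have hdeg : Module.finrank ℚ F' = N * e := by
    rw [hN, he, Module.finrank_mul_finrank]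
  have hdegA : Module.finrank A F' = (∏ i, m i) * e := by
    rw [← h.deg, he]
    exact (Module.finrank_mul_finrank A F F').symm
  set g : (F →+* ℂ) → ℝ := fun φ =>
    Bb b * (d + 1) * (R0 r d + 1) * √(wt b m x a (tw τ v) (q ^ f) φ) with hg
  have hwt0 : ∀ (v' : Fin (d + 1) → Fin (R + 1) → MvPolynomial (Fin r) A) φ,
      0 ≤ wt b m x a v' (q ^ f) φ := by
    intro v' φ
    rw [wt]
    refine Finset.sum_nonneg fun i _ => Finset.sum_nonneg fun j _ => ?_
    positivity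
  have hprod : ∏ φ : F' →+* ℂ, ∑ i : Fin (d + 1), ‖φ (∑ j, (Y' j : F') *
      MvPolynomial.aeval (fun l => ((z l : 𝓞 F') : F') ^ (q ^ f))
        (MvPolynomial.map τ (v i j)))‖ ≤ ∏ φ : F' →+* ℂ, g (φ.comp (algebraMap F F')) := by
    refine Finset.prod_le_prod (fun φ _ => Finset.sum_nonneg fun i _ => norm_nonneg _) fun φ _ => ?_
    have hzz : ∀ i, (φ (y' i)) ^ (W * m i) = b i := fun i => by
      rw [← map_pow, pow_mul, hxy, ← map_pow, h.pow, map_natCast, map_natCast]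
    have h1 := sum_leR b m d h.two hR a
      (fun j => mon (fun i => φ (y' i) ^ m i) (k j) * mon (fun i => φ (y' i)) (fun i => q ^ f * p j i))
      (fun j => norm_Y b m W (q ^ f) E h.two hm hW a k p (fun i => φ (y' i)) hzz hka hpE
        (fun i => by have := hE i; linarith) j)
      (fun i j => φ (algebraMap F F' (MvPolynomial.aeval (fun l => x l ^ (q ^ f))
        (MvPolynomial.map τ (v i j)))))
    rw [hg]
    simp only
    refine le_trans (le_of_eq ?_) h1
    refine Finset.sum_congr rfl fun i _ => ?_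
    congr 1
    rw [map_sum]
    refine Finset.sum_congr rfl fun j _ => ?_
    rw [hevQ, hYe', map_mul, map_mul, mon_map, mon_map]
    simp only [map_pow]
  have hprod2 : ∏ φ : F' →+* ℂ, g (φ.comp (algebraMap F F')) = (∏ φ : F →+* ℂ, g φ) ^ e :=
    Pool.Agent.H4.RR.prod_comp_embeddings F F' g
  have hcard : Fintype.card (F →+* ℂ) = N := by
    rw [NumberField.Embeddings.card]
  obtain ⟨Cc, hCc⟩ : ∃ Cc : ℝ, Cc = Bb b * (d + 1) * (R0 r d + 1) := ⟨_, rfl⟩
  have hCc0 : 0 ≤ Cc := by rw [hCc]; positivity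
  obtain ⟨P, hP⟩ : ∃ P : ℝ, P = ∏ φ : F →+* ℂ, wt b m x a v (q ^ f) φ := ⟨_, rfl⟩
  have hP0 : 0 ≤ P := by
    rw [hP]
    exact Finset.prod_nonneg fun φ _ => hwt0 v φ
  have hprod3 : ∏ φ : F →+* ℂ, g φ = Cc ^ N * √P := by
    rw [hg, Finset.prod_mul_distrib, Finset.prod_const, Finset.card_univ, hcard, ← hCc]
    congr 1
    have h1 : (∏ φ : F →+* ℂ, √(wt b m x a (tw τ v) (q ^ f) φ)) =
        √(∏ φ : F →+* ℂ, wt b m x a (tw τ v) (q ^ f) φ) := by
      rw [Real.sqrt_eq_rpow, ← Real.finsetProd_rpow]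
      · refine Finset.prod_congr rfl fun φ _ => ?_
        rw [Real.sqrt_eq_rpow]
      · intro φ _
        exact hwt0 _ φ
    rw [h1, prod_wt_map h, hP]
  have hctv := ctv_nn v
  have hmain : √P * ctv v ^ (∏ i, m i) ≤ (Cs b d : ℝ) ^ N := by
    refine le_of_sq_le_sq ?_ (by positivity)
    rw [mul_pow, Real.sq_sqrt hP0, ← pow_mul, ← pow_mul, hP]
    refine le_trans (le_of_eq ?_) (hsize.trans (le_of_eq ?_))
    · rw [mul_comm (∏ i, m i) 2]
    · rw [← pow_mul, mul_comm N 2]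
  have hK1 : 2 * Cc * (Cs b d : ℝ) = K1 b d := by
    rw [K1, hCc]
    push_cast
    ring
  have hexp : Real.exp (((N * e : ℕ) : ℝ) * (q : ℝ) ^ f * d * absLogHeight₁ α) ≤
      2 ^ (N * e) := by
    calc Real.exp (((N * e : ℕ) : ℝ) * (q : ℝ) ^ f * d * absLogHeight₁ α)
        = Real.exp (((N * e : ℕ) : ℝ) * ((q : ℝ) ^ f * d * absLogHeight₁ α)) := by
          congr 1; ring
      _ = (Real.exp ((q : ℝ) ^ f * d * absLogHeight₁ α)) ^ (N * e) := by rw [Real.exp_nat_mul]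
      _ ≤ 2 ^ (N * e) := by
          refine pow_le_pow_left₀ (Real.exp_pos _).le ?_ _
          rw [← Real.exp_log (show (0 : ℝ) < 2 by norm_num)]
          exact Real.exp_le_exp.2 hh
  rw [hdeg, hdegA] at hcl
  have hfin : (q : ℝ) ^ (N * e) ≤ (K1 b d : ℝ) ^ (N * e) := by
    refine hcl.trans ?_
    have h1 : (Real.exp (((N * e : ℕ) : ℝ) * (q : ℝ) ^ f * d * absLogHeight₁ α) *
        (∏ φ : F' →+* ℂ, ∑ i : Fin (d + 1), ‖φ (∑ j, (Y' j : F') *
          MvPolynomial.aeval (fun l => ((z l : 𝓞 F') : F') ^ (q ^ f))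
            (MvPolynomial.map τ (v i j)))‖) * ctv v ^ ((∏ i, m i) * e)) ≤
        2 ^ (N * e) * (Cc ^ N * √P) ^ e * ctv v ^ ((∏ i, m i) * e) := by
      refine mul_le_mul_of_nonneg_right ?_ (pow_nonneg hctv _)
      refine mul_le_mul hexp ?_ ?_ (by positivity)
      · rw [← hprod3, ← hprod2]
        exact hprod
      · exact Finset.prod_nonneg fun φ _ => Finset.sum_nonneg fun i _ => norm_nonneg _
    refine h1.trans ?_
    have h2 : 2 ^ (N * e) * (Cc ^ N * √P) ^ e * ctv v ^ ((∏ i, m i) * e) =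
        (2 * Cc) ^ (N * e) * (√P * ctv v ^ (∏ i, m i)) ^ e := by
      rw [mul_pow, mul_pow, mul_pow, ← pow_mul, ← pow_mul]
      ring
    rw [h2, ← hK1, mul_pow (2 * Cc) (Cs b d : ℝ) (N * e), pow_mul (Cs b d : ℝ) N e]
    refine mul_le_mul_of_nonneg_left ?_ (by positivity)
    exact pow_le_pow_left₀ (by positivity) hmain e
  have hlt : (K1 b d : ℝ) ^ (N * e) < (q : ℝ) ^ (N * e) := by
    refine pow_lt_pow_left₀ (by exact_mod_cast hqK) (Nat.cast_nonneg _) ?_
    exact Nat.mul_ne_zero hNpos hepos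
  linarith

end Pool.Agent.H69.BE
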