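import Mathlib

/-!
# THEOREM VR+ (MP_187c26_nt), chapter S6: radical towers and polynomial relations

Text: `y_i ^ (m_i) ∈ E`. There is a field `L` with `E ≤ L`, `y_i ∈ L`, `[L : K] ≤ [E : K] ∏ m_i`, and if `[E : K] ∏ m_i ≤ D [L : K]`, then a polynomial
over `E` with `D deg_i < m_i` which vanishes at `y` is `0`. Induction: adjoin `y_0` to the field `L'` for `y_1, …, y_r`: the degree
`e ≤ m_0` of `y_0` over `L'` satisfies `D e ≥ m_0`.
-/

set_option autoImplicit false

open IntermediateField Module

namespace Pool.Agent.H69.BE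

theorem eval_finSucc {R S : Type} [CommRing R] [CommRing S] [Algebra R S] (r : ℕ)
    (y : Fin (r + 1) → S) (p : MvPolynomial (Fin (r + 1)) R) :
    Polynomial.eval₂ (MvPolynomial.aeval (fun i : Fin r => y i.succ) :
      MvPolynomial (Fin r) R →ₐ[R] S).toRingHom (y 0) (MvPolynomial.finSuccEquiv R r p) =
      MvPolynomial.aeval y p := by
  have h : (Polynomial.eval₂RingHom (MvPolynomial.aeval (fun i : Fin r => y i.succ) :
      MvPolynomial (Fin r) R →ₐ[R] S).toRingHom (y 0)).comp
      ((MvPolynomial.finSuccEquiv R r).toAlgHom.toRingHom) =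
      (MvPolynomial.aeval y : MvPolynomial (Fin (r + 1)) R →ₐ[R] S).toRingHom := by
    apply MvPolynomial.ringHom_ext
    · intro a
      show Polynomial.eval₂ _ (y 0) (MvPolynomial.finSuccEquiv R r (MvPolynomial.C a)) =
        MvPolynomial.aeval y (MvPolynomial.C a)
      rw [MvPolynomial.finSuccEquiv_apply]
      simp
    · intro i
      show Polynomial.eval₂ _ (y 0) (MvPolynomial.finSuccEquiv R r (MvPolynomial.X i)) =
        MvPolynomial.aeval y (MvPolynomial.X i)
      rw [MvPolynomial.finSuccEquiv_apply]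
      refine Fin.cases ?_ (fun i => ?_) i
      · simp
      · simp
  exact congrArg (fun g : MvPolynomial (Fin (r + 1)) R →+* S => g p) h

theorem aeval_mem {K Ω : Type} [Field K] [Field Ω] [Algebra K Ω] (E L : IntermediateField K Ω)
    (hEL : E ≤ L) {r : ℕ} (y : Fin r → Ω) (hy : ∀ i, y i ∈ L) (p : MvPolynomial (Fin r) E) :
    MvPolynomial.aeval y p ∈ L := by
  induction p using MvPolynomial.induction_on with
  | C a =>
    rw [MvPolynomial.aeval_C]
    exact hEL a.2
  | add p q hp hq =>
    rw [map_add]
    exact add_mem hp hq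
  | mul_X p i hp =>
    rw [map_mul, MvPolynomial.aeval_X]
    exact mul_mem hp (hy i)

theorem tower {K Ω : Type} [Field K] [Field Ω] [Algebra K Ω] (E : IntermediateField K Ω)
    [FiniteDimensional K E] : ∀ (r : ℕ) (y : Fin r → Ω) (m : Fin r → ℕ), (∀ i, 1 ≤ m i) →
    (∀ i, y i ^ m i ∈ E) → ∃ L : IntermediateField K Ω, E ≤ L ∧ (∀ i, y i ∈ L) ∧
      FiniteDimensional K L ∧ finrank K L ≤ finrank K E * ∏ i, m i ∧
      ∀ D : ℕ, finrank K E * ∏ i, m i ≤ D * finrank K L → ∀ p : MvPolynomial (Fin r) E,
        (∀ i, D * p.degreeOf i < m i) → MvPolynomial.aeval y p = 0 → p = 0 := by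
  intro r
  induction r with
  | zero =>
    intro y m _ _
    refine ⟨E, le_rfl, fun i => i.elim0, inferInstance, by simp, fun D _ p _ hp => ?_⟩
    rw [MvPolynomial.eq_C_of_isEmpty p, MvPolynomial.aeval_C] at hp
    rw [MvPolynomial.eq_C_of_isEmpty p]
    rw [(algebraMap E Ω).injective (hp.trans (map_zero _).symm), map_zero]
  | succ r ih =>
    intro y m hm hy
    obtain ⟨L', hEL, hyL, hfd, hle, hD⟩ := ih (fun i => y i.succ) (fun i => m i.succ)
      (fun i => hm _) (fun i => hy _)
    have hy0 : y 0 ^ m 0 ∈ L' := hEL (hy 0)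
    have hint : IsIntegral L' (y 0) := by
      refine ⟨Polynomial.X ^ m 0 - Polynomial.C ⟨y 0 ^ m 0, hy0⟩,
        Polynomial.monic_X_pow_sub_C _ (by have := hm 0; omega), ?_⟩
      rw [Polynomial.eval₂_sub, Polynomial.eval₂_pow, Polynomial.eval₂_X, Polynomial.eval₂_C]
      exact sub_self _
    set e := (minpoly L' (y 0)).natDegree with he
    have hem : e ≤ m 0 := by
      have h1 : minpoly L' (y 0) ∣ Polynomial.X ^ m 0 - Polynomial.C ⟨y 0 ^ m 0, hy0⟩ := by
        apply minpoly.dvd
        rw [map_sub, map_pow, Polynomial.aeval_X, Polynomial.aeval_C]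
        exact sub_self _
      have h2 := Polynomial.natDegree_le_of_dvd h1
        (Polynomial.monic_X_pow_sub_C _ (by have := hm 0; omega)).ne_zero
      rwa [Polynomial.natDegree_X_pow_sub_C] at h2
    have hfdL : FiniteDimensional L' (L'⟮y 0⟯) := adjoin.finiteDimensional hint
    have hfr : finrank L' (L'⟮y 0⟯) = e := adjoin.finrank hint
    have hfr2 : finrank K (L'⟮y 0⟯) = finrank K L' * e := by
      rw [← hfr, finrank_mul_finrank]
    have hLpos : 0 < finrank K L' := finrank_pos
    refine ⟨(L'⟮y 0⟯).restrictScalars K, ?_, ?_, ?_, ?_, ?_⟩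
    · intro z hz
      exact (L'⟮y 0⟯).algebraMap_mem ⟨z, hEL hz⟩
    · intro i
      refine Fin.cases ?_ (fun i => ?_) i
      · exact mem_adjoin_simple_self L' (y 0)
      · exact (L'⟮y 0⟯).algebraMap_mem ⟨y i.succ, hyL i⟩
    · exact FiniteDimensional.trans K L' (L'⟮y 0⟯)
    · change finrank K (L'⟮y 0⟯) ≤ _
      rw [hfr2, Fin.prod_univ_succ]
      calc finrank K L' * e ≤ (finrank K E * ∏ i : Fin r, m i.succ) * m 0 := Nat.mul_le_mul hle hem
        _ = _ := by ring
    · intro D hDle p hp hp0
      change _ ≤ D * finrank K (L'⟮y 0⟯) at hDle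
      rw [hfr2, Fin.prod_univ_succ] at hDle
      have hD' : finrank K E * ∏ i : Fin r, m i.succ ≤ D * finrank K L' := by
        refine Nat.le_of_mul_le_mul_left ?_ (hm 0)
        calc m 0 * (finrank K E * ∏ i : Fin r, m i.succ)
            = finrank K E * (m 0 * ∏ i : Fin r, m i.succ) := by ring
          _ ≤ D * (finrank K L' * e) := hDle
          _ ≤ D * (finrank K L' * m 0) := Nat.mul_le_mul_left _ (Nat.mul_le_mul_left _ hem)
          _ = m 0 * (D * finrank K L') := by ring
      have hDe : m 0 ≤ D * e := by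
        refine Nat.le_of_mul_le_mul_left ?_ hLpos
        calc finrank K L' * m 0 ≤ (finrank K E * ∏ i : Fin r, m i.succ) * m 0 :=
              Nat.mul_le_mul_right _ hle
          _ = finrank K E * (m 0 * ∏ i : Fin r, m i.succ) := by ring
          _ ≤ D * (finrank K L' * e) := hDle
          _ = finrank K L' * (D * e) := by ring
      set f : MvPolynomial (Fin r) E →+* Ω := (MvPolynomial.aeval (fun i : Fin r => y i.succ) :
        MvPolynomial (Fin r) E →ₐ[E] Ω).toRingHom with hf
      set P := MvPolynomial.finSuccEquiv E r p with hP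
      have hPev : Polynomial.eval₂ f (y 0) P = 0 := by
        rw [hf, hP, eval_finSucc, hp0]
      have hl : P.map f ∈ Polynomial.lifts (algebraMap L' Ω) := by
        rw [Polynomial.lifts_iff_coeff_lifts]
        intro i
        rw [Polynomial.coeff_map]
        exact ⟨⟨_, aeval_mem E L' hEL _ hyL _⟩, rfl⟩
      obtain ⟨q, hq, hqd⟩ := Polynomial.exists_natDegree_eq_of_mem_lifts hl
      have hq0 : q = 0 := by
        by_contra hne
        have h1 : Polynomial.aeval (y 0) q = 0 := by
          rw [Polynomial.aeval_def, ← Polynomial.eval_map, hq, Polynomial.eval_map]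
          exact hPev
        have h2 := Polynomial.natDegree_le_natDegree
          (minpoly.degree_le_of_ne_zero L' (y 0) hne h1)
        rw [← he, hqd] at h2
        have h3 : (P.map f).natDegree ≤ p.degreeOf 0 := by
          refine Polynomial.natDegree_map_le.trans ?_
          rw [hP, MvPolynomial.natDegree_finSuccEquiv]
        have h4 := hp 0
        have h5 := Nat.mul_le_mul_left D (h2.trans h3)
        omega
      have hPf : P.map f = 0 := by rw [← hq, hq0, Polynomial.map_zero]
      have hP0 : P = 0 := by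
        ext1 j
        rw [Polynomial.coeff_zero]
        refine hD D hD' _ (fun i => ?_) ?_
        · refine lt_of_le_of_lt (Nat.mul_le_mul_left D ?_) (hp i.succ)
          exact MvPolynomial.degreeOf_coeff_finSuccEquiv p i j
        · have h1 := congrArg (fun q => q.coeff j) hPf
          simp only [Polynomial.coeff_map, Polynomial.coeff_zero] at h1
          exact h1
      rw [hP, EmbeddingLike.map_eq_zero_iff] at hP0
      exact hP0

end Pool.Agent.H69.BE
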